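import Mathlib

/-! Extremal hypergraphs with six edges. -/

namespace Pool.Agent.Helper74.TZ

/-- the ten triples of the design -/
def des : Fin 10 → Finset (Fin 6) :=
  ![{0, 1, 2}, {0, 3, 4}, {1, 3, 5}, {2, 4, 5}, {0, 1, 5}, {0, 2, 3}, {0, 4, 5}, {1, 2, 4},
    {1, 3, 4}, {2, 3, 5}]

/-- four triples of the design, each point in two of them -/
def pas : Fin 4 → Finset (Fin 6) := ![{0, 1, 2}, {0, 3, 4}, {1, 3, 5}, {2, 4, 5}]

theorem des_card : ∀ x, (des x).card = 3 := by decide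

theorem pas_card : ∀ x, (pas x).card = 3 := by decide

theorem des_deg : ∀ i, (Finset.univ.filter fun x => i ∈ des x).card = 5 := by decide

theorem pas_deg : ∀ i, (Finset.univ.filter fun x => i ∈ pas x).card = 2 := by decide

theorem pas_des : ∀ x, ∃ y, pas x = des y := by decide

theorem des_two : ∀ x y, ∃ i, i ∉ des x ∧ i ∉ des y := by decide

theorem des_sep : ∀ i j, i ≠ j → ∃ x, i ∈ des x ∧ j ∉ des x := by decide

theorem pas_sep : ∀ i j, i ≠ j → ∃ x, i ∈ pas x ∧ j ∉ pas x := by decide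

/-- the block of a vertex -/
def blk (a b : ℕ) : (Fin a × Fin 4) ⊕ (Fin b × Fin 10) → Finset (Fin 6)
  | Sum.inl x => pas x.2
  | Sum.inr x => des x.2

/-- the edges -/
def edg (a b : ℕ) (i : Fin 6) : Finset ((Fin a × Fin 4) ⊕ (Fin b × Fin 10)) :=
  Finset.univ.filter fun x => i ∈ blk a b x

theorem blk_card (a b : ℕ) (x) : (blk a b x).card = 3 := by
  rcases x with x | x
  · exact pas_card x.2
  · exact des_card x.2

theorem blk_two (a b : ℕ) (x y) : ∃ i, i ∉ blk a b x ∧ i ∉ blk a b y := by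
  have key : ∀ x, ∃ z, blk a b x = des z := by
    intro x
    rcases x with x | x
    · exact pas_des x.2
    · exact ⟨x.2, rfl⟩
  obtain ⟨z, hz⟩ := key x
  obtain ⟨w, hw⟩ := key y
  rw [hz, hw]
  exact des_two z w

theorem edg_card (a b : ℕ) (i : Fin 6) : (edg a b i).card = 2 * a + 5 * b := by
  have h1 : edg a b i = ((Finset.univ : Finset (Fin a)) ×ˢ
      (Finset.univ.filter fun x => i ∈ pas x)).disjSum
      ((Finset.univ : Finset (Fin b)) ×ˢ (Finset.univ.filter fun x => i ∈ des x)) := by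
    ext x
    rcases x with ⟨x, y⟩ | ⟨x, y⟩
    · rw [edg, Finset.mem_filter, Finset.inl_mem_disjSum, Finset.mem_product, Finset.mem_filter]
      exact ⟨fun h => ⟨Finset.mem_univ _, Finset.mem_univ _, h.2⟩,
        fun h => ⟨Finset.mem_univ _, h.2.2⟩⟩
    · rw [edg, Finset.mem_filter, Finset.inr_mem_disjSum, Finset.mem_product, Finset.mem_filter]
      exact ⟨fun h => ⟨Finset.mem_univ _, Finset.mem_univ _, h.2⟩,
        fun h => ⟨Finset.mem_univ _, h.2.2⟩⟩
  rw [h1, Finset.card_disjSum, Finset.card_product, Finset.card_product, pas_deg, des_deg,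
    Finset.card_univ, Finset.card_univ, Fintype.card_fin, Fintype.card_fin]
  ring

theorem edg_inj {a b : ℕ} (h : 1 ≤ a + b) : Function.Injective (edg a b) := by
  intro i j hij
  by_contra hne
  rcases Nat.eq_zero_or_pos a with ha | ha
  · have hb : 0 < b := by omega
    obtain ⟨x, h1, h2⟩ := des_sep i j hne
    have h3 : Sum.inr (⟨0, hb⟩, x) ∈ edg a b i := Finset.mem_filter.2 ⟨Finset.mem_univ _, h1⟩
    rw [hij] at h3
    exact h2 (Finset.mem_filter.1 h3).2
  · obtain ⟨x, h1, h2⟩ := pas_sep i j hne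
    have h3 : Sum.inl (⟨0, ha⟩, x) ∈ edg a b i := Finset.mem_filter.2 ⟨Finset.mem_univ _, h1⟩
    rw [hij] at h3
    exact h2 (Finset.mem_filter.1 h3).2

/-- the extremal hypergraphs -/
theorem exa {k : ℕ} (hk : 4 ≤ k) : ∃ (X : Type) (_ : Fintype X) (_ : DecidableEq X)
    (E : Finset (Finset X)), Nonempty X ∧ (∀ e ∈ E, e.card = k) ∧
    (∀ x, (E.filter fun e => x ∈ e).card ≤ 3) ∧ Fintype.card X = 2 * k ∧ E.card = 6 ∧
    ∀ T : Finset X, (∀ e ∈ E, ∃ x ∈ T, x ∈ e) → 3 ≤ T.card := by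
  obtain ⟨a, b, hab, h1⟩ : ∃ a b, 2 * a + 5 * b = k ∧ 1 ≤ a + b := by
    rcases Nat.even_or_odd k with ⟨r, hr⟩ | ⟨r, hr⟩
    · exact ⟨r, 0, by omega, by omega⟩
    · exact ⟨r - 2, 1, by omega, by omega⟩
  have hinj := edg_inj h1
  refine ⟨(Fin a × Fin 4) ⊕ (Fin b × Fin 10), inferInstance, inferInstance,
    Finset.univ.image (edg a b), ?_, ?_, ?_, ?_, ?_, ?_⟩
  · obtain ⟨x, hx⟩ := Finset.card_pos.1 (show 0 < (edg a b 0).card by rw [edg_card]; omega)
    exact ⟨x⟩
  · intro e he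
    obtain ⟨i, -, rfl⟩ := Finset.mem_image.1 he
    rw [edg_card, hab]
  · intro x
    have h2 : (Finset.univ.image (edg a b)).filter (fun e => x ∈ e) ⊆ (blk a b x).image (edg a b) := by
      intro e he
      rw [Finset.mem_filter] at he
      obtain ⟨i, -, rfl⟩ := Finset.mem_image.1 he.1
      exact Finset.mem_image_of_mem _ (Finset.mem_filter.1 he.2).2
    refine (Finset.card_le_card h2).trans (Finset.card_image_le.trans ?_)
    rw [blk_card]
  · rw [Fintype.card_sum, Fintype.card_prod, Fintype.card_prod, Fintype.card_fin,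
      Fintype.card_fin, Fintype.card_fin, Fintype.card_fin]
    omega
  · rw [Finset.card_image_of_injective _ hinj, Finset.card_univ, Fintype.card_fin]
  · intro T hT
    by_contra hlt
    have hT2 : T.card ≤ 2 := by omega
    have hX : Nonempty ((Fin a × Fin 4) ⊕ (Fin b × Fin 10)) := by
      obtain ⟨x, hx⟩ := Finset.card_pos.1 (show 0 < (edg a b 0).card by rw [edg_card]; omega)
      exact ⟨x⟩
    obtain ⟨x, y, hxy⟩ : ∃ x y, T ⊆ {x, y} := by
      obtain ⟨x0⟩ := hX
      rcases Nat.lt_or_ge T.card 1 with h2 | h2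
      · have : T = ∅ := Finset.card_eq_zero.1 (by omega)
        exact ⟨x0, x0, by rw [this]; simp⟩
      · rcases Nat.lt_or_ge T.card 2 with h3 | h3
        · obtain ⟨x, hx⟩ := Finset.card_eq_one.1 (by omega : T.card = 1)
          exact ⟨x, x, by rw [hx]; simp⟩
        · obtain ⟨x, y, -, hx⟩ := Finset.card_eq_two.1 (by omega : T.card = 2)
          exact ⟨x, y, by rw [hx]⟩
    obtain ⟨i, h2, h3⟩ := blk_two a b x y
    obtain ⟨z, hz, hze⟩ := hT (edg a b i) (Finset.mem_image_of_mem _ (Finset.mem_univ _))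
    have h4 := (Finset.mem_filter.1 hze).2
    have h5 := hxy hz
    rw [Finset.mem_insert, Finset.mem_singleton] at h5
    rcases h5 with rfl | rfl
    · exact h2 h4
    · exact h3 h4

/-- the two extra blocks -/
def two : Fin 2 → Finset (Fin 3) := ![{0, 1}, {2}]

theorem two_deg : ∀ i, (Finset.univ.filter fun x => i ∈ two x).card = 1 := by decide

theorem era_deg : ∀ i : Fin 3, (Finset.univ.filter fun x : Fin 3 =>
    i ∈ (Finset.univ.erase x : Finset (Fin 3))).card = 2 := by decide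

/-- the block of a vertex -/
def blc (a b : ℕ) : (Fin a × Fin 3) ⊕ (Fin b × Fin 2) → Finset (Fin 3)
  | Sum.inl x => Finset.univ.erase x.2
  | Sum.inr x => two x.2

/-- the edges -/
def ede (a b : ℕ) (i : Fin 3) : Finset ((Fin a × Fin 3) ⊕ (Fin b × Fin 2)) :=
  Finset.univ.filter fun x => i ∈ blc a b x

theorem era_miss : ∀ x : Fin 3, ∃ i : Fin 3, i ∉ (Finset.univ.erase x : Finset (Fin 3)) := by decide

theorem two_miss : ∀ x, ∃ i, i ∉ two x := by decide

theorem blc_miss (a b : ℕ) (x) : ∃ i, i ∉ blc a b x := by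
  rcases x with x | x
  · exact era_miss x.2
  · exact two_miss x.2

theorem ede_card (a b : ℕ) (i : Fin 3) : (ede a b i).card = 2 * a + b := by
  have h1 : ede a b i = ((Finset.univ : Finset (Fin a)) ×ˢ
      (Finset.univ.filter fun x : Fin 3 => i ∈ (Finset.univ.erase x : Finset (Fin 3)))).disjSum
      ((Finset.univ : Finset (Fin b)) ×ˢ (Finset.univ.filter fun x => i ∈ two x)) := by
    ext x
    rcases x with ⟨x, y⟩ | ⟨x, y⟩
    · rw [ede, Finset.mem_filter, Finset.inl_mem_disjSum, Finset.mem_product, Finset.mem_filter]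
      exact ⟨fun h => ⟨Finset.mem_univ _, Finset.mem_univ _, h.2⟩,
        fun h => ⟨Finset.mem_univ _, h.2.2⟩⟩
    · rw [ede, Finset.mem_filter, Finset.inr_mem_disjSum, Finset.mem_product, Finset.mem_filter]
      exact ⟨fun h => ⟨Finset.mem_univ _, Finset.mem_univ _, h.2⟩,
        fun h => ⟨Finset.mem_univ _, h.2.2⟩⟩
  rw [h1, Finset.card_disjSum, Finset.card_product, Finset.card_product, era_deg, two_deg,
    Finset.card_univ, Finset.card_univ, Fintype.card_fin, Fintype.card_fin]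
  ring

theorem era_sep : ∀ i j : Fin 3, i ≠ j → ∃ x : Fin 3, i ∈ (Finset.univ.erase x : Finset (Fin 3)) ∧
    j ∉ (Finset.univ.erase x : Finset (Fin 3)) := by decide

theorem ede_inj {a b : ℕ} (ha : 0 < a) : Function.Injective (ede a b) := by
  intro i j hij
  by_contra hne
  obtain ⟨x, h1, h2⟩ := era_sep i j hne
  have h3 : Sum.inl (⟨0, ha⟩, x) ∈ ede a b i := Finset.mem_filter.2 ⟨Finset.mem_univ _, h1⟩
  rw [hij] at h3
  exact h2 (Finset.mem_filter.1 h3).2

/-- three edges with no common vertex -/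
theorem exb {k : ℕ} (hk : 2 ≤ k) : ∃ (X : Type) (_ : Fintype X) (_ : DecidableEq X)
    (E : Finset (Finset X)), Nonempty X ∧ (∀ e ∈ E, e.card = k) ∧
    (∀ x, (E.filter fun e => x ∈ e).card ≤ 3) ∧ Fintype.card X = (3 * k + 1) / 2 ∧ E.card = 3 ∧
    ∀ T : Finset X, (∀ e ∈ E, ∃ x ∈ T, x ∈ e) → 2 ≤ T.card := by
  obtain ⟨a, b, hab, h1, h2⟩ : ∃ a b, 2 * a + b = k ∧ 0 < a ∧ 3 * a + 2 * b = (3 * k + 1) / 2 := by
    rcases Nat.even_or_odd k with ⟨r, hr⟩ | ⟨r, hr⟩
    · exact ⟨r, 0, by omega, by omega, by omega⟩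
    · exact ⟨r, 1, by omega, by omega, by omega⟩
  have hinj := ede_inj (b := b) h1
  have hc : (Finset.univ.image (ede a b)).card = 3 := by
    rw [Finset.card_image_of_injective _ hinj, Finset.card_univ, Fintype.card_fin]
  refine ⟨(Fin a × Fin 3) ⊕ (Fin b × Fin 2), inferInstance, inferInstance,
    Finset.univ.image (ede a b), ?_, ?_, ?_, ?_, hc, ?_⟩
  · exact ⟨Sum.inl (⟨0, h1⟩, 0)⟩
  · intro e he
    obtain ⟨i, -, rfl⟩ := Finset.mem_image.1 he
    rw [ede_card, hab]
  · intro x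
    exact (Finset.card_filter_le _ _).trans hc.le
  · rw [Fintype.card_sum, Fintype.card_prod, Fintype.card_prod, Fintype.card_fin,
      Fintype.card_fin, Fintype.card_fin, Fintype.card_fin]
    omega
  · intro T hT
    by_contra hlt
    have hT2 : T.card ≤ 1 := by omega
    obtain ⟨x, hx⟩ : ∃ x, T ⊆ {x} := by
      rcases Nat.lt_or_ge T.card 1 with h2 | h2
      · have : T = ∅ := Finset.card_eq_zero.1 (by omega)
        exact ⟨Sum.inl (⟨0, h1⟩, 0), by rw [this]; simp⟩
      · obtain ⟨x, hx⟩ := Finset.card_eq_one.1 (by omega : T.card = 1)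
        exact ⟨x, by rw [hx]⟩
    obtain ⟨i, h3⟩ := blc_miss a b x
    obtain ⟨z, hz, hze⟩ := hT (ede a b i) (Finset.mem_image_of_mem _ (Finset.mem_univ _))
    have h4 := (Finset.mem_filter.1 hze).2
    have h5 := hx hz
    rw [Finset.mem_singleton] at h5
    rw [h5] at h4
    exact h3 h4

end Pool.Agent.Helper74.TZ
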