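import Pool.Agent.Helper74.TZ.Defs

set_option linter.unusedSectionVars false
set_option linter.unusedSimpArgs false

namespace Pool.Agent.Helper74.TZ

variable {V : Type} [DecidableEq V] {G H : SimpleGraph V}

theorem MO.ne {S : Finset V} {f : V → V} (h : MO G S f) {v : V} (hv : v ∈ S) : f v ≠ v :=
  fun e => G.irrefl (by have := (h v hv).2.1; rw [e] at this; exact this)

theorem MO.inj {S : Finset V} {f : V → V} (h : MO G S f) : Set.InjOn f S := by
  intro u hu v hv e
  rw [← (h u hu).2.2, ← (h v hv).2.2, e]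

theorem MO.del {S : Finset V} {f : V → V} (h : MO G S f) {v : V} (hv : v ∈ S) :
    MO G ((S.erase v).erase (f v)) f := by
  intro u hu
  rw [Finset.mem_erase, Finset.mem_erase] at hu
  obtain ⟨h1, h2, h3⟩ := hu
  obtain ⟨h4, h5, h6⟩ := h u h3
  refine ⟨?_, h5, h6⟩
  rw [Finset.mem_erase, Finset.mem_erase]
  refine ⟨fun e => h2 (h.inj h3 hv e), fun e => h1 ?_, h4⟩
  rw [← e, h6]

theorem MO.mono {S : Finset V} {f : V → V} (h : MO G S f)
    (hGH : ∀ u ∈ S, ∀ v ∈ S, G.Adj u v → H.Adj u v) : MO H S f :=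
  fun v hv => ⟨(h v hv).1, hGH v hv _ (h v hv).1 (h v hv).2.1, (h v hv).2.2⟩

theorem MO.sub {S A : Finset V} {f : V → V} (h : MO G S f) (hA : A ⊆ S)
    (hcl : ∀ u ∈ A, f u ∈ A) : MO G A f :=
  fun v hv => ⟨hcl v hv, (h v (hA hv)).2.1, (h v (hA hv)).2.2⟩

theorem PM.mono {S : Finset V} (h : PM G S)
    (hGH : ∀ u ∈ S, ∀ v ∈ S, G.Adj u v → H.Adj u v) : PM H S := by
  obtain ⟨f, hf⟩ := h
  exact ⟨f, hf.mono hGH⟩

theorem PM.sub {S A : Finset V} (h : PM G S) (hA : A ⊆ S)
    (hcl : ∀ u ∈ A, ∀ v ∈ S, G.Adj u v → v ∈ A) : PM G A := by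
  obtain ⟨f, hf⟩ := h
  exact ⟨f, hf.sub hA fun u hu => hcl u hu _ (hf u (hA hu)).1 (hf u (hA hu)).2.1⟩

theorem PM_empty : PM G ∅ := ⟨id, fun v hv => by simp at hv⟩

theorem PM.union {A B : Finset V} (hA : PM G A) (hB : PM G B) (hd : Disjoint A B) :
    PM G (A ∪ B) := by
  obtain ⟨f, hf⟩ := hA
  obtain ⟨g, hg⟩ := hB
  refine ⟨fun v => if v ∈ A then f v else g v, ?_⟩
  intro v hv
  by_cases h : v ∈ A
  · have h1 := hf v h
    simp only [if_pos h, if_pos h1.1]
    exact ⟨Finset.mem_union_left _ h1.1, h1.2.1, h1.2.2⟩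
  · have h0 : v ∈ B := (Finset.mem_union.1 hv).resolve_left h
    have h1 := hg v h0
    have h2 : g v ∉ A := fun h3 => (Finset.disjoint_left.1 hd h3) h1.1
    simp only [if_neg h, if_neg h2]
    exact ⟨Finset.mem_union_right _ h1.1, h1.2.1, h1.2.2⟩

theorem PM_pair {u v : V} (h : G.Adj u v) : PM G {u, v} := by
  have hne : u ≠ v := h.ne
  refine ⟨fun x => if x = u then v else u, ?_⟩
  intro x hx
  rw [Finset.mem_insert, Finset.mem_singleton] at hx
  rcases hx with rfl | rfl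
  · simp only [if_true, if_neg hne.symm]
    exact ⟨by simp, h, trivial⟩
  · simp only [if_neg hne.symm, if_true]
    exact ⟨by simp, h.symm, trivial⟩

theorem PM.even {S : Finset V} (h : PM G S) : Even S.card := by
  obtain ⟨f, hf⟩ := h
  induction hn : S.card using Nat.strong_induction_on generalizing S with
  | _ n ih =>
    rcases S.eq_empty_or_nonempty with h0 | ⟨v, hv⟩
    · subst h0; simp at hn; subst hn; exact Even.zero
    · have h1 := hf.del hv
      have h2 : f v ∈ S.erase v := Finset.mem_erase.2 ⟨hf.ne hv, (hf v hv).1⟩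
      have h3 : ((S.erase v).erase (f v)).card + 2 = n := by
        rw [Finset.card_erase_of_mem h2, Finset.card_erase_of_mem hv, hn]
        have : 1 < S.card := Finset.one_lt_card.2 ⟨v, hv, f v, (hf v hv).1, (hf.ne hv).symm⟩
        omega
      have h4 := ih _ (by omega) h1 rfl
      rw [← h3]
      exact h4.add (by decide)

/-- a vertex and its partner -/
theorem PM.partner {S : Finset V} (h : PM G S) {v : V} (hv : v ∈ S) :
    ∃ w ∈ S, G.Adj v w ∧ PM G ((S.erase v).erase w) := by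
  obtain ⟨f, hf⟩ := h
  exact ⟨f v, (hf v hv).1, (hf v hv).2.1, f, hf.del hv⟩

theorem PM.add {S : Finset V} (h : PM G S) {u v : V} (huv : G.Adj u v) (hu : u ∉ S) (hv : v ∉ S) :
    PM G (insert u (insert v S)) := by
  have h1 := (PM_pair huv).union h (by
    rw [Finset.disjoint_left]
    intro x hx
    rw [Finset.mem_insert, Finset.mem_singleton] at hx
    rcases hx with rfl | rfl <;> assumption)
  have e : insert u (insert v S) = ({u, v} : Finset V) ∪ S := by
    ext x; simp [or_assoc]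
  rw [e]
  exact h1

/-- union of a family -/
theorem mem_un {O : Finset (Finset V)} {v : V} : v ∈ un O ↔ ∃ o ∈ O, v ∈ o := by
  simp [un]

theorem un_mono {O O' : Finset (Finset V)} (h : O ⊆ O') : un O ⊆ un O' := by
  intro v hv
  obtain ⟨o, ho, hv⟩ := mem_un.1 hv
  exact mem_un.2 ⟨o, h ho, hv⟩

theorem PM_un {O : Finset (Finset V)} (h : ∀ o ∈ O, PM G o)
    (hd : ∀ o ∈ O, ∀ o' ∈ O, o ≠ o' → Disjoint o o') : PM G (un O) := by
  induction O using Finset.induction_on with
  | empty => simpa [un] using PM_empty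
  | insert a s ha ih =>
    have h1 : un (insert a s) = a ∪ un s := by simp [un]
    rw [h1]
    refine (h a (Finset.mem_insert_self _ _)).union
      (ih (fun o ho => h o (Finset.mem_insert_of_mem ho))
        fun o ho o' ho' => hd o (Finset.mem_insert_of_mem ho) o' (Finset.mem_insert_of_mem ho')) ?_
    rw [Finset.disjoint_left]
    intro x hx hx'
    obtain ⟨o, ho, hxo⟩ := mem_un.1 hx'
    have hne : a ≠ o := fun e => ha (e ▸ ho)
    exact Finset.disjoint_left.1 (hd a (Finset.mem_insert_self _ _) o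
      (Finset.mem_insert_of_mem ho) hne) hx hxo

theorem un_card {O : Finset (Finset V)} (hd : ∀ o ∈ O, ∀ o' ∈ O, o ≠ o' → Disjoint o o') :
    (un O).card = ∑ o ∈ O, o.card := Finset.card_biUnion hd

/-- easy direction of Tutte's theorem -/
theorem PM.bar {S B : Finset V} {O : Finset (Finset V)} (h : PM G S) (hb : Bar G S B O) :
    O.card ≤ B.card := by
  obtain ⟨f, hf⟩ := h
  have key : ∀ o ∈ O, ∃ v ∈ o, f v ∈ B := by
    intro o ho
    by_contra hcon
    push Not at hcon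
    have hoS : o ⊆ S := fun v hv => (Finset.mem_sdiff.1 (hb.oS o ho hv)).1
    have h1 : MO G o f := by
      apply hf.sub hoS
      intro u hu
      exact hb.cl o ho u hu _ (Finset.mem_sdiff.2 ⟨(hf u (hoS hu)).1, hcon u hu⟩)
        (hf u (hoS hu)).2.1
    have h2 := PM.even ⟨f, h1⟩
    exact (Nat.not_even_iff_odd.2 (hb.odd o ho)) h2
  rcases O.eq_empty_or_nonempty with h0 | ⟨o0, ho0⟩
  · subst h0; simp
  haveI : Nonempty V := by
    obtain ⟨v, _, _⟩ := key o0 ho0
    exact ⟨v⟩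
  choose! g hg1 hg2 using key
  refine Finset.card_le_card_of_injOn (fun o => f (g o)) (fun o ho => hg2 o ho) ?_
  intro o ho o' ho' e
  by_contra hne
  have h1 : g o ∈ S := (Finset.mem_sdiff.1 (hb.oS o ho (hg1 o ho))).1
  have h2 : g o' ∈ S := (Finset.mem_sdiff.1 (hb.oS o' ho' (hg1 o' ho'))).1
  have h3 : g o = g o' := hf.inj h1 h2 e
  exact Finset.disjoint_left.1 (hb.disj o ho o' ho' hne) (hg1 o ho) (h3 ▸ hg1 o' ho')

theorem FC.odd {K : Finset V} (h : FC G K) : Odd K.card := by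
  obtain ⟨⟨v, hv⟩, h⟩ := h
  have := (h v hv).even
  rw [Finset.card_erase_of_mem hv] at this
  have h1 : 0 < K.card := Finset.card_pos.2 ⟨v, hv⟩
  rw [show K.card = (K.card - 1) + 1 by omega]
  exact this.add_one

/-- the counting lemma -/
theorem FC.bar {K B : Finset V} {O : Finset (Finset V)} (h : FC G K) (hb : Bar G K B O)
    (hB : B.Nonempty) : O.card + 1 ≤ B.card := by
  obtain ⟨v, hv⟩ := hB
  have h1 := h.2 v (hb.sub hv)
  have h2 : Bar G (K.erase v) (B.erase v) O := by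
    have e : K.erase v \ B.erase v = K \ B := by
      ext x
      simp only [Finset.mem_sdiff, Finset.mem_erase]
      constructor
      · rintro ⟨⟨h3, h4⟩, h5⟩
        exact ⟨h4, fun h6 => h5 ⟨h3, h6⟩⟩
      · rintro ⟨h3, h4⟩
        exact ⟨⟨fun e => h4 (e ▸ hv), h3⟩, fun h6 => h4 h6.2⟩
    exact ⟨Finset.erase_subset_erase _ hb.sub, by rw [e]; exact hb.oS, hb.odd, hb.disj,
      by rw [e]; exact hb.cl⟩
  have h3 := h1.bar h2
  rw [Finset.card_erase_of_mem hv] at h3
  have h4 : 0 < B.card := Finset.card_pos.2 ⟨v, hv⟩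
  omega

/-- connectedness -/
theorem FC.conn {K A : Finset V} (h : FC G K) (hA : A ⊆ K) (hne : A.Nonempty)
    (hcl : ∀ u ∈ A, ∀ v ∈ K, G.Adj u v → v ∈ A) : A = K := by
  by_contra hcon
  have hcl' : ∀ u ∈ K \ A, ∀ v ∈ K, G.Adj u v → v ∈ K \ A := by
    intro u hu v hv huv
    rw [Finset.mem_sdiff] at hu ⊢
    exact ⟨hv, fun h1 => hu.2 (hcl v h1 u hu.1 huv.symm)⟩
  have hne' : (K \ A).Nonempty := by
    rw [Finset.nonempty_iff_ne_empty, Ne, Finset.sdiff_eq_empty_iff_subset]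
    exact fun h1 => hcon (Finset.Subset.antisymm hA h1)
  have key : ∀ X Y : Finset V, X ⊆ K → Y ⊆ K → Disjoint X Y → Y.Nonempty →
      (∀ u ∈ X, ∀ v ∈ K, G.Adj u v → v ∈ X) → Even X.card := by
    intro X Y hX hY hd ⟨y, hy⟩ hc
    have hyX : y ∉ X := fun h1 => Finset.disjoint_left.1 hd h1 hy
    exact ((h.2 y (hY hy)).sub (A := X)
      (fun x hx => Finset.mem_erase.2 ⟨fun e => hyX (e ▸ hx), hX hx⟩)
      (fun u hu v hv => hc u hu v (Finset.mem_of_mem_erase hv))).even
  have h1 := key A (K \ A) hA Finset.sdiff_subset Finset.disjoint_sdiff hne' hcl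
  have h2 := key (K \ A) A Finset.sdiff_subset hA Finset.sdiff_disjoint hne hcl'
  have h3 := h.odd
  have h4 : K.card = (K \ A).card + A.card := (Finset.card_sdiff_add_card_eq_card hA).symm
  rw [h4] at h3
  exact (Nat.not_even_iff_odd.2 h3) (h2.add h1)

theorem Bar.subfam {S B : Finset V} {O O' : Finset (Finset V)} (hb : Bar G S B O) (h : O' ⊆ O) :
    Bar G S B O' :=
  ⟨hb.sub, fun o ho => hb.oS o (h ho), fun o ho => hb.odd o (h ho),
    fun o ho o' ho' => hb.disj o (h ho) o' (h ho'), fun o ho => hb.cl o (h ho)⟩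

theorem nb_sub (C : Finset V) (S : Finset (Finset V)) : nb G C S ⊆ C := by
  classical
  unfold nb; exact Finset.filter_subset _ _

theorem mem_nb {C : Finset V} {S : Finset (Finset V)} {z : V} :
    z ∈ nb G C S ↔ z ∈ C ∧ ∃ o ∈ S, ∃ v ∈ o, G.Adj z v := by
  classical
  unfold nb; rw [Finset.mem_filter]

/-- restriction to a subfamily and its neighbours -/
theorem Bar.nbr {S B : Finset V} {O O' : Finset (Finset V)} (hb : Bar G S B O) (h : O' ⊆ O) :
    Bar G S (nb G B O') O' := by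
  refine ⟨(nb_sub _ _).trans hb.sub, fun o ho v hv => ?_, fun o ho => hb.odd o (h ho),
    fun o ho o' ho' => hb.disj o (h ho) o' (h ho'), ?_⟩
  · have := Finset.mem_sdiff.1 (hb.oS o (h ho) hv)
    exact Finset.mem_sdiff.2 ⟨this.1, fun h1 => this.2 (nb_sub _ _ h1)⟩
  · intro o ho u hu v hv huv
    rw [Finset.mem_sdiff] at hv
    refine hb.cl o (h ho) u hu v (Finset.mem_sdiff.2 ⟨hv.1, fun h1 => hv.2 ?_⟩) huv
    exact mem_nb.2 ⟨h1, o, ho, u, hu, huv.symm⟩

theorem nb_nonempty {K B : Finset V} {O O' : Finset (Finset V)} (hF : FC G K) (hb : Bar G K B O)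
    (hB : B.Nonempty) (h : O' ⊆ O) (hne : O'.Nonempty) : (nb G B O').Nonempty := by
  obtain ⟨o, ho⟩ := hne
  by_contra hcon
  rw [Finset.not_nonempty_iff_eq_empty] at hcon
  have h1 := hb.nbr h
  rw [hcon] at h1
  have hoK : o ⊆ K := fun v hv => (Finset.mem_sdiff.1 (hb.oS o (h ho) hv)).1
  have h2 : o = K := hF.conn hoK ((hb.odd o (h ho)).pos |> Finset.card_pos.1)
    (fun u hu v hv huv => h1.cl o ho u hu v (by simpa using hv) huv)
  obtain ⟨z, hz⟩ := hB
  have h3 := hb.oS o (h ho)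
  rw [h2] at h3
  exact (Finset.mem_sdiff.1 (h3 (hb.sub hz))).2 hz

theorem FC.nb_card {K B : Finset V} {O O' : Finset (Finset V)} (hF : FC G K) (hb : Bar G K B O)
    (hB : B.Nonempty) (h : O' ⊆ O) (hne : O'.Nonempty) : O'.card + 1 ≤ (nb G B O').card :=
  hF.bar (hb.nbr h) (nb_nonempty hF hb hB h hne)

end Pool.Agent.Helper74.TZ
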