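import Pool.Agent.Helper74.TZ.Std3

set_option linter.unusedSectionVars false
set_option linter.unusedVariables false

namespace Pool.Agent.Helper74.TZ

variable {V : Type} [DecidableEq V] {G H : SimpleGraph V}

theorem phi_ge (x : ℚ) : x ≤ phi x := le_max_left _ _

theorem phi_ge' (x : ℚ) : 2 / 3 * x ≤ phi x := le_max_right _ _

theorem phi_le {x y : ℚ} (h1 : x ≤ y) (h2 : 2 / 3 * x ≤ y) : phi x ≤ y := max_le h1 h2

theorem phi_mono {x y : ℚ} (h : x ≤ y) : phi x ≤ phi y :=
  phi_le (h.trans (phi_ge y)) ((by linarith : 2 / 3 * x ≤ 2 / 3 * y).trans (phi_ge' y))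

theorem phi_nonneg {x : ℚ} (h : 0 ≤ x) : phi x = x := by
  unfold phi
  exact max_eq_left (by linarith)

theorem phi_nonpos {x : ℚ} (h : x ≤ 0) : phi x = 2 / 3 * x := by
  unfold phi
  exact max_eq_right (by linarith)

theorem phi_conv {a b m : ℚ} (h0 : 0 ≤ m) (h1 : m ≤ 1) :
    phi (m * a + (1 - m) * b) ≤ m * phi a + (1 - m) * phi b := by
  have h2 : 0 ≤ 1 - m := by linarith
  apply phi_le
  · have := mul_le_mul_of_nonneg_left (phi_ge a) h0
    have := mul_le_mul_of_nonneg_left (phi_ge b) h2
    linarith
  · have := mul_le_mul_of_nonneg_left (phi_ge' a) h0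
    have := mul_le_mul_of_nonneg_left (phi_ge' b) h2
    linarith

theorem sum_un {O : Finset (Finset V)} (hd : ∀ o ∈ O, ∀ o' ∈ O, o ≠ o' → Disjoint o o')
    (f : V → ℚ) : ∑ v ∈ un O, f v = ∑ o ∈ O, ∑ v ∈ o, f v := by
  unfold un
  rw [Finset.sum_biUnion]
  · rfl
  · intro o ho o' ho' hne
    exact hd o ho o' ho' hne

/-- a triangle as three points, with a chosen first point -/
theorem tri_three {T : Finset V} (hT : T.card = 3) {a : V} (ha : a ∈ T) :
    ∃ b c, a ≠ b ∧ a ≠ c ∧ b ≠ c ∧ T = {a, b, c} := by
  have h1 : (T.erase a).card = 2 := by rw [Finset.card_erase_of_mem ha, hT]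
  obtain ⟨b, c, hbc, h2⟩ := Finset.card_eq_two.1 h1
  have hb : b ∈ T.erase a := by rw [h2]; simp
  have hc : c ∈ T.erase a := by rw [h2]; simp
  refine ⟨b, c, (Finset.ne_of_mem_erase hb).symm, (Finset.ne_of_mem_erase hc).symm, hbc, ?_⟩
  rw [← Finset.insert_erase ha, h2]

theorem sum_three {a b c : V} (hab : a ≠ b) (hac : a ≠ c) (hbc : b ≠ c) (f : V → ℚ) :
    ∑ v ∈ ({a, b, c} : Finset V), f v = f a + f b + f c := by
  rw [Finset.sum_insert, Finset.sum_insert, Finset.sum_singleton, add_assoc]
  · simpa using hbc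
  · simp only [Finset.mem_insert, Finset.mem_singleton, not_or]
    exact ⟨hab, hac⟩

/-- the combined potential -/
theorem comb {K C : Finset V} {O : Finset (Finset V)} {E : Finset V} (hF : FC G K)
    (h : Std G K C O E) (hcut : NoCut G K) {c0 : V} (hc0 : c0 ∈ C) {pin pE q : V → ℚ}
    (hin : Pot (clq G C) (C ∪ un O) pin) (hE : Pot (ctr G C c0) (insert c0 E) pE)
    (hq : ∀ o ∈ O, Pot G o q) : ∃ p : V → ℚ, Pot G K p ∧ (∀ v ∈ E, p v = pE v) ∧
      (∀ v ∈ C, p v = (1 - pE c0) / 2 * pin v + (1 + pE c0) / 2) ∧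
      (∀ v ∈ un O, p v = (1 - pE c0) / 2 * pin v + (1 + pE c0) / 2 * q v) ∧
      ∑ v ∈ K, phi (p v) ≤ K.card / 3 - 1 - (phi (pE c0) - 2 / 3 * pE c0) -
        (1 + pE c0) * (C.card - 2) / 6 := by
  classical
  set x := pE c0 with hx
  have hc0E : c0 ∉ E := fun h1 => h.E_C h1 hc0
  have hx1 : -1 ≤ x := hE.lo c0 (Finset.mem_insert_self _ _)
  have hx2 : x ≤ 1 := hE.hi c0 (Finset.mem_insert_self _ _)
  set m := (1 - x) / 2 with hm
  have hm0 : 0 ≤ m := by rw [hm]; linarith
  have hm1 : m ≤ 1 := by rw [hm]; linarith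
  have hm2 : (1 + x) / 2 = 1 - m := by rw [hm]; ring
  have hm3 : 0 ≤ 1 - m := by linarith
  rw [hm2]
  set p : V → ℚ := fun v => if v ∈ E then pE v else if v ∈ C then m * pin v + (1 - m) else
    m * pin v + (1 - m) * q v with hp
  have qE : ∀ v ∈ E, p v = pE v := fun v hv => by simp only [hp, if_pos hv]
  have qC : ∀ v ∈ C, p v = m * pin v + (1 - m) := fun v hv => by
    have : v ∉ E := fun h1 => h.E_C h1 hv
    simp only [hp, if_neg this, if_pos hv]
  have qO : ∀ v ∈ un O, p v = m * pin v + (1 - m) * q v := fun v hv => by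
    have h1 : v ∉ E := fun h1 => h.E_un h1 hv
    have h2 : v ∉ C := fun h2 => Finset.disjoint_left.1 h.disC_un h2 hv
    simp only [hp, if_neg h1, if_neg h2]
  have inC : ∀ v ∈ C, v ∈ C ∪ un O := fun v hv => Finset.mem_union_left _ hv
  have inO : ∀ v ∈ un O, v ∈ C ∪ un O := fun v hv => Finset.mem_union_right _ hv
  have inE : ∀ v ∈ E, v ∈ insert c0 E := fun v hv => Finset.mem_insert_of_mem hv
  have hqO : ∀ v ∈ un O, -1 ≤ q v ∧ q v ≤ 1 := by
    intro v hv
    obtain ⟨o, ho, hvo⟩ := mem_un.1 hv
    exact ⟨(hq o ho).lo v hvo, (hq o ho).hi v hvo⟩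
  have lin : ∀ v ∈ C ∪ un O, -m ≤ m * pin v ∧ m * pin v ≤ m := by
    intro v hv
    have h1 := mul_le_mul_of_nonneg_left (hin.lo v hv) hm0
    have h2 := mul_le_mul_of_nonneg_left (hin.hi v hv) hm0
    constructor <;> linarith
  have lq : ∀ v ∈ un O, -(1 - m) ≤ (1 - m) * q v ∧ (1 - m) * q v ≤ 1 - m := by
    intro v hv
    have h1 := mul_le_mul_of_nonneg_left (hqO v hv).1 hm3
    have h2 := mul_le_mul_of_nonneg_left (hqO v hv).2 hm3
    constructor <;> linarith
  have cCx : ∀ v ∈ C, x ≤ p v := by
    intro v hv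
    rw [qC v hv]
    have := (lin v (inC v hv)).1
    have : x = 1 - 2 * m := by rw [hm]; ring
    linarith
  have edCC : ∀ u ∈ C, ∀ v ∈ C, u ≠ v → 1 + x ≤ p u + p v := by
    intro u hu v hv huv
    rw [qC u hu, qC v hv]
    have h1 := hin.ed u (inC u hu) v (inC v hv) (Or.inr ⟨huv, hu, hv⟩)
    have h2 := mul_le_mul_of_nonneg_left h1 hm0
    have : 1 + x = 2 * (1 - m) := by rw [hm]; ring
    linarith
  have edCO : ∀ u ∈ C, ∀ v ∈ un O, G.Adj u v → 0 ≤ p u + p v := by
    intro u hu v hv huv
    rw [qC u hu, qO v hv]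
    have h1 := hin.ed u (inC u hu) v (inO v hv) (clq_of C huv)
    have h2 := mul_le_mul_of_nonneg_left h1 hm0
    have := (lq v hv).1
    linarith
  have edCE : ∀ u ∈ C, ∀ v ∈ E, G.Adj u v → 0 ≤ p u + p v := by
    intro u hu v hv huv
    rw [qE v hv]
    have hcv : c0 ≠ v := fun e => hc0E (e ▸ hv)
    have h1 := hE.ed c0 (Finset.mem_insert_self _ _) v (inE v hv)
      ⟨hcv, Or.inr (Or.inl ⟨rfl, u, hu, huv⟩)⟩
    have := cCx u hu
    linarith
  have edE : ∀ u ∈ E, ∀ v ∈ E, G.Adj u v → 0 ≤ p u + p v := by
    intro u hu v hv huv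
    rw [qE u hu, qE v hv]
    exact hE.ed u (inE u hu) v (inE v hv)
      ⟨huv.ne, Or.inl ⟨fun e => hc0E (e ▸ hu), fun e => hc0E (e ▸ hv), huv⟩⟩
  have edO : ∀ u ∈ un O, ∀ v ∈ un O, G.Adj u v → 0 ≤ p u + p v := by
    intro u hu v hv huv
    rw [qO u hu, qO v hv]
    have h1 := hin.ed u (inO u hu) v (inO v hv) (clq_of C huv)
    have h2 := mul_le_mul_of_nonneg_left h1 hm0
    obtain ⟨o, ho, huo⟩ := mem_un.1 hu
    have hvo : v ∈ o := by
      obtain ⟨o', ho', hvo⟩ := mem_un.1 hv
      exact h.bar.cl o ho u huo v (h.bar.oS o' ho' hvo) huv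
    have h3 := (hq o ho).ed u huo v hvo huv
    have h4 := mul_le_mul_of_nonneg_left h3 hm3
    linarith
  have mem3 : ∀ v ∈ K, v ∈ C ∨ v ∈ un O ∨ v ∈ E := by
    intro v hv
    rw [h.K_eq, Finset.mem_union, Finset.mem_union, or_assoc] at hv
    exact hv
  -- the cost
  have hcost : ∑ v ∈ K, phi (p v) ≤ K.card / 3 - 1 - (phi x - 2 / 3 * x) -
      (1 + x) * (C.card - 2) / 6 := by
    have s1 : ∑ v ∈ K, phi (p v) = ∑ v ∈ C, phi (p v) + ∑ v ∈ un O, phi (p v) +
        ∑ v ∈ E, phi (p v) := by
      conv_lhs => rw [h.K_eq]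
      rw [Finset.sum_union h.disCE, Finset.sum_union h.disC_un]
    have s2 : ∑ v ∈ E, phi (p v) = ∑ v ∈ insert c0 E, phi (pE v) - phi x := by
      rw [Finset.sum_insert hc0E, Finset.sum_congr rfl fun v hv => by rw [qE v hv]]
      ring
    have s3 : ∑ v ∈ C, phi (p v) ≤ m * ∑ v ∈ C, phi (pin v) + (1 - m) * C.card := by
      have : ∀ v ∈ C, phi (p v) ≤ m * phi (pin v) + (1 - m) := by
        intro v hv
        rw [qC v hv]
        have := phi_conv (a := pin v) (b := 1) hm0 hm1
        rw [mul_one, phi_nonneg (by norm_num : (0 : ℚ) ≤ 1), mul_one] at this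
        exact this
      refine (Finset.sum_le_sum this).trans ?_
      rw [Finset.sum_add_distrib, ← Finset.mul_sum, Finset.sum_const, nsmul_eq_mul]
      linarith
    have s4 : ∑ v ∈ un O, phi (p v) ≤ m * ∑ v ∈ un O, phi (pin v) +
        (1 - m) * ∑ v ∈ un O, phi (q v) := by
      have : ∀ v ∈ un O, phi (p v) ≤ m * phi (pin v) + (1 - m) * phi (q v) := by
        intro v hv
        rw [qO v hv]
        exact phi_conv hm0 hm1
      refine (Finset.sum_le_sum this).trans ?_
      rw [Finset.sum_add_distrib, ← Finset.mul_sum, ← Finset.mul_sum]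
    have s5 : ∑ v ∈ C, phi (pin v) + ∑ v ∈ un O, phi (pin v) ≤
        ((C.card : ℚ) + (un O).card) / 3 - 1 := by
      have := hin.co
      rw [Finset.sum_union h.disC_un, Finset.card_union_of_disjoint h.disC_un] at this
      push_cast at this
      exact this
    have s6 : ∑ v ∈ un O, phi (q v) ≤ ((un O).card : ℚ) / 3 - O.card := by
      rw [sum_un h.bar.disj, un_card h.bar.disj]
      refine (Finset.sum_le_sum fun o ho => (hq o ho).co).trans ?_
      rw [Finset.sum_sub_distrib, Finset.sum_const, nsmul_eq_mul, mul_one]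
      push_cast
      rw [Finset.sum_div]
    have s7 := hE.co
    rw [Finset.card_insert_of_notMem hc0E] at s7
    have s8 : (K.card : ℚ) = C.card + (un O).card + E.card := by
      have : K.card = C.card + (un O).card + E.card := by
        conv_lhs => rw [h.K_eq]
        rw [Finset.card_union_of_disjoint h.disCE, Finset.card_union_of_disjoint h.disC_un]
      exact_mod_cast this
    have s9 : (C.card : ℚ) = O.card + 1 := by exact_mod_cast h.card.symm
    have s10 := mul_le_mul_of_nonneg_left s5 hm0
    have s11 := mul_le_mul_of_nonneg_left s6 hm3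
    push_cast at s7
    have hOc : (O.card : ℚ) = C.card - 1 := by linarith
    rw [hOc] at s11
    have s12 : ∑ v ∈ K, phi (p v) ≤ m * (((C.card : ℚ) + (un O).card) / 3 - 1) +
        (1 - m) * C.card + (1 - m) * (((un O).card : ℚ) / 3 - (C.card - 1)) +
        (((E.card : ℚ) + 1) / 3 - 1 - phi x) := by
      rw [s1, s2]
      linarith
    refine s12.trans (le_of_eq ?_)
    rw [s8, hm]
    ring
  refine ⟨p, ⟨?_, ?_, ?_, ?_, ?_⟩, qE, qC, qO, hcost⟩
  · intro v hv
    rcases mem3 v hv with h1 | h1 | h1
    · exact hx1.trans (cCx v h1)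
    · rw [qO v h1]
      have := (lin v (inO v h1)).1
      have := (lq v h1).1
      linarith
    · rw [qE v h1]; exact hE.lo v (inE v h1)
  · intro v hv
    rcases mem3 v hv with h1 | h1 | h1
    · rw [qC v h1]
      have := (lin v (inC v h1)).2
      linarith
    · rw [qO v h1]
      have := (lin v (inO v h1)).2
      have := (lq v h1).2
      linarith
    · rw [qE v h1]; exact hE.hi v (inE v h1)
  · intro u hu v hv huv
    rcases mem3 u hu with h1 | h1 | h1 <;> rcases mem3 v hv with h2 | h2 | h2
    · exact le_trans (by linarith) (edCC u h1 v h2 huv.ne)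
    · exact edCO u h1 v h2 huv
    · exact edCE u h1 v h2 huv
    · rw [add_comm]; exact edCO v h2 u h1 huv.symm
    · exact edO u h1 v h2 huv
    · exact absurd huv.symm (h.no_edge h2 h1)
    · rw [add_comm]; exact edCE v h2 u h1 huv.symm
    · exact absurd huv (h.no_edge h1 h2)
    · exact edE u h1 v h2 huv
  · intro T hT hTri hbad
    by_cases hTE : ∃ e ∈ T, e ∈ E
    · obtain ⟨e, heT, heE⟩ := hTE
      have hnO : ∀ v ∈ T, v ∉ un O := by
        intro v hv hvO
        have hne : e ≠ v := fun e' => h.E_un heE (e' ▸ hvO)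
        exact h.no_edge heE hvO (hTri.2 e heT v hv hne)
      by_cases hTC : ∃ z ∈ T, z ∈ C
      · obtain ⟨z, hzT, hzC⟩ := hTC
        obtain ⟨a, b, hza, hzb, hab, rfl⟩ := tri_three hTri.1 hzT
        rw [sum_three hza hzb hab]
        have haT : a ∈ ({z, a, b} : Finset V) := by simp
        have hbT : b ∈ ({z, a, b} : Finset V) := by simp
        have ha := mem3 a (hT haT)
        have hb := mem3 b (hT hbT)
        have ha' := hnO a haT
        have hb' := hnO b hbT
        rcases ha with ha | ha | ha
        · have hbE : b ∈ E := by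
            rcases hb with hb | hb | hb
            · exfalso
              rw [Finset.mem_insert, Finset.mem_insert, Finset.mem_singleton] at heT
              rcases heT with rfl | rfl | rfl
              · exact h.E_C heE hzC
              · exact h.E_C heE ha
              · exact h.E_C heE hb
            · exact absurd hb hb'
            · exact hb
          have h1 := edCC z hzC a ha hza
          rw [qE b hbE]
          have hcb : c0 ≠ b := fun e => hc0E (e ▸ hbE)
          have h2 := hE.ed c0 (Finset.mem_insert_self _ _) b (inE b hbE)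
            ⟨hcb, Or.inr (Or.inl ⟨rfl, a, ha, hTri.2 a haT b hbT hab⟩)⟩
          linarith
        · exact absurd ha ha'
        · rcases hb with hb | hb | hb
          · have h1 := edCC z hzC b hb hzb
            rw [qE a ha]
            have hca : c0 ≠ a := fun e => hc0E (e ▸ ha)
            have h2 := hE.ed c0 (Finset.mem_insert_self _ _) a (inE a ha)
              ⟨hca, Or.inr (Or.inl ⟨rfl, b, hb, hTri.2 b hbT a haT hab.symm⟩)⟩
            linarith
          · exact absurd hb hb'
          · obtain ⟨h1, h2⟩ := h.bad_1 hF hc0 hzC ha hb hab hTri hbad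
            have h3 := hE.tr _ (by
              intro v hv
              rw [Finset.mem_insert, Finset.mem_insert, Finset.mem_singleton] at hv
              rcases hv with rfl | rfl | rfl
              · exact Finset.mem_insert_self _ _
              · exact inE _ ha
              · exact inE _ hb) h1 h2
            rw [sum_three (show c0 ≠ a from fun e => hc0E (e ▸ ha))
              (show c0 ≠ b from fun e => hc0E (e ▸ hb)) hab] at h3
            rw [qE a ha, qE b hb]
            have := cCx z hzC
            linarith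
      · have hTE : T ⊆ E := by
          intro v hv
          rcases mem3 v (hT hv) with h1 | h1 | h1
          · exact absurd ⟨v, hv, h1⟩ hTC
          · exact absurd h1 (hnO v hv)
          · exact h1
        rw [Finset.sum_congr rfl fun v hv => qE v (hTE hv)]
        refine hE.tr T (fun v hv => inE v (hTE hv)) (hTri.mono' fun u hu v hv huv => ?_)
          (h.bad_E hF hc0 hTE hbad)
        exact ⟨huv.ne, Or.inl ⟨fun e => hc0E (e ▸ hTE hu), fun e => hc0E (e ▸ hTE hv), huv⟩⟩
    · have hTin : T ⊆ C ∪ un O := by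
        intro v hv
        rcases mem3 v (hT hv) with h1 | h1 | h1
        · exact inC v h1
        · exact inO v h1
        · exact absurd ⟨v, hv, h1⟩ hTE
      have h1 := hin.tr T hTin (hTri.mono' fun u _ v _ => clq_of C) (h.bad_in hF hcut hTin hTri hbad)
      -- the other part
      set r : V → ℚ := fun v => if v ∈ C then 1 else q v with hr
      have hpr : ∀ v ∈ C ∪ un O, p v = m * pin v + (1 - m) * r v := by
        intro v hv
        by_cases h2 : v ∈ C
        · rw [qC v h2]; simp only [hr, if_pos h2, mul_one]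
        · rw [qO v ((Finset.mem_union.1 hv).resolve_left h2)]
          simp only [hr, if_neg h2]
      have h2 : 1 ≤ ∑ v ∈ T, r v := by
        by_cases hTC : ∃ z ∈ T, z ∈ C
        · obtain ⟨z, hzT, hzC⟩ := hTC
          obtain ⟨a, b, hza, hzb, hab, rfl⟩ := tri_three hTri.1 hzT
          rw [sum_three hza hzb hab]
          have haT : a ∈ ({z, a, b} : Finset V) := by simp
          have hbT : b ∈ ({z, a, b} : Finset V) := by simp
          have hzr : r z = 1 := by simp only [hr, if_pos hzC]
          rw [hzr]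
          have hgab := hTri.2 a haT b hbT hab
          have rlo : ∀ v ∈ C ∪ un O, -1 ≤ r v := by
            intro v hv
            by_cases h2 : v ∈ C
            · simp only [hr, if_pos h2]; norm_num
            · simp only [hr, if_neg h2]
              exact (hqO v ((Finset.mem_union.1 hv).resolve_left h2)).1
          by_cases haC : a ∈ C
          · have : r a = 1 := by simp only [hr, if_pos haC]
            have := rlo b (hTin hbT)
            linarith
          · by_cases hbC : b ∈ C
            · have : r b = 1 := by simp only [hr, if_pos hbC]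
              have := rlo a (hTin haT)
              linarith
            · have haO := (Finset.mem_union.1 (hTin haT)).resolve_left haC
              have hbO := (Finset.mem_union.1 (hTin hbT)).resolve_left hbC
              obtain ⟨o, ho, hao⟩ := mem_un.1 haO
              obtain ⟨o', ho', hbo'⟩ := mem_un.1 hbO
              have hbo := h.bar.cl o ho a hao b (h.bar.oS o' ho' hbo') hgab
              have h3 := (hq o ho).ed a hao b hbo hgab
              have e1 : r a = q a := by simp only [hr, if_neg haC]
              have e2 : r b = q b := by simp only [hr, if_neg hbC]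
              rw [e1, e2]
              linarith
        · have hTun : T ⊆ un O := fun v hv =>
            (Finset.mem_union.1 (hTin hv)).resolve_left fun h3 => hTC ⟨v, hv, h3⟩
          obtain ⟨t, ht⟩ : T.Nonempty := by rw [← Finset.card_pos, hTri.1]; norm_num
          obtain ⟨o, ho, hto⟩ := mem_un.1 (hTun ht)
          have hTo : T ⊆ o := by
            intro v hv
            by_cases hvt : v = t
            · rw [hvt]; exact hto
            · obtain ⟨o', ho', hvo'⟩ := mem_un.1 (hTun hv)
              exact h.bar.cl o ho t hto v (h.bar.oS o' ho' hvo') (hTri.2 t ht v hv (Ne.symm hvt))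
          have h3 := (hq o ho).tr T hTo hTri (h.bad_o hF hcut ho hTo hbad)
          rw [Finset.sum_congr rfl fun v hv => (show r v = q v by
            have : v ∉ C := h.o_C ho (hTo hv)
            simp only [hr, if_neg this])]
          exact h3
      rw [Finset.sum_congr rfl fun v hv => hpr v (hTin hv), Finset.sum_add_distrib,
        ← Finset.mul_sum, ← Finset.mul_sum]
      have h3 := mul_le_mul_of_nonneg_left h1 hm0
      have h4 := mul_le_mul_of_nonneg_left h2 hm3
      linarith
  · have h1 := phi_ge' x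
    have h2 : (2 : ℚ) ≤ C.card := by exact_mod_cast h.two
    have h3 : 0 ≤ (1 + x) * (C.card - 2) / 6 := by
      apply div_nonneg (mul_nonneg (by linarith) (by linarith)) (by norm_num)
    linarith

end Pool.Agent.Helper74.TZ
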