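import Pool.Agent.Helper74.TZ.Cov

set_option linter.unusedSectionVars false
set_option linter.unusedVariables false

namespace Pool.Agent.Helper74.TZ

variable {V : Type} [DecidableEq V] {ι : Type} {I : Finset ι} {B : ι → Finset V}

/-- the weight of a block at a set -/
def wt (B : ι → Finset V) (o : Finset V) (i : ι) : ℕ :=
  if (B i ∩ o).card = 0 then 0 else 3 - (B i ∩ o).card

/-- the leftover of a set -/
def lam (I : Finset ι) (B : ι → Finset V) (o : Finset V) : ℕ := ∑ i ∈ I, wt B o i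

theorem double {M : Finset V} {k : ℕ} (hs : Sys M I B k) {o : Finset V} (ho : o ⊆ M) (g : V → ℚ) :
    ∑ i ∈ I, ∑ v ∈ B i ∩ o, g v = k * ∑ v ∈ o, g v := by
  have h1 : ∀ i ∈ I, ∑ v ∈ B i ∩ o, g v = ∑ v ∈ o, if v ∈ B i then g v else 0 := by
    intro i _
    rw [← Finset.sum_filter]
    apply Finset.sum_congr _ fun _ _ => rfl
    ext x
    rw [Finset.mem_inter, Finset.mem_filter, and_comm]
  rw [Finset.sum_congr rfl h1, Finset.sum_comm, Finset.mul_sum]
  apply Finset.sum_congr rfl
  intro v hv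
  rw [← Finset.sum_filter, Finset.sum_const, nsmul_eq_mul, hs.deg v (ho hv)]

theorem double_card {M : Finset V} {k : ℕ} (hs : Sys M I B k) {o : Finset V} (ho : o ⊆ M) :
    ∑ i ∈ I, (B i ∩ o).card = k * o.card := by
  have := double hs ho fun _ => 1
  simp only [Finset.sum_const, nsmul_eq_mul, mul_one] at this
  exact_mod_cast this

theorem tri_block {i : ι} (hi : i ∈ I) (h3 : (B i).card = 3) : Tri (gr I B) (B i) :=
  ⟨h3, fun u hu v hv hne => ⟨hne, i, hi, hu, hv⟩⟩

/-- the pointwise bound -/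
theorem wt_bound {M : Finset V} {k : ℕ} (hs : Sys M I B k) {o : Finset V} {p : V → ℚ}
    (hlo : ∀ v ∈ o, -1 ≤ p v) (hed : ∀ u ∈ o, ∀ v ∈ o, (gr I B).Adj u v → 0 ≤ p u + p v)
    (htr : ∀ i ∈ I, (B i).card = 3 → B i ⊆ o → 1 ≤ ∑ v ∈ B i, p v) {i : ι} (hi : i ∈ I) :
    ∑ v ∈ B i ∩ o, (1 - 3 * p v) ≤ 2 * (wt B o i : ℚ) := by
  have hsz := hs.sz i hi
  have hle : (B i ∩ o).card ≤ (B i).card := Finset.card_le_card Finset.inter_subset_left
  have h4 : (B i ∩ o).card = 0 ∨ (B i ∩ o).card = 1 ∨ (B i ∩ o).card = 2 ∨ (B i ∩ o).card = 3 := by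
    omega
  rcases h4 with h | h | h | h
  · rw [Finset.card_eq_zero] at h
    rw [h, Finset.sum_empty, wt, h]
    simp
  · have hw : wt B o i = 2 := by rw [wt, h]; norm_num
    obtain ⟨v, hv⟩ := Finset.card_eq_one.1 h
    have hvo : v ∈ B i ∩ o := by rw [hv]; simp
    rw [hv, Finset.sum_singleton, hw]
    have := hlo v (Finset.mem_inter.1 hvo).2
    push_cast
    linarith
  · have hw : wt B o i = 1 := by rw [wt, h]; norm_num
    obtain ⟨u, v, huv, he⟩ := Finset.card_eq_two.1 h
    have huo : u ∈ B i ∩ o := by rw [he]; simp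
    have hvo : v ∈ B i ∩ o := by rw [he]; simp
    rw [Finset.mem_inter] at huo hvo
    rw [he, Finset.sum_pair huv, hw]
    have := hed u huo.2 v hvo.2 ⟨huv, i, hi, huo.1, hvo.1⟩
    push_cast
    linarith
  · have hw : wt B o i = 0 := by rw [wt, h]; norm_num
    have h3 : (B i).card = 3 := by omega
    have he : B i ∩ o = B i := Finset.eq_of_subset_of_card_le Finset.inter_subset_left (by omega)
    have hsub : B i ⊆ o := by rw [← he]; exact Finset.inter_subset_right
    have h5 := htr i hi h3 hsub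
    rw [he, hw, Finset.sum_sub_distrib, ← Finset.mul_sum, Finset.sum_const, h3]
    norm_num
    linarith

theorem lam_bound {M : Finset V} {k : ℕ} (hs : Sys M I B k) {o : Finset V} (ho : o ⊆ M)
    {p : V → ℚ}
    (hlo : ∀ v ∈ o, -1 ≤ p v) (hed : ∀ u ∈ o, ∀ v ∈ o, (gr I B).Adj u v → 0 ≤ p u + p v)
    (htr : ∀ i ∈ I, (B i).card = 3 → B i ⊆ o → 1 ≤ ∑ v ∈ B i, p v) :
    (k : ℚ) * o.card - 3 * k * ∑ v ∈ o, p v ≤ 2 * (lam I B o : ℚ) := by
  have h1 := double hs ho fun v => 1 - 3 * p v
  have h2 := Finset.sum_le_sum fun i hi => wt_bound hs hlo hed htr (i := i) hi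
  rw [h1, ← Finset.mul_sum] at h2
  rw [lam]
  push_cast
  refine le_trans (le_of_eq ?_) h2
  rw [Finset.sum_sub_distrib, ← Finset.mul_sum, Finset.sum_const, nsmul_eq_mul]
  ring

theorem lam_pot {M : Finset V} {k : ℕ} (hs : Sys M I B k) {o : Finset V} (ho : o ⊆ M)
    (hbad : ¬ Good I B o) {p : V → ℚ} (hp : Pot (gr I B) o p) :
    (k : ℚ) * o.card - 3 * k * ∑ v ∈ o, p v ≤ 2 * (lam I B o : ℚ) := by
  refine lam_bound hs ho hp.lo hp.ed ?_
  intro i hi h3 hsub
  exact hp.tr (B i) hsub (tri_block hi h3) fun h4 => hbad ⟨i, hi, h3, hsub, h4⟩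

/-- lower bounds for the leftover of bad factor-critical sets -/
theorem lam_ge {M : Finset V} {k : ℕ} (hs : Sys M I B k) {o : Finset V} (ho : o ⊆ M)
    (hbad : ¬ Good I B o) (hF : FC (gr I B) o) : (o.card = 1 → 2 * k ≤ lam I B o) ∧
      (3 * k ≤ 2 * lam I B o) ∧ (5 ≤ o.card → 13 * k ≤ 8 * lam I B o) ∧
      (3 ≤ o.card → Odd k → 5 ≤ k → 3 * k + 3 ≤ 2 * lam I B o) := by
  have hC := concl _ (gr I B) o rfl hF
  have hk0 : (0 : ℚ) ≤ k := by positivity
  have e1 : 3 * k ≤ 2 * lam I B o := by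
    obtain ⟨p, hp⟩ := hC.c1
    have h1 := lam_pot hs ho hbad hp
    have h2 := mul_le_mul_of_nonneg_left hp.sum_le (by positivity : (0 : ℚ) ≤ 3 * k)
    have h3 : (3 : ℚ) * k ≤ 2 * (lam I B o : ℚ) := by linarith
    exact_mod_cast h3
  have e2 : 5 ≤ o.card → 13 * k ≤ 8 * lam I B o := by
    intro h5
    obtain ⟨p, hp, hs'⟩ := hC.c3 h5
    have h1 := lam_pot hs ho hbad hp
    have h2 := mul_le_mul_of_nonneg_left hs' (by positivity : (0 : ℚ) ≤ 3 * k)
    have h3 : (13 : ℚ) * k ≤ 8 * (lam I B o : ℚ) := by linarith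
    exact_mod_cast h3
  refine ⟨?_, e1, e2, ?_⟩
  · intro h1
    obtain ⟨v, hv⟩ := Finset.card_eq_one.1 h1
    have h2 := lam_bound hs ho (p := fun _ => -1) (fun _ _ => le_refl _)
      (by
        intro a ha b hb hab
        rw [hv, Finset.mem_singleton] at ha hb
        exact absurd hab (by rw [ha, hb]; exact SimpleGraph.irrefl _))
      (by
        intro i hi h3 hsub
        have := Finset.card_le_card hsub
        omega)
    rw [Finset.sum_const, h1] at h2
    norm_num at h2
    have h3 : (2 : ℚ) * k ≤ (lam I B o : ℚ) := by linarith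
    exact_mod_cast h3
  · intro h3 hodd hk5
    by_cases h5 : 5 ≤ o.card
    · have := e2 h5
      obtain ⟨r, hr⟩ := hodd
      omega
    · have ho3 : o.card = 3 := by
        obtain ⟨r, hr⟩ := hF.odd
        omega
      -- no block contains `o`
      have hno : ∀ i ∈ I, (B i ∩ o).card ≤ 2 := by
        intro i hi
        by_contra hcon
        have hsz := hs.sz i hi
        have hle : (B i ∩ o).card ≤ (B i).card := Finset.card_le_card Finset.inter_subset_left
        have h6 : B i ∩ o = B i := Finset.eq_of_subset_of_card_le Finset.inter_subset_left (by omega)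
        have h7 : B i ⊆ o := by rw [← h6]; exact Finset.inter_subset_right
        have h8 : B i = o := Finset.eq_of_subset_of_card_le h7 (by omega)
        exact hbad ⟨i, hi, by omega, h7, by rw [h8, Finset.sdiff_self]; exact PM_empty⟩
      have h6 : 2 * lam I B o = k * o.card + 3 * (I.filter fun i => (B i ∩ o).card = 1).card := by
        rw [← double_card hs ho, lam, Finset.mul_sum, Finset.card_filter, Finset.mul_sum,
          ← Finset.sum_add_distrib]
        apply Finset.sum_congr rfl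
        intro i hi
        have h7 := hno i hi
        rw [wt]
        split_ifs with h8 h9 h9 <;> omega
      rw [ho3] at h6
      obtain ⟨r, hr⟩ := hodd
      omega

/-- the total leftover -/
theorem lam_sum {M Y : Finset V} {k : ℕ} (hs : Sys M I B k) {O S : Finset (Finset V)}
    (hb : Bar (gr I B) M Y O) (hS : S ⊆ O) :
    ∑ o ∈ S, lam I B o + k * M.card ≤ 3 * I.card + k * (nb (gr I B) Y S).card := by
  have hnbM : nb (gr I B) Y S ⊆ M := (nb_sub _ _).trans hb.sub
  have key : ∀ i ∈ I, ∑ o ∈ S, wt B o i + (B i ∩ M).card ≤ 3 + (B i ∩ nb (gr I B) Y S).card := by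
    intro i hi
    have hsz := hs.sz i hi
    have hBM : B i ∩ M = B i := Finset.inter_eq_left.2 (hs.sub i hi)
    rw [hBM]
    by_cases hex : ∃ o ∈ S, (B i ∩ o).card ≠ 0
    · obtain ⟨o, ho, hne⟩ := hex
      obtain ⟨v, hv⟩ := Finset.card_pos.1 (Nat.pos_of_ne_zero hne)
      rw [Finset.mem_inter] at hv
      have hcl : ∀ u ∈ B i, u ∉ Y → u ∈ o := by
        intro u hu huY
        by_cases e : v = u
        · rw [← e]; exact hv.2
        · exact hb.cl o (hS ho) v hv.2 u (Finset.mem_sdiff.2 ⟨hs.sub i hi hu, huY⟩)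
            ⟨e, i, hi, hv.1, hu⟩
      have h1 : ∀ o' ∈ S, o' ≠ o → wt B o' i = 0 := by
        intro o' ho' hne'
        rw [wt, if_pos]
        rw [Finset.card_eq_zero, Finset.eq_empty_iff_forall_notMem]
        intro u hu
        rw [Finset.mem_inter] at hu
        have huY : u ∉ Y := (Finset.mem_sdiff.1 (hb.oS o' (hS ho') hu.2)).2
        exact Finset.disjoint_left.1 (hb.disj o' (hS ho') o (hS ho) hne') hu.2 (hcl u hu.1 huY)
      have h2 : ∑ o' ∈ S, wt B o' i = wt B o i := Finset.sum_eq_single o h1 fun h => absurd ho h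
      have h3 : B i \ o ⊆ B i ∩ nb (gr I B) Y S := by
        intro u hu
        rw [Finset.mem_sdiff] at hu
        have huY : u ∈ Y := by
          by_contra h4
          exact hu.2 (hcl u hu.1 h4)
        rw [Finset.mem_inter, mem_nb]
        refine ⟨hu.1, huY, o, ho, v, hv.2, fun e => hu.2 (e ▸ hv.2), i, hi, hu.1, hv.1⟩
      have h4 := Finset.card_le_card h3
      have h5 := Finset.card_sdiff_add_card_inter (B i) o
      rw [h2, wt, if_neg hne]
      omega
    · push Not at hex
      have h1 : ∑ o' ∈ S, wt B o' i = 0 := by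
        apply Finset.sum_eq_zero
        intro o' ho'
        rw [wt, if_pos (hex o' ho')]
      rw [h1]
      omega
  have h1 := Finset.sum_le_sum key
  rw [Finset.sum_add_distrib, Finset.sum_add_distrib, double_card hs (Finset.Subset.refl M),
    double_card hs hnbM, Finset.sum_comm, Finset.sum_const, smul_eq_mul] at h1
  simp only [lam]
  omega

/-- the master inequalities -/
theorem master {M : Finset V} {k : ℕ} (hs : Sys M I B k) (hk : 1 ≤ k) :
    ∃ (T : Finset ι) (s1 s3 y d : ℕ), T ⊆ I ∧ (∀ v ∈ M, ∃ i ∈ T, v ∈ B i) ∧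
      2 * T.card + d + 2 * y ≤ M.card + 2 * (s1 + s3) ∧ s1 + s3 ≤ y + d ∧ y ≤ s1 + s3 ∧
      s1 + 3 * s3 + y ≤ M.card ∧
      k * M.card + 2 * k * s1 + (3 * k * s3 + 1) / 2 ≤ 3 * I.card + k * y ∧
      (Odd k → 5 ≤ k → 2 * k * M.card + 4 * k * s1 + (3 * k + 3) * s3 ≤ 6 * I.card + 2 * k * y) := by
  classical
  obtain ⟨Y, O, hopt⟩ := opt_exists (gr I B) M
  obtain ⟨S, hS, hbad, ⟨T, hTI, hTc, hTn⟩, hle, hnb⟩ := cover hs hk hopt
  have hyo : Y.card ≤ O.card := by
    have h1 := hopt.hall Y (Finset.Subset.refl _)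
    have h2 : nbO (gr I B) O Y ⊆ O := fun o ho => (mem_nbO.1 ho).1
    have h3 := Finset.card_le_card h2
    omega
  have hsur := hopt.surplus hS
  have hoM : ∀ o ∈ O, o ⊆ M := fun o ho x hx => (Finset.mem_sdiff.1 (hopt.bar.oS o ho hx)).1
  set S1 := S.filter fun o => o.card = 1 with hS1
  set S3 := S.filter fun o => ¬ o.card = 1 with hS3
  have hSc : S1.card + S3.card = S.card := Finset.card_filter_add_card_filter_not _
  have hsplit : ∀ f : Finset V → ℕ, ∑ o ∈ S, f o = ∑ o ∈ S1, f o + ∑ o ∈ S3, f o := fun f =>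
    (Finset.sum_filter_add_sum_filter_not S _ f).symm
  have h3 : ∀ o ∈ S3, 3 ≤ o.card := by
    intro o ho
    have h4 := Finset.mem_filter.1 ho
    obtain ⟨r, hr⟩ := hopt.bar.odd o (hS h4.1)
    omega
  have hlam := lam_sum hs hopt.bar hS
  have hl1 : 2 * k * S1.card ≤ ∑ o ∈ S1, lam I B o := by
    have h5 : ∀ o ∈ S1, 2 * k ≤ lam I B o := by
      intro o ho
      have h4 := Finset.mem_filter.1 ho
      exact (lam_ge hs (hoM o (hS h4.1)) (hbad o h4.1) (hopt.fc o (hS h4.1))).1 h4.2
    have := Finset.sum_le_sum h5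
    rw [Finset.sum_const, smul_eq_mul] at this
    rw [mul_comm]; exact this
  have hl3 : 3 * k * S3.card ≤ 2 * ∑ o ∈ S3, lam I B o := by
    have h5 : ∀ o ∈ S3, 3 * k ≤ 2 * lam I B o := by
      intro o ho
      have h4 := Finset.mem_filter.1 ho
      exact (lam_ge hs (hoM o (hS h4.1)) (hbad o h4.1) (hopt.fc o (hS h4.1))).2.1
    have := Finset.sum_le_sum h5
    rw [Finset.sum_const, smul_eq_mul, ← Finset.mul_sum] at this
    rw [mul_comm]; exact this
  refine ⟨T, S1.card, S3.card, (nb (gr I B) Y S).card, O.card - Y.card, hTI, hTc, by omega,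
    by omega, by omega, ?_, ?_, ?_⟩
  · have hunM : un S ∪ nb (gr I B) Y S ⊆ M := by
      apply Finset.union_subset
      · intro x hx
        obtain ⟨o, ho, hxo⟩ := mem_un.1 hx
        exact hoM o (hS ho) hxo
      · exact (nb_sub _ _).trans hopt.bar.sub
    have h4 := Finset.card_le_card hunM
    rw [Finset.card_union_of_disjoint] at h4
    · rw [un_card fun o ho o' ho' => hopt.bar.disj o (hS ho) o' (hS ho'), hsplit] at h4
      have h5 : S1.card ≤ ∑ o ∈ S1, o.card := by
        have : ∀ o ∈ S1, 1 ≤ o.card := fun o ho => (hopt.bar.odd o (hS (Finset.mem_filter.1 ho).1)).pos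
        have := Finset.sum_le_sum this
        simpa using this
      have h6 : 3 * S3.card ≤ ∑ o ∈ S3, o.card := by
        have := Finset.sum_le_sum h3
        rw [Finset.sum_const, smul_eq_mul] at this
        omega
      omega
    · rw [Finset.disjoint_left]
      intro x hx hx'
      obtain ⟨o, ho, hxo⟩ := mem_un.1 hx
      exact (Finset.mem_sdiff.1 (hopt.bar.oS o (hS ho) hxo)).2 (nb_sub _ _ hx')
  · rw [hsplit] at hlam
    omega
  · intro hodd hk5
    have hl3' : (3 * k + 3) * S3.card ≤ 2 * ∑ o ∈ S3, lam I B o := by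
      have h5 : ∀ o ∈ S3, 3 * k + 3 ≤ 2 * lam I B o := by
        intro o ho
        have h4 := Finset.mem_filter.1 ho
        exact (lam_ge hs (hoM o (hS h4.1)) (hbad o h4.1) (hopt.fc o (hS h4.1))).2.2.2 (h3 o ho) hodd hk5
      have := Finset.sum_le_sum h5
      rw [Finset.sum_const, smul_eq_mul, ← Finset.mul_sum] at this
      rw [mul_comm]; exact this
    rw [hsplit] at hlam
    have e1 : 2 * k * M.card = 2 * (k * M.card) := by ring
    have e2 : 4 * k * S1.card = 2 * (2 * k * S1.card) := by ring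
    have e3 : 2 * k * (nb (gr I B) Y S).card = 2 * (k * (nb (gr I B) Y S).card) := by ring
    rw [e1, e2, e3]
    omega

end Pool.Agent.Helper74.TZ
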