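import Pool.Agent.Helper74.TZ.GE

set_option linter.unusedSectionVars false
set_option linter.unusedVariables false

namespace Pool.Agent.Helper74.TZ

variable {V : Type} [DecidableEq V] {ι : Type}

/-- a system of blocks of size at most three, each point in exactly `k` of them -/
structure Sys (M : Finset V) (I : Finset ι) (B : ι → Finset V) (k : ℕ) : Prop where
  sub : ∀ i ∈ I, B i ⊆ M
  sz : ∀ i ∈ I, (B i).card ≤ 3
  deg : ∀ v ∈ M, (I.filter fun i => v ∈ B i).card = k

/-- two points are adjacent if they lie in a common block -/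
def gr (I : Finset ι) (B : ι → Finset V) : SimpleGraph V where
  Adj u v := u ≠ v ∧ ∃ i ∈ I, u ∈ B i ∧ v ∈ B i
  symm := by
    constructor
    rintro u v ⟨h, i, hi, h1, h2⟩
    exact ⟨h.symm, i, hi, h2, h1⟩
  loopless := by
    constructor
    intro u h
    exact h.1 rfl

/-- covers of cost at most `t / 2` -/
def Cv (I : Finset ι) (B : ι → Finset V) (A : Finset V) (t : ℕ) : Prop :=
  ∃ T ⊆ I, (∀ v ∈ A, ∃ i ∈ T, v ∈ B i) ∧ 2 * T.card ≤ t

variable {I : Finset ι} {B : ι → Finset V}

theorem Cv.mono {A A' : Finset V} {s t : ℕ} (h : Cv I B A s) (hA : A' ⊆ A) (hst : s ≤ t) :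
    Cv I B A' t := by
  obtain ⟨T, h1, h2, h3⟩ := h
  exact ⟨T, h1, fun v hv => h2 v (hA hv), h3.trans hst⟩

theorem Cv_empty : Cv I B ∅ 0 := ⟨∅, by simp, by simp, by simp⟩

theorem Cv.union {A A' : Finset V} {s t : ℕ} (h : Cv I B A s) (h' : Cv I B A' t) :
    Cv I B (A ∪ A') (s + t) := by
  classical
  obtain ⟨T, h1, h2, h3⟩ := h
  obtain ⟨T', h1', h2', h3'⟩ := h'
  refine ⟨T ∪ T', Finset.union_subset h1 h1', ?_, ?_⟩
  · intro v hv
    rcases Finset.mem_union.1 hv with h4 | h4
    · obtain ⟨i, hi, h5⟩ := h2 v h4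
      exact ⟨i, Finset.mem_union_left _ hi, h5⟩
    · obtain ⟨i, hi, h5⟩ := h2' v h4
      exact ⟨i, Finset.mem_union_right _ hi, h5⟩
  · have := Finset.card_union_le T T'
    omega

theorem Cv_block {i : ι} (hi : i ∈ I) : Cv I B (B i) 2 :=
  ⟨{i}, by simpa using hi, fun v hv => ⟨i, by simp, hv⟩, by simp⟩

theorem Cv_bUnion {α : Type} [DecidableEq α] (s : Finset α) (A : α → Finset V) (t : α → ℕ)
    (h : ∀ a ∈ s, Cv I B (A a) (t a)) : Cv I B (s.biUnion A) (∑ a ∈ s, t a) := by
  induction s using Finset.induction_on with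
  | empty => simpa using Cv_empty
  | insert a s ha ih =>
    rw [Finset.biUnion_insert, Finset.sum_insert ha]
    exact (h a (Finset.mem_insert_self _ _)).union
      (ih fun b hb => h b (Finset.mem_insert_of_mem hb))

theorem Cv_PM : ∀ (n : ℕ) (A : Finset V), A.card = n → PM (gr I B) A → Cv I B A n := by
  intro n
  induction n using Nat.strong_induction_on with
  | _ n ih =>
    intro A hn h
    rcases A.eq_empty_or_nonempty with h0 | ⟨v, hv⟩
    · subst h0
      exact Cv_empty.mono (Finset.Subset.refl _) (Nat.zero_le _)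
    · obtain ⟨w, hw, hvw, hrest⟩ := h.partner hv
      have hwv : w ∈ A.erase v := Finset.mem_erase.2 ⟨hvw.ne.symm, hw⟩
      have hc1 := Finset.card_erase_add_one hv
      have hc2 := Finset.card_erase_add_one hwv
      have h1 := ih _ (by omega) ((A.erase v).erase w) rfl hrest
      obtain ⟨-, i, hi, h2, h3⟩ := hvw
      refine ((Cv_block (B := B) hi).union h1).mono ?_ (by omega)
      intro x hx
      by_cases e1 : x = v
      · rw [e1]; exact Finset.mem_union_left _ h2
      · by_cases e2 : x = w
        · rw [e2]; exact Finset.mem_union_left _ h3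
        · exact Finset.mem_union_right _ (Finset.mem_erase.2 ⟨e2, Finset.mem_erase.2 ⟨e1, hx⟩⟩)

theorem Cv_FC {M : Finset V} {k : ℕ} (hs : Sys M I B k) (hk : 1 ≤ k) {o : Finset V} (ho : o ⊆ M)
    (h : FC (gr I B) o) : Cv I B o (o.card + 1) := by
  obtain ⟨v, hv⟩ := h.1
  have h1 := Cv_PM _ _ rfl (h.2 v hv)
  have h2 : (I.filter fun i => v ∈ B i).Nonempty := by
    rw [← Finset.card_pos, hs.deg v (ho hv)]
    exact hk
  obtain ⟨i, hi⟩ := h2
  rw [Finset.mem_filter] at hi
  have hc := Finset.card_erase_add_one hv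
  refine ((Cv_block (B := B) hi.1).union h1).mono ?_ (by omega)
  intro x hx
  by_cases e1 : x = v
  · rw [e1]; exact Finset.mem_union_left _ hi.2
  · exact Finset.mem_union_right _ (Finset.mem_erase.2 ⟨e1, hx⟩)

/-- a good set -/
def Good (I : Finset ι) (B : ι → Finset V) (o : Finset V) : Prop :=
  ∃ i ∈ I, (B i).card = 3 ∧ B i ⊆ o ∧ PM (gr I B) (o \ B i)

theorem Cv_Good {o : Finset V} (h : Good I B o) : Cv I B o (o.card - 1) := by
  obtain ⟨i, hi, h3, hsub, hpm⟩ := h
  have h1 := Cv_PM _ _ rfl hpm
  have h2 := Finset.card_sdiff_of_subset hsub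
  have h4 := Finset.card_le_card hsub
  refine ((Cv_block (B := B) hi).union h1).mono ?_ (by omega)
  intro x hx
  by_cases e1 : x ∈ B i
  · exact Finset.mem_union_left _ e1
  · exact Finset.mem_union_right _ (Finset.mem_sdiff.2 ⟨hx, e1⟩)

/-- a cover from an optimal barrier -/
theorem cover {M Y : Finset V} {O : Finset (Finset V)} {k : ℕ} (hs : Sys M I B k) (hk : 1 ≤ k)
    (h : Opt (gr I B) M Y O) : ∃ S ⊆ O, (∀ o ∈ S, ¬ Good I B o) ∧
      Cv I B M (M.card + 2 * S.card + Y.card - (O.card + 2 * (nb (gr I B) Y S).card)) ∧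
      O.card + 2 * (nb (gr I B) Y S).card ≤ M.card + 2 * S.card + Y.card ∧
      (nb (gr I B) Y S).card ≤ S.card := by
  classical
  set G := gr I B with hG
  set Bd := O.filter fun o => ¬ Good I B o with hBd
  have hBdO : Bd ⊆ O := Finset.filter_subset _ _
  obtain ⟨S0, hS0, hmax⟩ := Finset.exists_max_image Bd.powerset
    (fun S => S.card - (nb G Y S).card) ⟨∅, by simp⟩
  rw [Finset.mem_powerset] at hS0
  -- the set with the largest surplus
  obtain ⟨S, hS, hSn, hSmax⟩ : ∃ S ⊆ Bd, (nb G Y S).card ≤ S.card ∧ ∀ S' ⊆ Bd,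
      S'.card + (nb G Y S).card ≤ S.card + (nb G Y S').card := by
    by_cases h1 : (nb G Y S0).card ≤ S0.card
    · refine ⟨S0, hS0, h1, fun S' hS' => ?_⟩
      have := hmax S' (Finset.mem_powerset.2 hS')
      omega
    · refine ⟨∅, by simp, ?_, fun S' hS' => ?_⟩
      · have : nb G Y ∅ = ∅ := by
          apply Finset.eq_empty_of_forall_notMem
          intro z hz
          obtain ⟨_, o, ho, _⟩ := mem_nb.1 hz
          simp at ho
        rw [this]; simp
      · have := hmax S' (Finset.mem_powerset.2 hS')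
        have h2 : nb G Y ∅ = ∅ := by
          apply Finset.eq_empty_of_forall_notMem
          intro z hz
          obtain ⟨_, o, ho, _⟩ := mem_nb.1 hz
          simp at ho
        rw [h2]
        simp only [Finset.card_empty]
        omega
  set d' := S.card - (nb G Y S).card with hd'
  have hYO : Y.card ≤ O.card := by
    have h1 := h.hall Y (Finset.Subset.refl _)
    have h2 : nbO G O Y ⊆ O := fun o ho => (mem_nbO.1 ho).1
    have h3 := Finset.card_le_card h2
    omega
  set d := O.card - Y.card with hd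
  have hsur := h.surplus (hS.trans hBdO)
  have hdd : d' ≤ d := by omega
  -- Hall's theorem
  let t : {o // o ∈ O} → Finset (V ⊕ Fin d) := fun o =>
    (nb G Y {o.1}).map ⟨Sum.inl, Sum.inl_injective⟩ ∪
      (Finset.univ.filter fun j : Fin d => j.val < d' ∨ Good I B o.1).map
        ⟨Sum.inr, Sum.inr_injective⟩
  have htl : ∀ o z, Sum.inl z ∈ t o ↔ z ∈ nb G Y {o.1} := by
    intro o z
    simp [t]
  have htr : ∀ o j, Sum.inr j ∈ t o ↔ (j.val < d' ∨ Good I B o.1) := by
    intro o j
    simp [t]
  obtain ⟨g, hgi, hg⟩ := (Finset.all_card_le_biUnion_card_iff_exists_injective t).1 (by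
    intro s
    rcases s.eq_empty_or_nonempty with h0 | hne
    · subst h0; simp
    set S' := s.image Subtype.val with hS'
    have hS'O : S' ⊆ O := by
      intro o ho
      obtain ⟨x, _, rfl⟩ := Finset.mem_image.1 ho
      exact x.2
    have hc : S'.card = s.card := Finset.card_image_of_injective _ Subtype.val_injective
    have hsub1 : (nb G Y S').map ⟨Sum.inl, Sum.inl_injective⟩ ⊆
        (s.biUnion t : Finset (V ⊕ Fin d)) := by
      intro x hx
      obtain ⟨z, hz, rfl⟩ := Finset.mem_map.1 hx
      obtain ⟨hzY, o, ho, v, hv, hzv⟩ := mem_nb.1 hz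
      obtain ⟨x, hxs, rfl⟩ := Finset.mem_image.1 ho
      refine Finset.mem_biUnion.2 ⟨x, hxs, (htl x z).2 ?_⟩
      exact mem_nb.2 ⟨hzY, x.1, Finset.mem_singleton_self _, v, hv, hzv⟩
    by_cases hgood : ∃ o ∈ s, Good I B o.1
    · obtain ⟨o, hos, hog⟩ := hgood
      have hsub2 : (Finset.univ : Finset (Fin d)).map ⟨Sum.inr, Sum.inr_injective⟩ ⊆
          (s.biUnion t : Finset (V ⊕ Fin d)) := by
        intro x hx
        obtain ⟨j, _, rfl⟩ := Finset.mem_map.1 hx
        exact Finset.mem_biUnion.2 ⟨o, hos, (htr o j).2 (Or.inr hog)⟩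
      have h1 := Finset.card_le_card (Finset.union_subset hsub1 hsub2)
      rw [Finset.card_union_of_disjoint, Finset.card_map, Finset.card_map, Finset.card_univ,
        Fintype.card_fin] at h1
      · have h2 := h.surplus hS'O
        omega
      · rw [Finset.disjoint_left]
        intro x hx hx'
        obtain ⟨z, _, rfl⟩ := Finset.mem_map.1 hx
        obtain ⟨j, _, e⟩ := Finset.mem_map.1 hx'
        simp at e
    · push Not at hgood
      obtain ⟨o, hos⟩ := hne
      have hS'B : S' ⊆ Bd := by
        intro x hx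
        obtain ⟨y, hy, rfl⟩ := Finset.mem_image.1 hx
        exact Finset.mem_filter.2 ⟨y.2, hgood y hy⟩
      have hsub2 : (Finset.univ.filter fun j : Fin d => j.val < d').map
          ⟨Sum.inr, Sum.inr_injective⟩ ⊆ (s.biUnion t : Finset (V ⊕ Fin d)) := by
        intro x hx
        obtain ⟨j, hj, rfl⟩ := Finset.mem_map.1 hx
        exact Finset.mem_biUnion.2 ⟨o, hos, (htr o j).2 (Or.inl (Finset.mem_filter.1 hj).2)⟩
      have hcd : (Finset.univ.filter fun j : Fin d => j.val < d').card = d' := by
        rw [Fin.card_filter_val_lt]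
        omega
      have h1 := Finset.card_le_card (Finset.union_subset hsub1 hsub2)
      rw [Finset.card_union_of_disjoint, Finset.card_map, Finset.card_map, hcd] at h1
      · have h2 := hSmax S' hS'B
        omega
      · rw [Finset.disjoint_left]
        intro x hx hx'
        obtain ⟨z, _, rfl⟩ := Finset.mem_map.1 hx
        obtain ⟨j, _, e⟩ := Finset.mem_map.1 hx'
        simp at e)
  -- the target
  let W : Finset (V ⊕ Fin d) := Y.map ⟨Sum.inl, Sum.inl_injective⟩ ∪
    Finset.univ.map ⟨Sum.inr, Sum.inr_injective⟩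
  have hWc : W.card = O.card := by
    have : W.card = Y.card + d := by
      rw [Finset.card_union_of_disjoint, Finset.card_map, Finset.card_map, Finset.card_univ,
        Fintype.card_fin]
      rw [Finset.disjoint_left]
      intro x hx hx'
      obtain ⟨z, _, rfl⟩ := Finset.mem_map.1 hx
      obtain ⟨j, _, e⟩ := Finset.mem_map.1 hx'
      simp at e
    omega
  have hgW : ∀ o, g o ∈ W := by
    intro o
    have h1 := hg o
    rcases hgo : g o with z | j
    · rw [hgo, htl] at h1
      exact Finset.mem_union_left _ (Finset.mem_map.2 ⟨z, nb_sub _ _ h1, rfl⟩)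
    · exact Finset.mem_union_right _ (Finset.mem_map.2 ⟨j, Finset.mem_univ _, rfl⟩)
  have hsurj : ∀ w ∈ W, ∃ o, g o = w := by
    have h1 : (Finset.univ.image g) = W := by
      apply Finset.eq_of_subset_of_card_le
      · intro z hz
        obtain ⟨o, _, rfl⟩ := Finset.mem_image.1 hz
        exact hgW o
      · rw [Finset.card_image_of_injective _ hgi, Finset.card_univ, Fintype.card_coe, hWc]
    intro z hz
    rw [← h1] at hz
    obtain ⟨o, _, h2⟩ := Finset.mem_image.1 hz
    exact ⟨o, h2⟩
  have hoM : ∀ o ∈ O, o ⊆ M := fun o ho x hx => (Finset.mem_sdiff.1 (h.bar.oS o ho hx)).1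
  have hoY : ∀ o ∈ O, ∀ x ∈ o, x ∉ Y := fun o ho x hx => (Finset.mem_sdiff.1 (h.bar.oS o ho hx)).2
  -- the pieces
  let A : {o // o ∈ O} → Finset V := fun o => o.1 ∪ (Y.filter fun z => g o = Sum.inl z)
  let c : {o // o ∈ O} → ℕ := fun o =>
    if ∃ j : Fin d, g o = Sum.inr j ∧ d' ≤ j.val then o.1.card - 1 else o.1.card + 1
  have hcov : ∀ o, Cv I B (A o) (c o) := by
    intro o
    have hgo := hg o
    rcases hgo' : g o with z | j
    · have h1 : c o = o.1.card + 1 := by
        simp only [c]
        rw [if_neg]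
        rintro ⟨j, hj, _⟩
        rw [hgo'] at hj
        cases hj
      have h2 : A o ⊆ insert z o.1 := by
        intro x hx
        rcases Finset.mem_union.1 hx with h3 | h3
        · exact Finset.mem_insert_of_mem h3
        · have h4 := (Finset.mem_filter.1 h3).2
          rw [hgo'] at h4
          rw [Sum.inl.inj h4]
          exact Finset.mem_insert_self _ _
      rw [hgo', htl] at hgo
      obtain ⟨hzY, o', ho', v, hv, hzv⟩ := mem_nb.1 hgo
      rw [Finset.mem_singleton] at ho'
      subst ho'
      have hzo : z ∉ o.1 := fun h3 => hoY o.1 o.2 z h3 hzY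
      have h3 := (h.fc o.1 o.2).add_vertex hzo hv hzv
      have h4 := Cv_PM _ _ rfl h3
      rw [Finset.card_insert_of_notMem hzo] at h4
      exact h4.mono h2 (by omega)
    · have h2 : A o ⊆ o.1 := by
        intro x hx
        rcases Finset.mem_union.1 hx with h3 | h3
        · exact h3
        · have h4 := (Finset.mem_filter.1 h3).2
          rw [hgo'] at h4
          cases h4
      by_cases hj : d' ≤ j.val
      · have h1 : c o = o.1.card - 1 := by
          simp only [c]
          rw [if_pos ⟨j, hgo', hj⟩]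
        rw [hgo', htr] at hgo
        have h3 := Cv_Good (hgo.resolve_left (by omega))
        rw [h1]
        exact h3.mono h2 (le_refl _)
      · have h1 : c o = o.1.card + 1 := by
          simp only [c]
          rw [if_neg]
          rintro ⟨j', hj', h5⟩
          rw [hgo'] at hj'
          rw [← Sum.inr.inj hj'] at h5
          exact hj h5
        rw [h1]
        exact (Cv_FC hs hk (hoM o.1 o.2) (h.fc o.1 o.2)).mono h2 (le_refl _)
  have hall := Cv_bUnion (I := I) (B := B) Finset.univ A c fun o _ => hcov o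
  have hMsub : M ⊆ Finset.univ.biUnion A := by
    intro x hx
    rw [h.all, Finset.mem_union] at hx
    rcases hx with h1 | h1
    · obtain ⟨o, ho⟩ := hsurj (Sum.inl x)
        (Finset.mem_union_left _ (Finset.mem_map.2 ⟨x, h1, rfl⟩))
      exact Finset.mem_biUnion.2 ⟨o, Finset.mem_univ _, Finset.mem_union_right _
        (Finset.mem_filter.2 ⟨h1, ho⟩)⟩
    · obtain ⟨o, ho, hxo⟩ := mem_un.1 h1
      exact Finset.mem_biUnion.2 ⟨⟨o, ho⟩, Finset.mem_univ _, Finset.mem_union_left _ hxo⟩
  -- the total cost
  have hsum1 : ∑ o : {o // o ∈ O}, c o + 2 * (d - d') ≤ ∑ o : {o // o ∈ O}, (o.1.card + 1) := by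
    set F := (Finset.univ : Finset {o // o ∈ O}).filter
      (fun o => ∃ j : Fin d, g o = Sum.inr j ∧ d' ≤ j.val) with hF
    have hFc : d - d' ≤ F.card := by
      have h1 : (Finset.univ.filter fun j : Fin d => d' ≤ j.val).card ≤ F.card := by
        have hex : ∀ j : Fin d, ∃ o, g o = Sum.inr j := fun j => hsurj _
          (Finset.mem_union_right _ (Finset.mem_map.2 ⟨j, Finset.mem_univ _, rfl⟩))
        choose e he using hex
        refine Finset.card_le_card_of_injOn e ?_ ?_
        · intro j hj
          have hj' := (Finset.mem_filter.1 (Finset.mem_coe.1 hj)).2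
          exact Finset.mem_coe.2 (Finset.mem_filter.2 ⟨Finset.mem_univ _, j, he j, hj'⟩)
        · intro j _ j' _ e1
          have := he j
          rw [e1, he j'] at this
          exact (Sum.inr.inj this).symm
      have h2 : (Finset.univ.filter fun j : Fin d => d' ≤ j.val).card = d - d' := by
        have h3 := Finset.card_filter_add_card_filter_not (s := (Finset.univ : Finset (Fin d)))
          (fun j => j.val < d')
        rw [Fin.card_filter_val_lt, Finset.card_univ, Fintype.card_fin] at h3
        have h4 : (Finset.univ.filter fun j : Fin d => ¬ j.val < d') =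
            Finset.univ.filter fun j : Fin d => d' ≤ j.val := by
          apply Finset.filter_congr
          intro j _
          exact not_lt
        rw [h4] at h3
        omega
      omega
    have h3 : ∑ o : {o // o ∈ O}, c o + 2 * F.card = ∑ o : {o // o ∈ O}, (o.1.card + 1) := by
      have h4 : 2 * F.card = ∑ o : {o // o ∈ O},
          (if ∃ j : Fin d, g o = Sum.inr j ∧ d' ≤ j.val then 2 else 0) := by
        rw [← Finset.sum_filter, Finset.sum_const, smul_eq_mul, mul_comm]
      rw [h4, ← Finset.sum_add_distrib]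
      apply Finset.sum_congr rfl
      intro o _
      have h5 := (h.bar.odd o.1 o.2).pos
      simp only [c]
      split_ifs <;> omega
    omega
  have hsum2 : ∑ o : {o // o ∈ O}, (o.1.card + 1) = (un O).card + O.card := by
    rw [Finset.sum_add_distrib, un_card h.bar.disj, Finset.sum_const, Finset.card_univ,
      Fintype.card_coe, smul_eq_mul, mul_one, ← Finset.sum_coe_sort O (fun o => o.card)]
  have hMc : M.card = Y.card + (un O).card := by
    conv_lhs => rw [h.all]
    apply Finset.card_union_of_disjoint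
    rw [Finset.disjoint_left]
    intro x hx hx'
    obtain ⟨o, ho, hxo⟩ := mem_un.1 hx'
    exact hoY o ho x hxo hx
  have hOun : O.card ≤ (un O).card := by
    rw [un_card h.bar.disj]
    have := Finset.sum_le_sum (fun o (ho : o ∈ O) => Nat.succ_le_of_lt (h.bar.odd o ho).pos)
    simpa using this
  refine ⟨S, hS.trans hBdO, fun o ho => (Finset.mem_filter.1 (hS ho)).2, ?_, ?_, hSn⟩
  · exact hall.mono hMsub (by omega)
  · omega

end Pool.Agent.Helper74.TZ
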