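import Pool.Agent.Helper74.TZ.Std4

set_option linter.unusedSectionVars false
set_option linter.unusedVariables false

namespace Pool.Agent.Helper74.TZ

variable {V : Type} [DecidableEq V] {G H : SimpleGraph V}

/-- one side of a cut vertex -/
structure Side (G : SimpleGraph V) (K : Finset V) (z : V) (A B : Finset V) : Prop where
  zK : z ∈ K
  e : K.erase z = A ∪ B
  d : Disjoint A B
  neA : A.Nonempty
  neB : B.Nonempty
  no : ∀ a ∈ A, ∀ b ∈ B, ¬ G.Adj a b

namespace Side

variable {K : Finset V} {z : V} {A B : Finset V}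

theorem swap (h : Side G K z A B) : Side G K z B A :=
  ⟨h.zK, by rw [h.e, Finset.union_comm], h.d.symm, h.neB, h.neA,
    fun a ha b hb hab => h.no b hb a ha hab.symm⟩

theorem zA (h : Side G K z A B) : z ∉ A := fun h1 => by
  have : z ∈ K.erase z := by rw [h.e]; exact Finset.mem_union_left _ h1
  exact (Finset.mem_erase.1 this).1 rfl

theorem A_K (h : Side G K z A B) : A ⊆ K := fun x hx => by
  have : x ∈ K.erase z := by rw [h.e]; exact Finset.mem_union_left _ hx
  exact Finset.mem_of_mem_erase this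

theorem mem3 (h : Side G K z A B) {v : V} (hv : v ∈ K) : v = z ∨ v ∈ A ∨ v ∈ B := by
  by_cases h1 : v = z
  · exact Or.inl h1
  · have : v ∈ K.erase z := Finset.mem_erase.2 ⟨h1, hv⟩
    rw [h.e, Finset.mem_union] at this
    exact Or.inr this

theorem PM_A (hF : FC G K) (h : Side G K z A B) : PM G A := by
  refine (hF.2 z h.zK).sub (A := A) (by rw [h.e]; exact Finset.subset_union_left) ?_
  intro u hu v hv huv
  rw [h.e, Finset.mem_union] at hv
  rcases hv with h1 | h1
  · exact h1
  · exact absurd huv (h.no u hu v h1)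

theorem FC_A (hF : FC G K) (h : Side G K z A B) : FC G (insert z A) := by
  refine ⟨⟨z, Finset.mem_insert_self _ _⟩, ?_⟩
  intro v hv
  by_cases hvz : v = z
  · rw [hvz, Finset.erase_insert h.zA]
    exact h.PM_A hF
  have hvA : v ∈ A := Finset.mem_of_mem_insert_of_ne hv hvz
  have hzB := h.swap.zA
  obtain ⟨f, hf⟩ := hF.2 v (h.A_K hvA)
  have hzS : z ∈ K.erase v := Finset.mem_erase.2 ⟨Ne.symm hvz, h.zK⟩
  have hfz := hf z hzS
  have hBS : ∀ b ∈ B, b ∈ K.erase v := fun b hb => Finset.mem_erase.2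
    ⟨fun e => Finset.disjoint_left.1 h.d hvA (e ▸ hb), h.swap.A_K hb⟩
  have hfzA : f z ∈ A := by
    rcases h.mem3 (Finset.mem_of_mem_erase hfz.1) with h1 | h1 | h1
    · exact absurd h1 (hf.ne hzS)
    · exact h1
    · exfalso
      have h2 : MO G (B.erase (f z)) f := by
        refine hf.sub (fun b hb => hBS b (Finset.mem_of_mem_erase hb)) ?_
        intro u hu
        have hu' := Finset.mem_erase.1 hu
        have hfu := hf u (hBS u hu'.2)
        rcases h.mem3 (Finset.mem_of_mem_erase hfu.1) with h3 | h3 | h3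
        · exact absurd (by rw [← h3, hfu.2.2]) hu'.1
        · exact absurd hfu.2.1.symm (h.no _ h3 u hu'.2)
        · refine Finset.mem_erase.2 ⟨fun e => ?_, h3⟩
          have := hf.inj (hBS u hu'.2) hzS e
          exact hzB (this ▸ hu'.2)
      have h3 := PM.even ⟨f, h2⟩
      have h4 := (h.swap.PM_A hF).even
      rw [Finset.card_erase_of_mem h1] at h3
      have h5 := Finset.card_pos.2 ⟨_, h1⟩
      obtain ⟨r, hr⟩ := h3
      obtain ⟨s, hs⟩ := h4
      omega
  refine ⟨f, hf.sub ?_ ?_⟩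
  · intro x hx
    have hx' := Finset.mem_erase.1 hx
    refine Finset.mem_erase.2 ⟨hx'.1, ?_⟩
    rcases Finset.mem_insert.1 hx'.2 with h1 | h1
    · rw [h1]; exact h.zK
    · exact h.A_K h1
  · intro u hu
    have hu' := Finset.mem_erase.1 hu
    rcases Finset.mem_insert.1 hu'.2 with h1 | h1
    · rw [h1]
      exact Finset.mem_erase.2 ⟨(Finset.mem_erase.1 hfz.1).1, Finset.mem_insert_of_mem hfzA⟩
    · have hfu := hf u (Finset.mem_erase.2 ⟨hu'.1, h.A_K h1⟩)
      have h2 := Finset.mem_erase.1 hfu.1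
      refine Finset.mem_erase.2 ⟨h2.1, ?_⟩
      rcases h.mem3 h2.2 with h3 | h3 | h3
      · rw [h3]; exact Finset.mem_insert_self _ _
      · exact Finset.mem_insert_of_mem h3
      · exact absurd hfu.2.1 (h.no u h1 _ h3)

theorem bad_A (hF : FC G K) (h : Side G K z A B) {T : Finset V} (hT : T ⊆ insert z A)
    (hbad : ¬ PM G (K \ T)) : ¬ PM G (insert z A \ T) := by
  intro h1
  apply hbad
  have hzB := h.swap.zA
  have e : K \ T = (insert z A \ T) ∪ B := by
    ext x
    rw [Finset.mem_union, Finset.mem_sdiff, Finset.mem_sdiff, Finset.mem_insert]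
    constructor
    · rintro ⟨h2, h3⟩
      rcases h.mem3 h2 with h4 | h4 | h4
      · exact Or.inl ⟨Or.inl h4, h3⟩
      · exact Or.inl ⟨Or.inr h4, h3⟩
      · exact Or.inr h4
    · rintro (⟨h2 | h2, h3⟩ | h2)
      · rw [h2] at h3 ⊢; exact ⟨h.zK, h3⟩
      · exact ⟨h.A_K h2, h3⟩
      · refine ⟨h.swap.A_K h2, fun h3 => ?_⟩
        rcases Finset.mem_insert.1 (hT h3) with h4 | h4
        · exact hzB (h4 ▸ h2)
        · exact Finset.disjoint_left.1 h.d h4 h2
  rw [e]
  refine h1.union (h.swap.PM_A hF) ?_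
  rw [Finset.disjoint_left]
  intro x hx hx'
  rcases Finset.mem_insert.1 (Finset.mem_sdiff.1 hx).1 with h4 | h4
  · exact hzB (h4 ▸ hx')
  · exact Finset.disjoint_left.1 h.d h4 hx'

theorem tri_side (h : Side G K z A B) {T : Finset V} (hT : T ⊆ K) (hTri : Tri G T) :
    T ⊆ insert z A ∨ T ⊆ insert z B := by
  by_cases h1 : ∃ a ∈ T, a ∈ A
  · obtain ⟨a, haT, haA⟩ := h1
    left
    intro x hx
    rcases h.mem3 (hT hx) with h2 | h2 | h2
    · rw [h2]; exact Finset.mem_insert_self _ _
    · exact Finset.mem_insert_of_mem h2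
    · have hne : a ≠ x := fun e => Finset.disjoint_left.1 h.d haA (e ▸ h2)
      exact absurd (hTri.2 a haT x hx hne) (h.no a haA x h2)
  · right
    intro x hx
    rcases h.mem3 (hT hx) with h2 | h2 | h2
    · rw [h2]; exact Finset.mem_insert_self _ _
    · exact absurd ⟨x, hx, h2⟩ h1
    · exact Finset.mem_insert_of_mem h2

/-- combination at a cut vertex -/
theorem comb (hF : FC G K) (h : Side G K z A B) {p1 p2 : V → ℚ} (h1 : Pot G (insert z A) p1)
    (h2 : Pot G (insert z B) p2) : ∃ p : V → ℚ, Pot G K p ∧ (∀ v ∈ insert z A, p1 v ≤ p v) ∧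
      (∀ v ∈ insert z B, p2 v ≤ p v) ∧
      ∑ v ∈ K, p v = ∑ v ∈ insert z A, p1 v + ∑ v ∈ insert z B, p2 v - min (p1 z) (p2 z) := by
  classical
  have hzA := h.zA
  have hzB := h.swap.zA
  set p : V → ℚ := fun v => if v = z then max (p1 z) (p2 z) else if v ∈ A then p1 v else p2 v with hp
  have qz : p z = max (p1 z) (p2 z) := by simp only [hp, if_true]
  have qA : ∀ v ∈ A, p v = p1 v := fun v hv => by
    have : v ≠ z := fun e => hzA (e ▸ hv)
    simp only [hp, if_neg this, if_pos hv]
  have qB : ∀ v ∈ B, p v = p2 v := fun v hv => by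
    have h3 : v ≠ z := fun e => hzB (e ▸ hv)
    have h4 : v ∉ A := fun h4 => Finset.disjoint_left.1 h.d h4 hv
    simp only [hp, if_neg h3, if_neg h4]
  have le1 : ∀ v ∈ insert z A, p1 v ≤ p v := by
    intro v hv
    rcases Finset.mem_insert.1 hv with rfl | h3
    · rw [qz]; exact le_max_left _ _
    · rw [qA v h3]
  have le2 : ∀ v ∈ insert z B, p2 v ≤ p v := by
    intro v hv
    rcases Finset.mem_insert.1 hv with rfl | h3
    · rw [qz]; exact le_max_right _ _
    · rw [qB v h3]
  have split : ∀ f : ℚ → ℚ, ∑ v ∈ K, f (p v) = ∑ v ∈ insert z A, f (p1 v) +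
      ∑ v ∈ insert z B, f (p2 v) - f (p1 z) - f (p2 z) + f (max (p1 z) (p2 z)) := by
    intro f
    rw [← Finset.sum_erase_add K _ h.zK, h.e, Finset.sum_union h.d, qz, Finset.sum_insert hzA,
      Finset.sum_insert hzB, Finset.sum_congr rfl fun v hv => by rw [qA v hv],
      Finset.sum_congr (rfl : B = B) fun v hv => by rw [qB v hv]]
    ring
  have hsum : ∀ f : ℚ → ℚ, ∑ v ∈ K, f (p v) = ∑ v ∈ insert z A, f (p1 v) +
      ∑ v ∈ insert z B, f (p2 v) - f (min (p1 z) (p2 z)) := by
    intro f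
    rw [split f]
    rcases le_total (p1 z) (p2 z) with h3 | h3
    · rw [max_eq_right h3, min_eq_left h3]; ring
    · rw [max_eq_left h3, min_eq_right h3]; ring
  have hcard : (K.card : ℚ) + 1 = (insert z A).card + (insert z B).card := by
    have e1 : K.card = A.card + B.card + 1 := by
      rw [← Finset.card_erase_add_one h.zK, h.e, Finset.card_union_of_disjoint h.d]
    rw [Finset.card_insert_of_notMem hzA, Finset.card_insert_of_notMem hzB, e1]
    push_cast
    ring
  have hz1 := Finset.mem_insert_self z A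
  have hz2 := Finset.mem_insert_self z B
  have hmin : -1 ≤ min (p1 z) (p2 z) := le_min (h1.lo z hz1) (h2.lo z hz2)
  refine ⟨p, ⟨?_, ?_, ?_, ?_, ?_⟩, le1, le2, hsum id⟩
  · intro v hv
    rcases h.mem3 hv with h3 | h3 | h3
    · exact (h1.lo v (by rw [h3]; exact hz1)).trans (le1 v (by rw [h3]; exact hz1))
    · exact (h1.lo v (Finset.mem_insert_of_mem h3)).trans (le1 v (Finset.mem_insert_of_mem h3))
    · exact (h2.lo v (Finset.mem_insert_of_mem h3)).trans (le2 v (Finset.mem_insert_of_mem h3))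
  · intro v hv
    rcases h.mem3 hv with h3 | h3 | h3
    · rw [h3, qz]; exact max_le (h1.hi z hz1) (h2.hi z hz2)
    · rw [qA v h3]; exact h1.hi v (Finset.mem_insert_of_mem h3)
    · rw [qB v h3]; exact h2.hi v (Finset.mem_insert_of_mem h3)
  · intro u hu v hv huv
    have key1 : ∀ u ∈ insert z A, ∀ v ∈ insert z A, G.Adj u v → 0 ≤ p u + p v :=
      fun u hu v hv huv => (h1.ed u hu v hv huv).trans (add_le_add (le1 u hu) (le1 v hv))
    have key2 : ∀ u ∈ insert z B, ∀ v ∈ insert z B, G.Adj u v → 0 ≤ p u + p v :=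
      fun u hu v hv huv => (h2.ed u hu v hv huv).trans (add_le_add (le2 u hu) (le2 v hv))
    rcases h.mem3 hu with h3 | h3 | h3 <;> rcases h.mem3 hv with h4 | h4 | h4
    · exact absurd huv (by rw [h3, h4]; exact G.irrefl)
    · exact key1 u (by rw [h3]; exact hz1) v (Finset.mem_insert_of_mem h4) huv
    · exact key2 u (by rw [h3]; exact hz2) v (Finset.mem_insert_of_mem h4) huv
    · exact key1 u (Finset.mem_insert_of_mem h3) v (by rw [h4]; exact hz1) huv
    · exact key1 u (Finset.mem_insert_of_mem h3) v (Finset.mem_insert_of_mem h4) huv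
    · exact absurd huv (h.no u h3 v h4)
    · exact key2 u (Finset.mem_insert_of_mem h3) v (by rw [h4]; exact hz2) huv
    · exact absurd huv.symm (h.no v h4 u h3)
    · exact key2 u (Finset.mem_insert_of_mem h3) v (Finset.mem_insert_of_mem h4) huv
  · intro T hT hTri hbad
    rcases h.tri_side hT hTri with h3 | h3
    · exact (h1.tr T h3 hTri (h.bad_A hF h3 hbad)).trans
        (Finset.sum_le_sum fun v hv => le1 v (h3 hv))
    · exact (h2.tr T h3 hTri (h.swap.bad_A hF h3 hbad)).trans
        (Finset.sum_le_sum fun v hv => le2 v (h3 hv))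
  · rw [hsum phi]
    have h3 := phi_ge' (min (p1 z) (p2 z))
    have h4 := h1.co
    have h5 := h2.co
    linarith

end Side

theorem cut_concl {K : Finset V} {z : V} {A B : Finset V} (hF : FC G K) (h : Side G K z A B)
    (ih : ∀ (G' : SimpleGraph V) (K' : Finset V), K'.card < K.card → FC G' K' → Concl G' K') :
    Concl G K := by
  have hzA := h.zA
  have hzB := h.swap.zA
  have e1 : K.card = A.card + B.card + 1 := by
    rw [← Finset.card_erase_add_one h.zK, h.e, Finset.card_union_of_disjoint h.d]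
  have a1 := Finset.card_insert_of_notMem hzA
  have b1 := Finset.card_insert_of_notMem hzB
  have a2 : 2 ≤ A.card := by
    have h1 := (h.PM_A hF).even
    have h2 := Finset.card_pos.2 h.neA
    obtain ⟨r, hr⟩ := h1
    omega
  have b2 : 2 ≤ B.card := by
    have h1 := (h.swap.PM_A hF).even
    have h2 := Finset.card_pos.2 h.neB
    obtain ⟨r, hr⟩ := h1
    omega
  have iA := ih G (insert z A) (by omega) (h.FC_A hF)
  have iB := ih G (insert z B) (by omega) (h.swap.FC_A hF)
  have hcard : (K.card : ℚ) + 1 = (insert z A).card + (insert z B).card := by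
    rw [a1, b1, e1]
    push_cast
    ring
  have main : ∃ p, Pot G K p ∧ ∑ v ∈ K, p v ≤ K.card / 3 - 7 / 6 := by
    obtain ⟨p1, h1, h1'⟩ := iA.c2 (by omega) z (Finset.mem_insert_self _ _)
    obtain ⟨p2, h2, h2'⟩ := iB.c2 (by omega) z (Finset.mem_insert_self _ _)
    obtain ⟨p, hp, -, -, h3⟩ := h.comb hF h1 h2
    refine ⟨p, hp, ?_⟩
    rw [h3]
    have h4 := h1.sum_le
    have h5 := h2.sum_le
    have h6 : -1 / 2 ≤ min (p1 z) (p2 z) := le_min h1' h2'
    linarith
  refine ⟨?_, ?_, ?_, ?_⟩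
  · obtain ⟨p, hp, -⟩ := main
    exact ⟨p, hp⟩
  · intro _ c hc
    rcases h.mem3 hc with h3 | h3 | h3
    · obtain ⟨p1, h1, h1'⟩ := iA.c2 (by omega) z (Finset.mem_insert_self _ _)
      obtain ⟨p2, h2⟩ := iB.c1
      obtain ⟨p, hp, h4, -, -⟩ := h.comb hF h1 h2
      exact ⟨p, hp, by rw [h3]; exact h1'.trans (h4 z (Finset.mem_insert_self _ _))⟩
    · obtain ⟨p1, h1, h1'⟩ := iA.c2 (by omega) c (Finset.mem_insert_of_mem h3)
      obtain ⟨p2, h2⟩ := iB.c1
      obtain ⟨p, hp, h4, -, -⟩ := h.comb hF h1 h2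
      exact ⟨p, hp, h1'.trans (h4 c (Finset.mem_insert_of_mem h3))⟩
    · obtain ⟨p1, h1⟩ := iA.c1
      obtain ⟨p2, h2, h2'⟩ := iB.c2 (by omega) c (Finset.mem_insert_of_mem h3)
      obtain ⟨p, hp, -, h4, -⟩ := h.comb hF h1 h2
      exact ⟨p, hp, h2'.trans (h4 c (Finset.mem_insert_of_mem h3))⟩
  · intro _
    obtain ⟨p, hp, h1⟩ := main
    exact ⟨p, hp, by linarith⟩
  · intro h5
    obtain ⟨p, hp, h1⟩ := main
    refine ⟨p, hp, h1.trans ?_⟩
    rw [h5]
    norm_num

theorem side_of_cut {K : Finset V} (h : ¬ NoCut G K) : ∃ z A B, Side G K z A B := by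
  unfold NoCut at h
  push Not at h
  obtain ⟨z, hz, A, hA, hne, hcl, hAe⟩ := h
  refine ⟨z, A, K.erase z \ A, hz, (Finset.union_sdiff_of_subset hA).symm, Finset.disjoint_sdiff,
    hne, ?_, ?_⟩
  · rw [Finset.nonempty_iff_ne_empty, Ne, Finset.sdiff_eq_empty_iff_subset]
    exact fun h1 => hAe (Finset.Subset.antisymm hA h1)
  · intro a ha b hb hab
    rw [Finset.mem_sdiff] at hb
    exact hb.2 (hcl a ha b hb.1 hab)

/-- the potential theorem -/
theorem concl : ∀ (n : ℕ) (G : SimpleGraph V) (K : Finset V), K.card = n → FC G K → Concl G K := by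
  intro n
  induction n using Nat.strong_induction_on with
  | _ n ih =>
    intro G K hn hF
    have ih' : ∀ (G' : SimpleGraph V) (K' : Finset V), K'.card < K.card → FC G' K' →
        Concl G' K' := fun G' K' hlt hF' => ih K'.card (by omega) G' K' rfl hF'
    by_cases hbad : ∃ T ⊆ K, Tri G T ∧ ¬ PM G (K \ T)
    · by_cases hcut : NoCut G K
      · by_cases hN : NoCfg G K
        · obtain ⟨p, hp, h1, h2⟩ := prim hF hN hbad
          refine ⟨⟨p, hp⟩, fun _ c hc => ⟨p, hp, (by norm_num : (-1 : ℚ) / 2 ≤ -1 / 3).trans (h1 c hc)⟩,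
            fun _ => ⟨p, hp, by linarith⟩, fun h5 => ⟨p, hp, h2.trans ?_⟩⟩
          rw [h5]
          norm_num
        · obtain ⟨C, O, E, h⟩ := std_exists hF hN
          exact std_concl hF h hcut ih'
      · obtain ⟨z, A, B, h⟩ := side_of_cut hcut
        exact cut_concl hF h ih'
    · push Not at hbad
      have hodd := hF.odd
      by_cases h1 : K.card = 1
      · obtain ⟨v, hv⟩ := Finset.card_eq_one.1 h1
        refine ⟨⟨fun _ => -1, fun _ _ => le_refl _, fun _ _ => by norm_num, ?_, ?_, ?_⟩,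
          fun h3 => by omega, fun h3 => by omega, fun h3 => by omega⟩
        · intro a ha b hb hab
          rw [hv, Finset.mem_singleton] at ha hb
          exact absurd hab (by rw [ha, hb]; exact G.irrefl)
        · intro T hT hTri _
          have h3 := Finset.card_le_card hT
          rw [hTri.1, h1] at h3
          omega
        · rw [hv, Finset.sum_singleton, Finset.card_singleton, phi_nonpos (by norm_num)]
          norm_num
      · have h3 : 3 ≤ K.card := by
          obtain ⟨r, hr⟩ := hodd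
          omega
        have hp := Pot_zero h3 hbad
        refine ⟨⟨_, hp⟩, fun _ c hc => ⟨_, hp, by norm_num⟩, fun h5 => ⟨_, hp, ?_⟩,
          fun h5 => ⟨_, hp, by rw [Finset.sum_const_zero]; norm_num⟩⟩
        have h4 : (5 : ℚ) ≤ K.card := by exact_mod_cast h5
        rw [Finset.sum_const_zero]
        linarith

end Pool.Agent.Helper74.TZ
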