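import Mathlib

/-! Factor-critical sets, barriers and potentials. -/

namespace Pool.Agent.Helper74.TZ

variable {V : Type} [DecidableEq V]

/-- `f` is a perfect matching of the set `S` in the graph `G`. -/
def MO (G : SimpleGraph V) (S : Finset V) (f : V → V) : Prop :=
  ∀ v ∈ S, f v ∈ S ∧ G.Adj v (f v) ∧ f (f v) = v

/-- The set `S` has a perfect matching in the graph `G`. -/
def PM (G : SimpleGraph V) (S : Finset V) : Prop := ∃ f : V → V, MO G S f

/-- `O` is a family of disjoint odd subsets of `S \ B`, and there are no edges between a member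
of `O` and the rest of `S \ B`. -/
structure Bar (G : SimpleGraph V) (S B : Finset V) (O : Finset (Finset V)) : Prop where
  sub : B ⊆ S
  oS : ∀ o ∈ O, o ⊆ S \ B
  odd : ∀ o ∈ O, Odd o.card
  disj : ∀ o ∈ O, ∀ o' ∈ O, o ≠ o' → Disjoint o o'
  cl : ∀ o ∈ O, ∀ u ∈ o, ∀ v ∈ S \ B, G.Adj u v → v ∈ o

/-- `K` is factor-critical. -/
def FC (G : SimpleGraph V) (K : Finset V) : Prop :=
  K.Nonempty ∧ ∀ v ∈ K, PM G (K.erase v)

/-- `T` is a triangle. -/
def Tri (G : SimpleGraph V) (T : Finset V) : Prop :=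
  T.card = 3 ∧ ∀ u ∈ T, ∀ v ∈ T, u ≠ v → G.Adj u v

/-- the elements of `C` adjacent to a member of `S` -/
noncomputable def nb (G : SimpleGraph V) (C : Finset V) (S : Finset (Finset V)) : Finset V :=
  open Classical in C.filter fun z => ∃ o ∈ S, ∃ v ∈ o, G.Adj z v

/-- the union of a family -/
def un (O : Finset (Finset V)) : Finset V := O.biUnion id

/-- the cost function -/
def phi (x : ℚ) : ℚ := max x (2 / 3 * x)

/-- potentials -/
structure Pot (G : SimpleGraph V) (K : Finset V) (p : V → ℚ) : Prop where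
  lo : ∀ v ∈ K, -1 ≤ p v
  hi : ∀ v ∈ K, p v ≤ 1
  ed : ∀ u ∈ K, ∀ v ∈ K, G.Adj u v → 0 ≤ p u + p v
  tr : ∀ T ⊆ K, Tri G T → ¬ PM G (K \ T) → 1 ≤ ∑ v ∈ T, p v
  co : ∑ v ∈ K, phi (p v) ≤ K.card / 3 - 1

/-- the statement proved by induction -/
structure Concl (G : SimpleGraph V) (K : Finset V) : Prop where
  c1 : ∃ p, Pot G K p
  c2 : 3 ≤ K.card → ∀ c ∈ K, ∃ p, Pot G K p ∧ -1 / 2 ≤ p c
  c3 : 5 ≤ K.card → ∃ p, Pot G K p ∧ ∑ v ∈ K, p v ≤ K.card / 3 - 13 / 12
  c4 : K.card = 5 → ∃ p, Pot G K p ∧ ∑ v ∈ K, p v ≤ 1 / 2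

/-- the graph in which `C` is made complete -/
def clq (G : SimpleGraph V) (C : Finset V) : SimpleGraph V where
  Adj u v := G.Adj u v ∨ (u ≠ v ∧ u ∈ C ∧ v ∈ C)
  symm := by
    constructor
    intro u v h
    rcases h with h | ⟨h1, h2, h3⟩
    · exact Or.inl h.symm
    · exact Or.inr ⟨h1.symm, h3, h2⟩
  loopless := by
    constructor
    intro u h
    rcases h with h | h
    · exact G.irrefl h
    · exact h.1 rfl

/-- the graph in which `c` gets all neighbours of elements of `C` -/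
def ctr (G : SimpleGraph V) (C : Finset V) (c : V) : SimpleGraph V where
  Adj u v := u ≠ v ∧ ((u ≠ c ∧ v ≠ c ∧ G.Adj u v) ∨ (u = c ∧ ∃ z ∈ C, G.Adj z v) ∨
    (v = c ∧ ∃ z ∈ C, G.Adj z u))
  symm := by
    constructor
    rintro u v ⟨h0, h | h | h⟩
    · exact ⟨h0.symm, Or.inl ⟨h.2.1, h.1, h.2.2.symm⟩⟩
    · exact ⟨h0.symm, Or.inr (Or.inr h)⟩
    · exact ⟨h0.symm, Or.inr (Or.inl h)⟩
  loopless := by
    constructor
    intro u h
    exact h.1 rfl

end Pool.Agent.Helper74.TZ
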