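import Pool.Agent.Helper74.TZ.Count

set_option linter.unusedSectionVars false
set_option linter.unusedVariables false

namespace Pool.Agent.Helper74.TZ

variable {X : Type} [DecidableEq X]

/-- a `k`-uniform hypergraph on the vertex set `W` -/
def Uni (k : ℕ) (W : Finset X) (E : Finset (Finset X)) : Prop := ∀ e ∈ E, e ⊆ W ∧ e.card = k

/-- there is a transversal with at most `t` vertices -/
def Trv (W : Finset X) (E : Finset (Finset X)) (t : ℚ) : Prop :=
  ∃ T ⊆ W, (∀ e ∈ E, ∃ x ∈ T, x ∈ e) ∧ (T.card : ℚ) ≤ t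

/-- all degrees are at most `D` -/
def Dg (D : ℕ) (W : Finset X) (E : Finset (Finset X)) : Prop :=
  ∀ x ∈ W, (E.filter fun e => x ∈ e).card ≤ D

/-- the linear bound for all hypergraphs of maximum degree at most `D` -/
def Lin (X : Type) [DecidableEq X] (k D : ℕ) (a b : ℚ) : Prop :=
  ∀ (W : Finset X) (E : Finset (Finset X)), Uni k W E → Dg D W E → Trv W E (a * W.card + b * E.card)

/-- the linear bound for all hypergraphs -/
def LinA (X : Type) [DecidableEq X] (k : ℕ) (a b : ℚ) : Prop :=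
  ∀ (W : Finset X) (E : Finset (Finset X)), Uni k W E → Trv W E (a * W.card + b * E.card)

theorem sys_of {k : ℕ} {W : Finset X} {E : Finset (Finset X)} (hU : Uni k W E) (hD : Dg 3 W E) :
    Sys E W (fun x => E.filter fun e => x ∈ e) k := by
  refine ⟨fun x _ => Finset.filter_subset _ _, hD, ?_⟩
  intro e he
  rw [← (hU e he).2]
  congr 1
  ext x
  rw [Finset.mem_filter, Finset.mem_filter]
  constructor
  · exact fun h => h.2.2
  · exact fun h => ⟨(hU e he).1 h, he, h⟩

/-- a linear bound for maximum degree at most three -/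
theorem lin_three {k : ℕ} (hk : 5 ≤ k) {a b g mu : ℚ} (ha : 0 ≤ a) (hg : 0 ≤ g)
    (hmu2 : (2 * mu ≤ 3 * k) ∨ (2 * mu ≤ 3 * k + 3 ∧ Odd k))
    (h1 : 1 / 2 ≤ k * a / 3 + b - g) (h2 : 1 / 2 ≤ 2 * k * a / 3 + g)
    (h3 : 1 / 2 ≤ mu * a / 3 + 3 * g) (h4 : -1 / 2 ≤ g - k * a / 3) : Lin X k 3 a b := by
  intro W E hU hD
  obtain ⟨T, s1, s3, y, d, hT, hcov, e1, e2, e3, e4, e5, e6⟩ := master (sys_of hU hD) (by omega)
  refine ⟨T, hT, ?_, ?_⟩
  · intro e he
    obtain ⟨x, hx, hxe⟩ := hcov e he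
    exact ⟨x, hx, (Finset.mem_filter.1 hxe).2⟩
  · have q1 : (2 : ℚ) * T.card + d + 2 * y ≤ E.card + 2 * (s1 + s3) := by exact_mod_cast e1
    have q2 : (s1 : ℚ) + s3 ≤ y + d := by exact_mod_cast e2
    have q4 : (s1 : ℚ) + 3 * s3 + y ≤ E.card := by exact_mod_cast e4
    have q5 : (k : ℚ) * E.card + 2 * k * s1 + mu * s3 ≤ 3 * W.card + k * y := by
      have hs3 : (0 : ℚ) ≤ s3 := by positivity
      rcases hmu2 with hm | ⟨hm, hodd⟩
      · have h5 : 2 * (k * E.card) + 4 * (k * s1) + 3 * (k * s3) ≤ 6 * W.card + 2 * (k * y) := by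
          have e7 : 2 * k * s1 = 2 * (k * s1) := by ring
          have e8 : 3 * k * s3 = 3 * (k * s3) := by ring
          rw [e7, e8] at e5
          omega
        have h6 : (2 : ℚ) * (k * E.card) + 4 * (k * s1) + 3 * (k * s3) ≤
            6 * W.card + 2 * (k * y) := by exact_mod_cast h5
        have h7 := mul_le_mul_of_nonneg_right hm hs3
        linarith
      · have h5 := e6 hodd hk
        have h6 : (2 : ℚ) * k * E.card + 4 * k * s1 + (3 * k + 3) * s3 ≤
            6 * W.card + 2 * k * y := by exact_mod_cast h5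
        have h7 := mul_le_mul_of_nonneg_right hm hs3
        linarith
    have r1 := mul_le_mul_of_nonneg_left q5 (by linarith : 0 ≤ a / 3)
    have r2 := mul_le_mul_of_nonneg_left q4 hg
    have r3 := mul_le_mul_of_nonneg_right h1 (by positivity : (0 : ℚ) ≤ E.card)
    have r4 := mul_le_mul_of_nonneg_right h2 (by positivity : (0 : ℚ) ≤ s1)
    have r5 := mul_le_mul_of_nonneg_right h3 (by positivity : (0 : ℚ) ≤ s3)
    have r6 := mul_le_mul_of_nonneg_right h4 (by positivity : (0 : ℚ) ≤ y)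
    linarith

/-- the exact bound for maximum degree three -/
theorem lin_deg3 {k : ℕ} (hk : 5 ≤ k) :
    Lin X k 3 (3 / (2 * ((k : ℚ) + 3))) (3 / (2 * ((k : ℚ) + 3))) := by
  have hk' : (5 : ℚ) ≤ k := by exact_mod_cast hk
  have hp : (0 : ℚ) < 2 * ((k : ℚ) + 3) := by linarith
  have e0 : (k : ℚ) * (3 / (2 * ((k : ℚ) + 3))) / 3 = k / (2 * ((k : ℚ) + 3)) := by
    field_simp
  by_cases hodd : Odd k
  · refine lin_three hk (g := 0) (mu := (3 * k + 3) / 2) (by positivity) (le_refl _)
      (Or.inr ⟨by linarith, hodd⟩) ?_ ?_ ?_ ?_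
    · rw [e0, sub_zero, ← add_div, div_le_div_iff₀ (by norm_num) hp]; linarith
    · have : 2 * (k : ℚ) * (3 / (2 * ((k : ℚ) + 3))) / 3 + 0 = 2 * k / (2 * ((k : ℚ) + 3)) := by
        rw [add_zero]
        field_simp
      rw [this, div_le_div_iff₀ (by norm_num) hp]; linarith
    · have : (3 * (k : ℚ) + 3) / 2 * (3 / (2 * ((k : ℚ) + 3))) / 3 + 3 * 0 =
          (3 * k + 3) / 2 / (2 * ((k : ℚ) + 3)) := by
        rw [mul_zero, add_zero]
        field_simp
      rw [this, div_le_div_iff₀ (by norm_num) hp]; linarith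
    · rw [e0]
      have : (k : ℚ) / (2 * ((k : ℚ) + 3)) ≤ 1 / 2 := by
        rw [div_le_div_iff₀ hp (by norm_num)]; linarith
      linarith
  · have hk6 : (6 : ℚ) ≤ k := by
      have : 6 ≤ k := by
        rcases Nat.lt_or_ge 5 k with h | h
        · omega
        · exact absurd (by decide : Odd 5) (by have : k = 5 := by omega
                                               rwa [this] at hodd)
      exact_mod_cast this
    refine lin_three hk (g := 0) (mu := 3 * k / 2) (by positivity) (le_refl _)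
      (Or.inl (by linarith)) ?_ ?_ ?_ ?_
    · rw [e0, sub_zero, ← add_div, div_le_div_iff₀ (by norm_num) hp]; linarith
    · have : 2 * (k : ℚ) * (3 / (2 * ((k : ℚ) + 3))) / 3 + 0 = 2 * k / (2 * ((k : ℚ) + 3)) := by
        rw [add_zero]
        field_simp
      rw [this, div_le_div_iff₀ (by norm_num) hp]; linarith
    · have : 3 * (k : ℚ) / 2 * (3 / (2 * ((k : ℚ) + 3))) / 3 + 3 * 0 =
          3 * k / 2 / (2 * ((k : ℚ) + 3)) := by
        rw [mul_zero, add_zero]
        field_simp
      rw [this, div_le_div_iff₀ (by norm_num) hp]; linarith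
    · rw [e0]
      have : (k : ℚ) / (2 * ((k : ℚ) + 3)) ≤ 1 / 2 := by
        rw [div_le_div_iff₀ hp (by norm_num)]; linarith
      linarith

/-- the sharp bound for maximum degree three and even `k` -/
theorem lin_even {k : ℕ} (hk : 5 ≤ k) : Lin X k 3 (1 / k) (1 / 6) := by
  have hk' : (5 : ℚ) ≤ k := by exact_mod_cast hk
  have hk0 : (k : ℚ) ≠ 0 := by linarith
  refine lin_three hk (g := 0) (mu := 3 * k / 2) (by positivity) (le_refl _)
    (Or.inl (by linarith)) ?_ ?_ ?_ ?_
  · have : (k : ℚ) * (1 / k) / 3 + 1 / 6 - 0 = 1 / 2 := by field_simp; norm_num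
    rw [this]
  · have : 2 * (k : ℚ) * (1 / k) / 3 + 0 = 2 / 3 := by rw [add_zero]; field_simp
    rw [this]; norm_num
  · have : 3 * (k : ℚ) / 2 * (1 / k) / 3 + 3 * 0 = 1 / 2 := by
      rw [mul_zero, add_zero]; field_simp
    rw [this]
  · have : 0 - (k : ℚ) * (1 / k) / 3 = -1 / 3 := by field_simp; norm_num
    rw [this]; norm_num

/-- the sharp bound for maximum degree three and odd `k` -/
theorem lin_odd {k : ℕ} (hk : 5 ≤ k) (hodd : Odd k) :
    Lin X k 3 (1 / (k + 1)) ((k + 3) / (6 * (k + 1))) := by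
  have hk' : (5 : ℚ) ≤ k := by exact_mod_cast hk
  have hk0 : (k : ℚ) + 1 ≠ 0 := by linarith
  have hk1 : (0 : ℚ) < 3 * (k + 1) := by linarith
  refine lin_three hk (g := 0) (mu := (3 * k + 3) / 2) (by positivity) (le_refl _)
    (Or.inr ⟨by linarith, hodd⟩) ?_ ?_ ?_ ?_
  · have : (k : ℚ) * (1 / (k + 1)) / 3 + (k + 3) / (6 * (k + 1)) - 0 = 1 / 2 := by
      field_simp; ring
    rw [this]
  · have : 2 * (k : ℚ) * (1 / (k + 1)) / 3 + 0 = 2 * k / (3 * (k + 1)) := by
      rw [add_zero]; field_simp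
    rw [this, div_le_div_iff₀ (by norm_num) hk1]; linarith
  · have : (3 * (k : ℚ) + 3) / 2 * (1 / (k + 1)) / 3 + 3 * 0 = 1 / 2 := by
      rw [mul_zero, add_zero]; field_simp
    rw [this]
  · have : 0 - (k : ℚ) * (1 / (k + 1)) / 3 = -(k / (3 * (k + 1))) := by
      field_simp; norm_num
    have h2 : (k : ℚ) / (3 * (k + 1)) ≤ 1 / 2 := by
      rw [div_le_div_iff₀ hk1 (by norm_num)]; linarith
    rw [this]; linarith

/-- removing vertices of large degree -/
theorem lin_step {k D : ℕ} {a b : ℚ} (ha : 0 ≤ a) (hb : 0 ≤ b) (hab : 1 ≤ a + (D + 1) * b)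
    (h : Lin X k D a b) : LinA X k a b := by
  intro W
  induction hn : W.card using Nat.strong_induction_on generalizing W with
  | _ n ih =>
    intro E hU
    by_cases hD : Dg D W E
    · have := h W E hU hD
      rwa [hn] at this
    unfold Dg at hD
    push Not at hD
    obtain ⟨x, hx, hdeg⟩ := hD
    have hU' : Uni k (W.erase x) (E.filter fun e => ¬ x ∈ e) := by
      intro e he
      have he' := Finset.mem_filter.1 he
      refine ⟨fun y hy => Finset.mem_erase.2 ⟨fun e1 => he'.2 (e1 ▸ hy), (hU e he'.1).1 hy⟩,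
        (hU e he'.1).2⟩
    have hc := Finset.card_erase_add_one hx
    obtain ⟨T, hT, hcov, hTc⟩ := ih (W.erase x).card (by omega) (W.erase x) rfl _ hU'
    refine ⟨insert x T, ?_, ?_, ?_⟩
    · exact Finset.insert_subset hx (hT.trans (Finset.erase_subset _ _))
    · intro e he
      by_cases hxe : x ∈ e
      · exact ⟨x, Finset.mem_insert_self _ _, hxe⟩
      · obtain ⟨y, hy, hye⟩ := hcov e (Finset.mem_filter.2 ⟨he, hxe⟩)
        exact ⟨y, Finset.mem_insert_of_mem hy, hye⟩
    · have hxT : x ∉ T := fun h1 => (Finset.mem_erase.1 (hT h1)).1 rfl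
      rw [Finset.card_insert_of_notMem hxT]
      have h1 := Finset.card_filter_add_card_filter_not (s := E) (fun e => x ∈ e)
      have h2 : ((D : ℚ) + 1) + (E.filter fun e => ¬ x ∈ e).card ≤ E.card := by
        have : D + 1 + (E.filter fun e => ¬ x ∈ e).card ≤ E.card := by omega
        exact_mod_cast this
      have h3 : ((W.erase x).card : ℚ) = n - 1 := by
        have : ((W.erase x).card : ℚ) + 1 = n := by
          rw [← hn]; exact_mod_cast hc
        linarith
      have h4 := mul_le_mul_of_nonneg_left h2 hb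
      rw [h3] at hTc
      push_cast
      linarith

/-- double counting of the incidences -/
theorem inc_le {k D : ℕ} {W : Finset X} {E : Finset (Finset X)} (hU : Uni k W E) (hD : Dg D W E) :
    (k : ℚ) * E.card ≤ D * W.card := by
  have h1 : ∑ x ∈ W, (E.filter fun e => x ∈ e).card = ∑ e ∈ E, (W.filter fun x => x ∈ e).card := by
    simp only [Finset.card_filter]
    exact Finset.sum_comm
  have h2 : ∑ e ∈ E, (W.filter fun x => x ∈ e).card = E.card * k := by
    rw [← smul_eq_mul, ← Finset.sum_const]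
    apply Finset.sum_congr rfl
    intro e he
    rw [← (hU e he).2]
    congr 1
    ext x
    rw [Finset.mem_filter]
    exact ⟨fun h => h.2, fun h => ⟨(hU e he).1 h, h⟩⟩
  have h3 : ∑ x ∈ W, (E.filter fun e => x ∈ e).card ≤ W.card * D := by
    rw [← smul_eq_mul, ← Finset.sum_const]
    exact Finset.sum_le_sum fun x hx => hD x hx
  have h4 : k * E.card ≤ D * W.card := by
    rw [mul_comm, mul_comm D]
    omega
  exact_mod_cast h4

/-- trading vertices for edges when the degrees are bounded -/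
theorem lin_shift {k D : ℕ} {a b t : ℚ} (ht : 0 ≤ t) (h : Lin X k D a b) :
    Lin X k D (a + D * t) (b - k * t) := by
  intro W E hU hD
  obtain ⟨T, hT, hcov, hTc⟩ := h W E hU hD
  refine ⟨T, hT, hcov, ?_⟩
  have h1 := mul_le_mul_of_nonneg_left (inc_le hU hD) ht
  linarith

theorem LinA.lin {k D : ℕ} {a b : ℚ} (h : LinA X k a b) : Lin X k D a b :=
  fun W E hU _ => h W E hU

/-- the second coefficient of the bound with degrees at least four removed -/
def beta4 (k : ℕ) : ℚ :=
  if k = 5 then 7 / 34 else if Even k then (3 * k - 4) / (2 * (6 * k - 3))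
    else 3 * (k - 1) / (2 * (6 * k - 1))

/-- the second coefficient of the bound with degrees at least `d + 4` removed -/
def beta (k : ℕ) : ℕ → ℚ
  | 0 => beta4 k
  | d + 1 => beta k d * (((d : ℚ) + 4) * (k - 1) / (((d : ℚ) + 4) * (k - 1) + k))

theorem beta4_pos {k : ℕ} (hk : 5 ≤ k) : 0 < beta4 k ∧ beta4 k ≤ 1 / 4 := by
  have hk' : (5 : ℚ) ≤ k := by exact_mod_cast hk
  unfold beta4
  split_ifs
  · norm_num
  · constructor
    · apply div_pos <;> linarith
    · rw [div_le_div_iff₀ (by linarith) (by norm_num)]; linarith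
  · constructor
    · apply div_pos <;> linarith
    · rw [div_le_div_iff₀ (by linarith) (by norm_num)]; linarith

theorem lin_four {k : ℕ} (hk : 5 ≤ k) : LinA X k (1 - 4 * beta4 k) (beta4 k) := by
  have hk' : (5 : ℚ) ≤ k := by exact_mod_cast hk
  have hb := beta4_pos hk
  apply lin_step (D := 3) (by linarith [hb.2]) hb.1.le (by push_cast; linarith)
  unfold beta4 at hb ⊢
  split_ifs at hb ⊢ with h5 he
  · subst h5
    apply lin_three (le_refl 5) (g := 0) (mu := 9) <;> norm_num
  · have hp : (0 : ℚ) < 2 * (6 * k - 3) := by linarith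
    have hp' : (2 : ℚ) * (6 * k - 3) ≠ 0 := hp.ne'
    have e1 : 1 - 4 * ((3 * (k : ℚ) - 4) / (2 * (6 * k - 3))) = 10 / (2 * (6 * k - 3)) := by
      rw [eq_div_iff hp', sub_mul, mul_assoc, div_mul_cancel₀ _ hp']; ring
    rw [e1]
    obtain ⟨u, hu⟩ : ∃ u : ℚ, u = 6 * k - 3 := ⟨_, rfl⟩
    have hku : (k : ℚ) = (u + 3) / 6 := by linarith
    have hu0 : u ≠ 0 := by linarith
    refine lin_three hk (g := ((k : ℚ) - 3) / 6 / (6 * k - 3)) (mu := 3 * k / 2) (by positivity)
      (div_nonneg (by linarith) (by linarith)) (Or.inl (by linarith)) ?_ ?_ ?_ ?_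
    · have : (k : ℚ) * (10 / (2 * (6 * k - 3))) / 3 + (3 * k - 4) / (2 * (6 * k - 3)) -
          ((k : ℚ) - 3) / 6 / (6 * k - 3) = 1 / 2 := by
        rw [← hu, hku]
        field_simp
        ring
      rw [this]
    · have : 2 * (k : ℚ) * (10 / (2 * (6 * k - 3))) / 3 + ((k : ℚ) - 3) / 6 / (6 * k - 3) =
          (21 * k - 3) / (6 * (6 * k - 3)) := by
        rw [← hu, hku]
        field_simp
        ring
      rw [this, div_le_div_iff₀ (by norm_num) (by linarith)]
      linarith
    · have : 3 * (k : ℚ) / 2 * (10 / (2 * (6 * k - 3))) / 3 + 3 * (((k : ℚ) - 3) / 6 / (6 * k - 3)) =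
          1 / 2 := by
        rw [← hu, hku]
        field_simp
        ring
      rw [this]
    · have : ((k : ℚ) - 3) / 6 / (6 * k - 3) - k * (10 / (2 * (6 * k - 3))) / 3 =
          -(9 * k + 3) / (6 * (6 * k - 3)) := by
        rw [← hu, hku]
        field_simp
        ring
      rw [this, div_le_div_iff₀ (by norm_num) (by linarith)]
      linarith
  · have hodd : Odd k := Nat.not_even_iff_odd.1 he
    have hk7 : (7 : ℚ) ≤ k := by
      have : 7 ≤ k := by
        obtain ⟨r, hr⟩ := hodd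
        omega
      exact_mod_cast this
    have hp : (0 : ℚ) < 2 * (6 * k - 1) := by linarith
    have hp' : (2 : ℚ) * (6 * k - 1) ≠ 0 := hp.ne'
    have e1 : 1 - 4 * (3 * ((k : ℚ) - 1) / (2 * (6 * k - 1))) = 10 / (2 * (6 * k - 1)) := by
      rw [eq_div_iff hp', sub_mul, mul_assoc, div_mul_cancel₀ _ hp']; ring
    rw [e1]
    obtain ⟨u, hu⟩ : ∃ u : ℚ, u = 6 * k - 1 := ⟨_, rfl⟩
    have hku : (k : ℚ) = (u + 1) / 6 := by linarith
    have hu0 : u ≠ 0 := by linarith
    refine lin_three hk (g := ((k : ℚ) - 6) / 6 / (6 * k - 1)) (mu := (3 * k + 3) / 2) (by positivity)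
      (div_nonneg (by linarith) (by linarith)) (Or.inr ⟨by linarith, hodd⟩) ?_ ?_ ?_ ?_
    · have : (k : ℚ) * (10 / (2 * (6 * k - 1))) / 3 + 3 * (k - 1) / (2 * (6 * k - 1)) -
          ((k : ℚ) - 6) / 6 / (6 * k - 1) = 1 / 2 := by
        rw [← hu, hku]
        field_simp
        ring
      rw [this]
    · have : 2 * (k : ℚ) * (10 / (2 * (6 * k - 1))) / 3 + ((k : ℚ) - 6) / 6 / (6 * k - 1) =
          (21 * k - 6) / (6 * (6 * k - 1)) := by
        rw [← hu, hku]
        field_simp
        ring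
      rw [this, div_le_div_iff₀ (by norm_num) (by linarith)]
      linarith
    · have : (3 * (k : ℚ) + 3) / 2 * (10 / (2 * (6 * k - 1))) / 3 +
          3 * (((k : ℚ) - 6) / 6 / (6 * k - 1)) = 1 / 2 := by
        rw [← hu, hku]
        field_simp
        ring
      rw [this]
    · have : ((k : ℚ) - 6) / 6 / (6 * k - 1) - k * (10 / (2 * (6 * k - 1))) / 3 =
          -(9 * k + 6) / (6 * (6 * k - 1)) := by
        rw [← hu, hku]
        field_simp
        ring
      rw [this, div_le_div_iff₀ (by norm_num) (by linarith)]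
      linarith

theorem beta_pos {k : ℕ} (hk : 5 ≤ k) (d : ℕ) : 0 < beta k d ∧ ((d : ℚ) + 4) * beta k d ≤ 1 := by
  have hk' : (5 : ℚ) ≤ k := by exact_mod_cast hk
  induction d with
  | zero =>
    have := beta4_pos hk
    refine ⟨this.1, ?_⟩
    show ((0 : ℕ) + 4 : ℚ) * beta4 k ≤ 1
    push_cast
    linarith [this.2]
  | succ d ih =>
    have hd : (0 : ℚ) ≤ d := by positivity
    have hq : (0 : ℚ) < ((d : ℚ) + 4) * (k - 1) := mul_pos (by linarith) (by linarith)
    have hr : (0 : ℚ) < ((d : ℚ) + 4) * (k - 1) + k := by linarith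
    constructor
    · show 0 < beta k d * (((d : ℚ) + 4) * (k - 1) / (((d : ℚ) + 4) * (k - 1) + k))
      exact mul_pos ih.1 (div_pos hq hr)
    · show (((d + 1 : ℕ) : ℚ) + 4) *
        (beta k d * (((d : ℚ) + 4) * (k - 1) / (((d : ℚ) + 4) * (k - 1) + k))) ≤ 1
      have e1 : (((d + 1 : ℕ) : ℚ) + 4) *
          (beta k d * (((d : ℚ) + 4) * (k - 1) / (((d : ℚ) + 4) * (k - 1) + k))) =
          (((d : ℚ) + 4) * beta k d) * (((d : ℚ) + 5) * (k - 1) / (((d : ℚ) + 4) * (k - 1) + k)) := by
        push_cast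
        ring
      rw [e1]
      have h2 : ((d : ℚ) + 5) * (k - 1) / (((d : ℚ) + 4) * (k - 1) + k) ≤ 1 := by
        rw [div_le_one hr]; linarith
      have h3 : 0 ≤ ((d : ℚ) + 5) * (k - 1) / (((d : ℚ) + 4) * (k - 1) + k) :=
        div_nonneg (mul_nonneg (by linarith) (by linarith)) hr.le
      calc _ ≤ 1 * (((d : ℚ) + 5) * (k - 1) / (((d : ℚ) + 4) * (k - 1) + k)) :=
            mul_le_mul_of_nonneg_right ih.2 h3
        _ ≤ 1 := by rw [one_mul]; exact h2

/-- the linear bounds for all hypergraphs -/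
theorem lin_all {k : ℕ} (hk : 5 ≤ k) (d : ℕ) :
    LinA X k (1 - ((d : ℚ) + 4) * beta k d) (beta k d) := by
  have hk' : (5 : ℚ) ≤ k := by exact_mod_cast hk
  induction d with
  | zero =>
    have := lin_four (X := X) hk
    have e : (1 : ℚ) - (((0 : ℕ) : ℚ) + 4) * beta k 0 = 1 - 4 * beta4 k := by
      show (1 : ℚ) - (((0 : ℕ) : ℚ) + 4) * beta4 k = _
      push_cast; ring
    rw [e]
    exact this
  | succ d ih =>
    have hd : (0 : ℚ) ≤ d := by positivity
    have hq : (0 : ℚ) < ((d : ℚ) + 4) * (k - 1) := mul_pos (by linarith) (by linarith)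
    have hr : (0 : ℚ) < ((d : ℚ) + 4) * (k - 1) + k := by linarith
    have hb := beta_pos hk d
    have hb' := beta_pos hk (d + 1)
    set t := beta k d / (((d : ℚ) + 4) * (k - 1) + k) with ht
    have ht0 : 0 ≤ t := div_nonneg hb.1.le hr.le
    have htr : t * (((d : ℚ) + 4) * (k - 1) + k) = beta k d := by
      rw [ht]; field_simp
    have hbd : beta k (d + 1) = beta k d - k * t := by
      show beta k d * (((d : ℚ) + 4) * (k - 1) / (((d : ℚ) + 4) * (k - 1) + k)) = _
      rw [ht]
      field_simp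
      ring
    have h1 := lin_shift (D := d + 4) ht0 (ih.lin (D := d + 4))
    have e1 : 1 - ((d : ℚ) + 4) * beta k d + ((d + 4 : ℕ) : ℚ) * t =
        1 - (((d + 1 : ℕ) : ℚ) + 4) * beta k (d + 1) := by
      rw [hbd]
      push_cast
      linarith
    rw [e1, ← hbd] at h1
    refine lin_step (by linarith [hb'.2]) hb'.1.le ?_ h1
    push_cast
    linarith

/-- the bound by a multiple of `n + m` -/
theorem lin_final {k : ℕ} (hk : 5 ≤ k) (d : ℕ) {c : ℚ} (h1 : 1 ≤ ((d : ℚ) + 6) * c)
    (h2 : 1 - ((d : ℚ) + 4) * beta k d ≤ c)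
    (h3 : (k - ((d : ℚ) + 4) * (k - 1) * beta k d) / (k + d + 4) ≤ c) : LinA X k c c := by
  have hk' : (5 : ℚ) ≤ k := by exact_mod_cast hk
  have hd : (0 : ℚ) ≤ d := by positivity
  have hc : 0 ≤ c := by
    by_contra hcon
    have : ((d : ℚ) + 6) * c < 0 := mul_neg_of_pos_of_neg (by linarith) (not_le.1 hcon)
    linarith
  apply lin_step (D := d + 4) hc hc
  · push_cast; linarith
  intro W E hU hD
  obtain ⟨T, hT, hcov, hTc⟩ := lin_all hk d W E hU
  refine ⟨T, hT, hcov, hTc.trans ?_⟩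
  have h4 := inc_le hU hD
  push_cast at h4
  rw [div_le_iff₀ (by linarith)] at h3
  -- (b - c) m <= (c - a) n
  have hb := beta_pos hk d
  have hW : (0 : ℚ) ≤ W.card := by positivity
  rcases le_total (beta k d) c with h5 | h5
  · have := mul_le_mul_of_nonneg_right h5 (by positivity : (0 : ℚ) ≤ E.card)
    have := mul_le_mul_of_nonneg_right h2 hW
    linarith
  · have h6 := mul_le_mul_of_nonneg_left h4 (by linarith : 0 ≤ beta k d - c)
    have h7 : ((d : ℚ) + 4) * (beta k d - c) ≤ k * (c - (1 - ((d : ℚ) + 4) * beta k d)) := by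
      linarith
    have h8 := mul_le_mul_of_nonneg_right h7 hW
    have h9 : (k : ℚ) * ((beta k d - c) * E.card) ≤
        k * ((c - (1 - ((d : ℚ) + 4) * beta k d)) * W.card) := by linarith
    have h10 := le_of_mul_le_mul_left h9 (by linarith)
    linarith

end Pool.Agent.Helper74.TZ
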