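import Pool.Agent.Helper74.TZ.Cut

set_option linter.unusedSectionVars false
set_option linter.unusedVariables false

namespace Pool.Agent.Helper74.TZ

variable {V : Type} [DecidableEq V] {G H : SimpleGraph V}

/-- the members of `O` adjacent to `X` -/
noncomputable def nbO (G : SimpleGraph V) (O : Finset (Finset V)) (X : Finset V) :
    Finset (Finset V) :=
  open Classical in O.filter fun o => ∃ z ∈ X, ∃ v ∈ o, G.Adj z v

theorem mem_nbO {O : Finset (Finset V)} {X o : Finset V} :
    o ∈ nbO G O X ↔ o ∈ O ∧ ∃ z ∈ X, ∃ v ∈ o, G.Adj z v := by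
  classical
  unfold nbO; rw [Finset.mem_filter]

/-- an optimal barrier -/
structure Opt (G : SimpleGraph V) (M Y : Finset V) (O : Finset (Finset V)) : Prop where
  bar : Bar G M Y O
  all : M = Y ∪ un O
  fc : ∀ o ∈ O, FC G o
  hall : ∀ X ⊆ Y, X.card ≤ (nbO G O X).card

theorem opt_exists (G : SimpleGraph V) (M : Finset V) : ∃ Y O, Opt G M Y O := by
  classical
  let F : Finset (Finset V × Finset (Finset V)) :=
    (M.powerset ×ˢ M.powerset.powerset).filter fun x => Bar G M x.1 x.2
  have hmem : ∀ Y O, (Y, O) ∈ F ↔ Bar G M Y O := by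
    intro Y O
    rw [Finset.mem_filter, Finset.mem_product, Finset.mem_powerset, Finset.mem_powerset]
    constructor
    · exact fun h => h.2
    · intro h
      refine ⟨⟨h.sub, fun o ho => Finset.mem_powerset.2 fun v hv => ?_⟩, h⟩
      exact (Finset.mem_sdiff.1 (h.oS o ho hv)).1
  have hne : F.Nonempty := ⟨(∅, ∅), (hmem ∅ ∅).2 ⟨by simp, by simp, by simp, by simp, by simp⟩⟩
  let val : Finset V × Finset (Finset V) → ℤ := fun x =>
    ((x.2.card : ℤ) - x.1.card) * (M.card + 1) + x.1.card
  obtain ⟨⟨Y, O⟩, hYO, hmax⟩ := Finset.exists_max_image F val hne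
  have hb := (hmem Y O).1 hYO
  have hmax' : ∀ Y' O', Bar G M Y' O' → ((O'.card : ℤ) - Y'.card) * (M.card + 1) + Y'.card ≤
      ((O.card : ℤ) - Y.card) * (M.card + 1) + Y.card := fun Y' O' h => hmax (Y', O') ((hmem _ _).2 h)
  have hYM := Finset.card_le_card hb.sub
  -- no improvement
  have key : ∀ Y' O', Bar G M Y' O' → O.card + Y'.card ≤ O'.card + Y.card → Y.card < Y'.card → False := by
    intro Y' O' h h1 h2
    have h3 := hmax' Y' O' h
    have h4 : (O.card : ℤ) - Y.card ≤ (O'.card : ℤ) - Y'.card := by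
      have : (O.card : ℤ) + Y'.card ≤ O'.card + Y.card := by exact_mod_cast h1
      linarith
    have h5 : (0 : ℤ) ≤ (M.card : ℤ) + 1 := by positivity
    have h6 := mul_le_mul_of_nonneg_right h4 h5
    have h7 : (Y.card : ℤ) < Y'.card := by exact_mod_cast h2
    linarith
  have key2 : ∀ Y' O', Bar G M Y' O' → O.card + Y'.card < O'.card + Y.card → False := by
    intro Y' O' h h1
    have h3 := hmax' Y' O' h
    have h4 : (O.card : ℤ) - Y.card + 1 ≤ (O'.card : ℤ) - Y'.card := by
      have : (O.card : ℤ) + Y'.card + 1 ≤ O'.card + Y.card := by exact_mod_cast h1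
      linarith
    have h5 : (0 : ℤ) ≤ (M.card : ℤ) + 1 := by positivity
    have h6 := mul_le_mul_of_nonneg_right h4 h5
    have h7 : (Y.card : ℤ) ≤ M.card := by exact_mod_cast hYM
    have h8 : (0 : ℤ) ≤ Y'.card := by positivity
    linarith
  have hunM : un O ⊆ M := by
    intro x hx
    obtain ⟨o, ho, hx⟩ := mem_un.1 hx
    exact (Finset.mem_sdiff.1 (hb.oS o ho hx)).1
  have hsub : Y ∪ un O ⊆ M := Finset.union_subset hb.sub hunM
  refine ⟨Y, O, hb, ?_, ?_, ?_⟩
  · by_contra hcon
    set R := M \ (Y ∪ un O) with hR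
    have hRne : R.Nonempty := by
      rw [hR, Finset.nonempty_iff_ne_empty, Ne, Finset.sdiff_eq_empty_iff_subset]
      exact fun h1 => hcon (Finset.Subset.antisymm h1 hsub)
    have hRM : ∀ x ∈ R, x ∈ M ∧ x ∉ Y ∧ x ∉ un O := by
      intro x hx
      rw [hR, Finset.mem_sdiff, Finset.mem_union, not_or] at hx
      exact ⟨hx.1, hx.2.1, hx.2.2⟩
    have hRcl : ∀ u ∈ R, ∀ v ∈ M \ Y, G.Adj u v → v ∈ R := by
      intro u hu v hv huv
      rw [Finset.mem_sdiff] at hv
      rw [hR, Finset.mem_sdiff, Finset.mem_union, not_or]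
      refine ⟨hv.1, hv.2, fun h1 => ?_⟩
      obtain ⟨o, ho, hvo⟩ := mem_un.1 h1
      have h2 := hRM u hu
      exact h2.2.2 (mem_un.2 ⟨o, ho, hb.cl o ho v hvo u (Finset.mem_sdiff.2 ⟨h2.1, h2.2.1⟩) huv.symm⟩)
    have hnew : ∀ (o' Y' : Finset V), o' ⊆ R → Odd o'.card → Y ⊆ Y' → Y' ⊆ M →
        (∀ x ∈ Y', x ∈ Y ∨ x ∈ R) → Disjoint o' Y' →
        (∀ u ∈ o', ∀ v ∈ R, v ∉ Y' → v ∈ o') → Bar G M Y' (insert o' O) ∧
        (insert o' O).card = O.card + 1 := by
      intro o' Y' h1 h2 h3 h4 h5 h6 h7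
      have h8 : ∀ o ∈ O, Disjoint o' o := by
        intro o ho
        rw [Finset.disjoint_left]
        exact fun x hx hx' => (hRM x (h1 hx)).2.2 (mem_un.2 ⟨o, ho, hx'⟩)
      refine ⟨⟨h4, ?_, ?_, ?_, ?_⟩, ?_⟩
      · intro o ho x hx
        rcases Finset.mem_insert.1 ho with rfl | ho
        · exact Finset.mem_sdiff.2 ⟨(hRM x (h1 hx)).1, Finset.disjoint_left.1 h6 hx⟩
        · have h9 := Finset.mem_sdiff.1 (hb.oS o ho hx)
          refine Finset.mem_sdiff.2 ⟨h9.1, fun h10 => ?_⟩
          rcases h5 x h10 with h11 | h11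
          · exact h9.2 h11
          · exact (hRM x h11).2.2 (mem_un.2 ⟨o, ho, hx⟩)
      · intro o ho
        rcases Finset.mem_insert.1 ho with rfl | ho
        · exact h2
        · exact hb.odd o ho
      · intro o ho o'' ho'' hne
        rcases Finset.mem_insert.1 ho with e1 | g1 <;> rcases Finset.mem_insert.1 ho'' with e2 | g2
        · exact absurd (e1.trans e2.symm) hne
        · rw [e1]; exact h8 _ g2
        · rw [e2]; exact (h8 _ g1).symm
        · exact hb.disj o g1 o'' g2 hne
      · intro o ho u hu v hv huv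
        rw [Finset.mem_sdiff] at hv
        have hvY : v ∉ Y := fun h => hv.2 (h3 h)
        rcases Finset.mem_insert.1 ho with rfl | ho
        · exact h7 u hu v (hRcl u (h1 hu) v (Finset.mem_sdiff.2 ⟨hv.1, hvY⟩) huv) hv.2
        · exact hb.cl o ho u hu v (Finset.mem_sdiff.2 ⟨hv.1, hvY⟩) huv
      · rw [Finset.card_insert_of_notMem]
        intro h9
        obtain ⟨x, hx⟩ := Finset.card_pos.1 h2.pos
        exact Finset.disjoint_left.1 (h8 o' h9) hx hx
    rcases Nat.even_or_odd R.card with hev | hod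
    · obtain ⟨v, hv⟩ := hRne
      have hvY : v ∉ Y := (hRM v hv).2.1
      have h1 := hnew (R.erase v) (insert v Y) (Finset.erase_subset _ _) (by
          rw [Finset.card_erase_of_mem hv]
          have := Finset.card_pos.2 ⟨v, hv⟩
          obtain ⟨r, hr⟩ := hev
          exact ⟨r - 1, by omega⟩) (Finset.subset_insert _ _)
        (Finset.insert_subset (hRM v hv).1 hb.sub)
        (by
          intro x hx
          rcases Finset.mem_insert.1 hx with rfl | hx
          · exact Or.inr hv
          · exact Or.inl hx)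
        (by
          rw [Finset.disjoint_left]
          intro x hx hx'
          have hx1 := Finset.mem_erase.1 hx
          rcases Finset.mem_insert.1 hx' with h2 | h2
          · exact hx1.1 h2
          · exact (hRM x hx1.2).2.1 h2)
        (by
          intro u hu w hw hwY
          exact Finset.mem_erase.2 ⟨fun e => hwY (by rw [e]; exact Finset.mem_insert_self _ _), hw⟩)
      have h2 := Finset.card_insert_of_notMem hvY
      exact key _ _ h1.1 (by omega) (by omega)
    · have h1 := hnew R Y (Finset.Subset.refl _) hod (Finset.Subset.refl _) hb.sub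
        (fun x hx => Or.inl hx) (by
          rw [Finset.disjoint_left]
          exact fun x hx hx' => (hRM x hx).2.1 hx')
        (fun u _ w hw _ => hw)
      exact key2 _ _ h1.1 (by omega)
  · intro o ho
    by_contra hno
    obtain ⟨v, A, Q, hv, hQ, hcQ⟩ := hb.split_exists ho hno
    obtain ⟨h3, h4, h5, -⟩ := hb.split ho hv hQ
    have h7 : 1 ≤ O.card := Finset.card_pos.2 ⟨o, ho⟩
    exact key _ _ h3 (by omega) (by omega)
  · intro X hX
    by_contra hlt
    push Not at hlt
    have h1 : Bar G M (Y \ X) (O \ nbO G O X) := by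
      refine ⟨Finset.sdiff_subset.trans hb.sub, ?_, fun o ho => hb.odd o (Finset.mem_sdiff.1 ho).1,
        fun o ho o' ho' => hb.disj o (Finset.mem_sdiff.1 ho).1 o' (Finset.mem_sdiff.1 ho').1, ?_⟩
      · intro o ho x hx
        have h2 := Finset.mem_sdiff.1 (hb.oS o (Finset.mem_sdiff.1 ho).1 hx)
        exact Finset.mem_sdiff.2 ⟨h2.1, fun h3 => h2.2 (Finset.mem_sdiff.1 h3).1⟩
      · intro o ho u hu v hv huv
        have ho' := Finset.mem_sdiff.1 ho
        rw [Finset.mem_sdiff, Finset.mem_sdiff] at hv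
        refine hb.cl o ho'.1 u hu v (Finset.mem_sdiff.2 ⟨hv.1, fun h3 => hv.2 ⟨h3, fun h4 => ?_⟩⟩) huv
        exact ho'.2 (mem_nbO.2 ⟨ho'.1, v, h4, u, hu, huv.symm⟩)
    have h2 : (Y \ X).card = Y.card - X.card := Finset.card_sdiff_of_subset hX
    have h3 : nbO G O X ⊆ O := fun o ho => (mem_nbO.1 ho).1
    have h4 : (O \ nbO G O X).card = O.card - (nbO G O X).card := Finset.card_sdiff_of_subset h3
    have h5 := Finset.card_le_card hX
    have h6 := Finset.card_le_card h3
    exact key2 _ _ h1 (by omega)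

/-- the surplus condition for subfamilies -/
theorem Opt.surplus {M Y : Finset V} {O : Finset (Finset V)} (h : Opt G M Y O) {S : Finset (Finset V)}
    (hS : S ⊆ O) : S.card + Y.card ≤ (nb G Y S).card + O.card := by
  classical
  have h1 := h.hall (Y \ nb G Y S) Finset.sdiff_subset
  have h2 : nbO G O (Y \ nb G Y S) ⊆ O \ S := by
    intro o ho
    obtain ⟨h3, z, hz, v, hv, hzv⟩ := mem_nbO.1 ho
    refine Finset.mem_sdiff.2 ⟨h3, fun h4 => ?_⟩
    rw [Finset.mem_sdiff] at hz
    exact hz.2 (mem_nb.2 ⟨hz.1, o, h4, v, hv, hzv⟩)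
  have h3 := Finset.card_le_card h2
  rw [Finset.card_sdiff_of_subset hS] at h3
  rw [Finset.card_sdiff_of_subset (nb_sub _ _)] at h1
  have h4 := Finset.card_le_card hS
  have h5 := Finset.card_le_card (nb_sub (G := G) Y S)
  omega

end Pool.Agent.Helper74.TZ
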