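import Pool.Agent.Helper74.TZ.Tut

set_option linter.unusedSectionVars false

namespace Pool.Agent.Helper74.TZ

variable {V : Type} [DecidableEq V] {G : SimpleGraph V}

theorem FC.ne_empty {o : Finset V} (h : FC G o) : o.Nonempty := h.1

/-- a vertex joined to a factor-critical set -/
theorem FC.add_vertex {o : Finset V} (h : FC G o) {z v : V} (hz : z ∉ o) (hv : v ∈ o)
    (hzv : G.Adj z v) : PM G (insert z o) := by
  have h1 := (h.2 v hv).add hzv (fun h2 => hz (Finset.mem_of_mem_erase h2))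
    (Finset.notMem_erase v o)
  rwa [Finset.insert_erase hv] at h1

/-- assembly of a perfect matching -/
theorem hall_PM {C : Finset V} {O : Finset (Finset V)}
    (hd : ∀ o ∈ O, ∀ o' ∈ O, o ≠ o' → Disjoint o o') (hdC : ∀ o ∈ O, Disjoint C o)
    (hF : ∀ o ∈ O, FC G o) (hcard : C.card = O.card)
    (hH : ∀ S ⊆ O, S.card ≤ (nb G C S).card) : PM G (C ∪ un O) := by
  classical
  obtain ⟨g, hgi, hg⟩ := (Finset.all_card_le_biUnion_card_iff_exists_injective
    (fun o : {o // o ∈ O} => nb G C {o.1})).1 (by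
      intro s
      have h1 := hH (s.image Subtype.val) (by
        intro o ho
        obtain ⟨x, _, rfl⟩ := Finset.mem_image.1 ho
        exact x.2)
      rw [Finset.card_image_of_injective _ Subtype.val_injective] at h1
      refine h1.trans (Finset.card_le_card ?_)
      intro z hz
      obtain ⟨hzC, o, ho, v, hv, hzv⟩ := mem_nb.1 hz
      obtain ⟨x, hx, rfl⟩ := Finset.mem_image.1 ho
      exact Finset.mem_biUnion.2 ⟨x, hx, mem_nb.2 ⟨hzC, x.1, Finset.mem_singleton_self _, v, hv, hzv⟩⟩)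
  have hg' : ∀ o : {o // o ∈ O}, g o ∈ C ∧ ∃ v ∈ o.1, G.Adj (g o) v := by
    intro o
    obtain ⟨h1, o', ho', v, hv, h2⟩ := mem_nb.1 (hg o)
    rw [Finset.mem_singleton] at ho'
    subst ho'
    exact ⟨h1, v, hv, h2⟩
  have hnot : ∀ o o' : {o // o ∈ O}, g o ∉ o'.1 := fun o o' h =>
    Finset.disjoint_left.1 (hdC o'.1 o'.2) (hg' o).1 h
  have hsurj : ∀ z ∈ C, ∃ o, g o = z := by
    have h1 : (Finset.univ.image g) = C := by
      apply Finset.eq_of_subset_of_card_le
      · intro z hz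
        obtain ⟨o, _, rfl⟩ := Finset.mem_image.1 hz
        exact (hg' o).1
      · rw [Finset.card_image_of_injective _ hgi, Finset.card_univ, Fintype.card_coe, hcard]
    intro z hz
    rw [← h1] at hz
    obtain ⟨o, _, h2⟩ := Finset.mem_image.1 hz
    exact ⟨o, h2⟩
  let P : Finset (Finset V) := Finset.univ.image fun o : {o // o ∈ O} => insert (g o) o.1
  have hP : un P = C ∪ un O := by
    ext x
    rw [mem_un, Finset.mem_union, mem_un]
    constructor
    · rintro ⟨p, hp, hx⟩
      obtain ⟨o, _, rfl⟩ := Finset.mem_image.1 hp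
      rcases Finset.mem_insert.1 hx with rfl | hx
      · exact Or.inl (hg' o).1
      · exact Or.inr ⟨o.1, o.2, hx⟩
    · rintro (hx | ⟨o, ho, hx⟩)
      · obtain ⟨o, rfl⟩ := hsurj x hx
        exact ⟨_, Finset.mem_image_of_mem _ (Finset.mem_univ o), Finset.mem_insert_self _ _⟩
      · exact ⟨_, Finset.mem_image_of_mem _ (Finset.mem_univ ⟨o, ho⟩), Finset.mem_insert_of_mem hx⟩
  rw [← hP]
  apply PM_un
  · intro p hp
    obtain ⟨o, _, rfl⟩ := Finset.mem_image.1 hp
    obtain ⟨h1, v, hv, h2⟩ := hg' o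
    exact (hF o.1 o.2).add_vertex (hnot o o) hv h2
  · intro p hp p' hp' hne
    obtain ⟨o, _, rfl⟩ := Finset.mem_image.1 hp
    obtain ⟨o', _, rfl⟩ := Finset.mem_image.1 hp'
    have hoo : o ≠ o' := fun e => hne (by rw [e])
    have h1 : Disjoint o.1 o'.1 := hd o.1 o.2 o'.1 o'.2 fun e => hoo (Subtype.ext e)
    rw [Finset.disjoint_left]
    intro x hx hx'
    rcases Finset.mem_insert.1 hx with rfl | hx
    · rcases Finset.mem_insert.1 hx' with h2 | hx'
      · exact hoo (hgi h2)
      · exact hnot o o' hx'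
    · rcases Finset.mem_insert.1 hx' with rfl | hx'
      · exact hnot o' o hx
      · exact Finset.disjoint_left.1 h1 hx hx'

/-- splitting a member of a barrier family which is not factor-critical -/
theorem Bar.split {K C o A : Finset V} {O P : Finset (Finset V)} {v : V} (hb : Bar G K C O)
    (ho : o ∈ O) (hv : v ∈ o) (hP : Bar G (o.erase v) A P) :
    Bar G K (C ∪ insert v A) (O.erase o ∪ P) ∧ (O.erase o ∪ P).card = O.card - 1 + P.card ∧
      (C ∪ insert v A).card = C.card + A.card + 1 ∧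
      C ∪ insert v A ∪ un (O.erase o ∪ P) ⊆ C ∪ un O := by
  have hoK : o ⊆ K := fun x hx => (Finset.mem_sdiff.1 (hb.oS o ho hx)).1
  have hoC : ∀ x ∈ o, x ∉ C := fun x hx => (Finset.mem_sdiff.1 (hb.oS o ho hx)).2
  have hAo : A ⊆ o := fun x hx => Finset.mem_of_mem_erase (hP.sub hx)
  have hPo : ∀ p ∈ P, p ⊆ o := fun p hp x hx =>
    Finset.mem_of_mem_erase (Finset.mem_sdiff.1 (hP.oS p hp hx)).1
  have hIo : insert v A ⊆ o := Finset.insert_subset hv hAo
  have hPI : ∀ p ∈ P, ∀ x ∈ p, x ∉ insert v A := by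
    intro p hp x hx h1
    have h2 := Finset.mem_sdiff.1 (hP.oS p hp hx)
    rcases Finset.mem_insert.1 h1 with rfl | h1
    · exact (Finset.mem_erase.1 h2.1).1 rfl
    · exact h2.2 h1
  have hvA : v ∉ A := fun h1 => (Finset.mem_erase.1 (hP.sub h1)).1 rfl
  refine ⟨⟨?_, ?_, ?_, ?_, ?_⟩, ?_, ?_, ?_⟩
  · exact Finset.union_subset hb.sub (hIo.trans hoK)
  · intro p hp x hx
    rw [Finset.mem_sdiff, Finset.mem_union, not_or]
    rcases Finset.mem_union.1 hp with hp | hp
    · have h1 := Finset.mem_erase.1 hp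
      have h2 := Finset.mem_sdiff.1 (hb.oS p h1.2 hx)
      exact ⟨h2.1, h2.2, fun h3 => Finset.disjoint_left.1 (hb.disj p h1.2 o ho h1.1) hx (hIo h3)⟩
    · exact ⟨hoK (hPo p hp hx), hoC x (hPo p hp hx), hPI p hp x hx⟩
  · intro p hp
    rcases Finset.mem_union.1 hp with hp | hp
    · exact hb.odd p (Finset.mem_of_mem_erase hp)
    · exact hP.odd p hp
  · intro p hp p' hp' hne
    rcases Finset.mem_union.1 hp with hp | hp <;> rcases Finset.mem_union.1 hp' with hp' | hp'
    · exact hb.disj p (Finset.mem_of_mem_erase hp) p' (Finset.mem_of_mem_erase hp') hne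
    · have h1 := Finset.mem_erase.1 hp
      exact (hb.disj p h1.2 o ho h1.1).mono_right (hPo p' hp')
    · have h1 := Finset.mem_erase.1 hp'
      exact ((hb.disj p' h1.2 o ho h1.1).mono_right (hPo p hp)).symm
    · exact hP.disj p hp p' hp' hne
  · intro p hp x hx y hy hxy
    rw [Finset.mem_sdiff, Finset.mem_union, not_or] at hy
    rcases Finset.mem_union.1 hp with hp | hp
    · exact hb.cl p (Finset.mem_of_mem_erase hp) x hx y (Finset.mem_sdiff.2 ⟨hy.1, hy.2.1⟩) hxy
    · have h1 := hb.cl o ho x (hPo p hp hx) y (Finset.mem_sdiff.2 ⟨hy.1, hy.2.1⟩) hxy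
      refine hP.cl p hp x hx y (Finset.mem_sdiff.2 ⟨Finset.mem_erase.2 ⟨?_, h1⟩, ?_⟩) hxy
      · rintro rfl
        exact hy.2.2 (Finset.mem_insert_self _ _)
      · exact fun h2 => hy.2.2 (Finset.mem_insert_of_mem h2)
  · rw [Finset.card_union_of_disjoint, Finset.card_erase_of_mem ho]
    rw [Finset.disjoint_left]
    intro p hp hp'
    have h1 := Finset.mem_erase.1 hp
    obtain ⟨x, hx⟩ := Finset.card_pos.1 (hP.odd p hp').pos
    exact Finset.disjoint_left.1 (hb.disj p h1.2 o ho h1.1) hx (hPo p hp' hx)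
  · rw [Finset.card_union_of_disjoint, Finset.card_insert_of_notMem hvA]
    · omega
    · rw [Finset.disjoint_left]
      exact fun x hx hx' => hoC x (hIo hx') hx
  · intro x hx
    rw [Finset.mem_union, Finset.mem_union, mem_un] at hx
    rw [Finset.mem_union, mem_un]
    rcases hx with (hx | hx) | ⟨p, hp, hx⟩
    · exact Or.inl hx
    · exact Or.inr ⟨o, ho, hIo hx⟩
    · rcases Finset.mem_union.1 hp with hp | hp
      · exact Or.inr ⟨p, Finset.mem_of_mem_erase hp, hx⟩
      · exact Or.inr ⟨o, ho, hPo p hp hx⟩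

/-- a member of a barrier family which is not factor-critical can be split -/
theorem Bar.split_exists {K C : Finset V} {O : Finset (Finset V)} (hb : Bar G K C O)
    {o : Finset V} (ho : o ∈ O) (hno : ¬ FC G o) :
    ∃ (v : V) (A : Finset V) (P : Finset (Finset V)), v ∈ o ∧ Bar G (o.erase v) A P ∧
      A.card + 2 ≤ P.card := by
  have h1 : o.Nonempty := Finset.card_pos.1 (hb.odd o ho).pos
  have h2 : ∃ v ∈ o, ¬ PM G (o.erase v) := by
    by_contra hcon
    push Not at hcon
    exact hno ⟨h1, hcon⟩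
  obtain ⟨v, hv, h3⟩ := h2
  have h4 : Even (o.erase v).card := by
    rw [Finset.card_erase_of_mem hv]
    obtain ⟨r, hr⟩ := hb.odd o ho
    exact ⟨r, by omega⟩
  obtain ⟨A, P, h5, h6⟩ := tutte_set h4 h3
  exact ⟨v, A, P, hv, h5, h6⟩

end Pool.Agent.Helper74.TZ
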