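import Pool.Agent.Helper74.TZ.Prm

set_option linter.unusedSectionVars false

namespace Pool.Agent.Helper74.TZ

variable {V : Type} [DecidableEq V] {G : SimpleGraph V}

/-- crossing lemma: in a factor-critical set `g` split into `R` (odd) and `F`, some `y` in `R` with a
neighbour in `F` is such that `R - y` has a perfect matching -/
theorem cross {g R F : Finset V} {zs : V} (hg : FC G g) (hRF : g = R ∪ F) (hd : Disjoint R F)
    (hR : Odd R.card) (hzs : zs ∈ F)
    (hsub : ∀ B P, Bar G R B P → P.card ≤ B.card + 1) :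
    ∃ y ∈ R, ∃ z ∈ F, G.Adj y z ∧ PM G (R.erase y) := by
  classical
  have hzR : zs ∉ R := fun h => Finset.disjoint_left.1 hd h hzs
  have hadj : ∀ u ∈ R, ∀ v ∈ R, (ctr G F zs).Adj u v → G.Adj u v := by
    rintro u hu v hv ⟨_, h | h | h⟩
    · exact h.2.2
    · exact absurd (h.1 ▸ hu) hzR
    · exact absurd (h.1 ▸ hv) hzR
  have hadj' : ∀ u ∈ R, ∀ v ∈ R, G.Adj u v → (ctr G F zs).Adj u v := by
    intro u hu v hv h
    exact ⟨h.ne, Or.inl ⟨fun e => hzR (e ▸ hu), fun e => hzR (e ▸ hv), h⟩⟩
  by_cases hpm : PM (ctr G F zs) (insert zs R)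
  · obtain ⟨y, hy, hzy, hrest⟩ := hpm.partner (Finset.mem_insert_self _ _)
    have hyz : y ≠ zs := hzy.1.symm
    have hyR : y ∈ R := Finset.mem_of_mem_insert_of_ne hy hyz
    refine ⟨y, hyR, ?_⟩
    have h1 : ∃ z ∈ F, G.Adj z y := by
      rcases hzy.2 with h | h | h
      · exact absurd rfl h.1
      · exact h.2
      · exact absurd h.1 hyz
    obtain ⟨z, hz, hzy'⟩ := h1
    refine ⟨z, hz, hzy'.symm, ?_⟩
    rw [Finset.erase_insert hzR] at hrest
    exact hrest.mono fun u hu v hv => hadj u (Finset.mem_of_mem_erase hu) v (Finset.mem_of_mem_erase hv)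
  · exfalso
    have he : Even (insert zs R).card := by
      rw [Finset.card_insert_of_notMem hzR]
      exact hR.add_one
    obtain ⟨B, P, hP, hc⟩ := tutte_set he hpm
    by_cases hzB : zs ∈ B
    · have hb : Bar G R (B.erase zs) P := by
        refine ⟨?_, ?_, hP.odd, hP.disj, ?_⟩
        · intro x hx
          have h1 := Finset.mem_erase.1 hx
          exact Finset.mem_of_mem_insert_of_ne (hP.sub h1.2) h1.1
        · intro p hp x hx
          have h1 := Finset.mem_sdiff.1 (hP.oS p hp hx)
          have h2 : x ≠ zs := fun e => h1.2 (e ▸ hzB)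
          exact Finset.mem_sdiff.2 ⟨Finset.mem_of_mem_insert_of_ne h1.1 h2,
            fun h3 => h1.2 (Finset.mem_of_mem_erase h3)⟩
        · intro p hp u hu v hv huv
          have hv' := Finset.mem_sdiff.1 hv
          have hu1 := Finset.mem_sdiff.1 (hP.oS p hp hu)
          have hu2 : u ≠ zs := fun e => hu1.2 (e ▸ hzB)
          have hv2 : v ≠ zs := fun e => hzR (e ▸ hv'.1)
          refine hP.cl p hp u hu v (Finset.mem_sdiff.2 ⟨Finset.mem_insert_of_mem hv'.1, ?_⟩)
            (hadj' u (Finset.mem_of_mem_insert_of_ne hu1.1 hu2) v hv'.1 huv)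
          exact fun h3 => hv'.2 (Finset.mem_erase.2 ⟨hv2, h3⟩)
      have h1 := hsub _ _ hb
      rw [Finset.card_erase_of_mem hzB] at h1
      have h2 : 1 ≤ B.card := Finset.card_pos.2 ⟨zs, hzB⟩
      omega
    · set P' := P.filter fun p => zs ∉ p with hP'
      have hcP' : P.card ≤ P'.card + 1 := by
        have h1 : (P.filter fun p => zs ∈ p).card ≤ 1 := by
          rw [Finset.card_le_one]
          intro a ha b hb'
          by_contra hne
          have ha' := Finset.mem_filter.1 ha
          have hb'' := Finset.mem_filter.1 hb'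
          exact Finset.disjoint_left.1 (hP.disj a ha'.1 b hb''.1 hne) ha'.2 hb''.2
        have h2 := Finset.card_filter_add_card_filter_not (s := P) (fun p => zs ∈ p)
        rw [hP']
        omega
      have hBR : B ⊆ R := by
        intro x hx
        exact Finset.mem_of_mem_insert_of_ne (hP.sub hx) fun e => hzB (e ▸ hx)
      have hb : Bar G g B P' := by
        refine ⟨?_, ?_, ?_, ?_, ?_⟩
        · rw [hRF]; exact hBR.trans Finset.subset_union_left
        · intro p hp x hx
          have hp' := Finset.mem_filter.1 hp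
          have h1 := Finset.mem_sdiff.1 (hP.oS p hp'.1 hx)
          have h2 : x ≠ zs := fun e => hp'.2 (e ▸ hx)
          rw [hRF]
          exact Finset.mem_sdiff.2 ⟨Finset.mem_union_left _ (Finset.mem_of_mem_insert_of_ne h1.1 h2), h1.2⟩
        · exact fun p hp => hP.odd p (Finset.mem_filter.1 hp).1
        · exact fun p hp p' hp' => hP.disj p (Finset.mem_filter.1 hp).1 p' (Finset.mem_filter.1 hp').1
        · intro p hp u hu v hv huv
          have hp' := Finset.mem_filter.1 hp
          have hu1 := Finset.mem_sdiff.1 (hP.oS p hp'.1 hu)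
          have hu2 : u ≠ zs := fun e => hp'.2 (e ▸ hu)
          have huR := Finset.mem_of_mem_insert_of_ne hu1.1 hu2
          rw [hRF, Finset.mem_sdiff, Finset.mem_union] at hv
          rcases hv.1 with hvR | hvF
          · exact hP.cl p hp'.1 u hu v (Finset.mem_sdiff.2 ⟨Finset.mem_insert_of_mem hvR, hv.2⟩)
              (hadj' u huR v hvR huv)
          · exfalso
            apply hp'.2
            exact hP.cl p hp'.1 u hu zs (Finset.mem_sdiff.2 ⟨Finset.mem_insert_self _ _, hzB⟩)
              ⟨hu2, Or.inr (Or.inr ⟨rfl, v, hvF, huv.symm⟩)⟩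
      rcases B.eq_empty_or_nonempty with h0 | h0
      · have h1 : 0 < P'.card := by omega
        obtain ⟨p, hp⟩ := Finset.card_pos.1 h1
        have hpg : p ⊆ g := fun x hx => (Finset.mem_sdiff.1 (hb.oS p hp hx)).1
        have h2 := hg.conn hpg (Finset.card_pos.1 (hb.odd p hp).pos) (fun u hu v hv huv =>
          hb.cl p hp u hu v (Finset.mem_sdiff.2 ⟨hv, by rw [h0]; simp⟩) huv)
        have h3 : zs ∈ p := by
          rw [h2, hRF]; exact Finset.mem_union_right _ hzs
        exact (Finset.mem_filter.1 hp).2 h3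
      · have h1 := hg.bar hb h0
        omega

end Pool.Agent.Helper74.TZ
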