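import Pool.Agent.Helper74.TZ.Leaf

set_option linter.unusedSectionVars false

namespace Pool.Agent.Helper74.TZ

variable {V : Type} [DecidableEq V] {G : SimpleGraph V}

theorem odd_split {A B : ℕ} (h : Odd (A + B)) (hB : Even B) : Odd A := by
  rcases Nat.even_or_odd A with h1 | h1
  · exact absurd (h1.add hB) (Nat.not_even_iff_odd.2 h)
  · exact h1

theorem leaf_step {K Z Q Z' T : Finset V} {O O' : Finset (Finset V)} {x0 : V} (hF : FC G K)
    (hN : NoCfg G K) (h : Cf G K Z O) (h2 : 2 ≤ Z.card) (hedge : ∃ a ∈ Z, ∃ b ∈ Z, G.Adj a b)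
    (hQ : Q ∈ O) (h' : Cf G K Z' O') (hTZ : T ⊆ Z') (hTri : Tri G T) (hbad : ¬ PM G (K \ T))
    (hx : x0 ∈ T) (hxQ : x0 ∈ Q) : ∃ Q' ∈ O', Q' ⊂ Q := by
  classical
  by_contra hcon
  push Not at hcon
  have hQK : Q ⊆ K := fun x hx => (Finset.mem_sdiff.1 (h.bar.oS Q hQ hx)).1
  have hQF := h.fc Q hQ
  have hZK := h.bar.sub
  have hZ'K := h'.bar.sub
  have hZQ : ∀ x ∈ Z, x ∉ Q := fun x hx hxQ => (Finset.mem_sdiff.1 (h.bar.oS Q hQ hxQ)).2 hx
  -- neighbours of Q outside Q lie in Z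
  have hnbQ : ∀ u ∈ Q, ∀ v ∈ K, v ∉ Q → G.Adj u v → v ∈ Z := by
    intro u hu v hv hvQ huv
    by_contra hvZ
    exact hvQ (h.bar.cl Q hQ u hu v (Finset.mem_sdiff.2 ⟨hv, hvZ⟩) huv)
  have hxK := hQK hxQ
  have hOK : ∀ p ∈ O', p ⊆ K := fun p hp x hx => (Finset.mem_sdiff.1 (h'.bar.oS p hp hx)).1
  have hOZ : ∀ p ∈ O', ∀ x ∈ p, x ∉ Z' := fun p hp x hx => (Finset.mem_sdiff.1 (h'.bar.oS p hp hx)).2
  -- perfect matchings of W = K \ Q
  have hPM2 : ∀ z ∈ Z, ∀ z' ∈ Z, z ≠ z' → PM G (((K \ Q).erase z).erase z') :=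
    fun z hz z' hz' hne => h.PM2 hF hN h2 hQ hz hz' hne
  have hPMW : PM G (K \ Q) := by
    obtain ⟨a, ha, b, hb, hab⟩ := hedge
    have h1 := (hPM2 a ha b hb hab.ne).add hab (by simp) (by simp)
    have e : insert a (insert b (((K \ Q).erase a).erase b)) = K \ Q := by
      have hb' : b ∈ (K \ Q).erase a :=
        Finset.mem_erase.2 ⟨hab.ne', Finset.mem_sdiff.2 ⟨hZK hb, hZQ b hb⟩⟩
      rw [Finset.insert_erase hb',
        Finset.insert_erase (Finset.mem_sdiff.2 ⟨hZK ha, hZQ a ha⟩)]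
    rwa [e] at h1
  -- members of O' meet W
  have hmeet : ∀ p ∈ O', ∃ w ∈ p, w ∉ Q := by
    intro p hp
    by_contra hc
    push Not at hc
    refine hcon p hp ⟨fun y hy => hc y hy, fun h3 => ?_⟩
    exact hOZ p hp x0 (h3 hxQ) (hTZ hx)
  -- case of a single vertex in Q
  have hcase1 : ∀ y ∈ T, y ≠ x0 → (∀ z ∈ T, z ≠ x0 → z ∉ Q) → False := by
    intro y hy hyx hall
    obtain ⟨z, hz, hzy⟩ : ∃ z ∈ (T.erase x0), z ≠ y := by
      have hc : 1 < (T.erase x0).card := by
        rw [Finset.card_erase_of_mem hx, hTri.1]; norm_num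
      obtain ⟨z, hz, hne⟩ := Finset.exists_mem_ne hc y
      exact ⟨z, hz, hne⟩
    have hz' := Finset.mem_erase.1 hz
    have hyZ : y ∈ Z := hnbQ x0 hxQ y (hZ'K (hTZ hy)) (hall y hy hyx) (hTri.2 x0 hx y hy hyx.symm)
    have hzZ : z ∈ Z := hnbQ x0 hxQ z (hZ'K (hTZ hz'.2)) (hall z hz'.2 hz'.1)
      (hTri.2 x0 hx z hz'.2 hz'.1.symm)
    have hTe : T = {x0, y, z} := by
      symm
      apply Finset.eq_of_subset_of_card_le
      · intro w hw
        simp only [Finset.mem_insert, Finset.mem_singleton] at hw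
        rcases hw with rfl | rfl | rfl
        · exact hx
        · exact hy
        · exact hz'.2
      · rw [hTri.1, Finset.card_eq_three.2 ⟨x0, y, z, hyx.symm, hz'.1.symm, hzy.symm, rfl⟩]
    apply hbad
    have e : K \ T = Q.erase x0 ∪ (((K \ Q).erase y).erase z) := by
      ext w
      simp only [hTe, Finset.mem_sdiff, Finset.mem_insert, Finset.mem_singleton, not_or,
        Finset.mem_union, Finset.mem_erase]
      constructor
      · rintro ⟨h3, h4, h5, h6⟩
        by_cases hw : w ∈ Q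
        · exact Or.inl ⟨h4, hw⟩
        · exact Or.inr ⟨h6, h5, h3, hw⟩
      · rintro (⟨h3, h4⟩ | ⟨h3, h4, h5, h6⟩)
        · exact ⟨hQK h4, h3, fun e => hZQ y hyZ (e ▸ h4), fun e => hZQ z hzZ (e ▸ h4)⟩
        · exact ⟨h5, fun e => h6 (e ▸ hxQ), h4, h3⟩
    rw [e]
    apply (hQF.2 x0 hxQ).union (hPM2 y hyZ z hzZ hzy.symm)
    rw [Finset.disjoint_left]
    intro w hw hw'
    simp only [Finset.mem_erase, Finset.mem_sdiff] at hw hw'
    exact hw'.2.2.2 hw.2
  -- the sets
  set X := Z' ∩ Q with hX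
  set U := Z' \ Q with hU
  have hxX : x0 ∈ X := Finset.mem_inter.2 ⟨hTZ hx, hxQ⟩
  have hXU : X.card + U.card = Z'.card := by
    rw [hX, hU]; exact Finset.card_inter_add_card_sdiff Z' Q
  set Od := O'.filter fun p => Odd (p ∩ (K \ Q)).card with hOd
  set Ev := O'.filter fun p => ¬ Odd (p ∩ (K \ Q)).card with hEv
  have hsum : Od.card + Ev.card = O'.card := by
    rw [hOd, hEv]; exact Finset.card_filter_add_card_filter_not _
  have hsplit : ∀ p ∈ O', (p ∩ Q).card + (p ∩ (K \ Q)).card = p.card := by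
    intro p hp
    rw [← Finset.card_inter_add_card_sdiff p Q]
    congr 2
    ext y
    simp only [Finset.mem_inter, Finset.mem_sdiff]
    exact ⟨fun h3 => ⟨h3.1, h3.2.2⟩, fun h3 => ⟨h3.1, hOK p hp h3.1, h3.2⟩⟩
  have hUW : U ⊆ K \ Q := fun y hy => by
    rw [hU, Finset.mem_sdiff] at hy
    exact Finset.mem_sdiff.2 ⟨hZ'K hy.1, hy.2⟩
  have hWU : (K \ Q) \ U ⊆ K \ Z' := by
    intro y hy
    rw [Finset.mem_sdiff, Finset.mem_sdiff, hU, Finset.mem_sdiff] at hy
    exact Finset.mem_sdiff.2 ⟨hy.1.1, fun h3 => hy.2 ⟨h3, hy.1.2⟩⟩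
  have c1 : Od.card ≤ U.card := by
    obtain ⟨h3, h4⟩ := h'.bar.inter (P := Od) (Finset.filter_subset _ _) hUW
      (Finset.sdiff_subset) hWU (fun p hp => (Finset.mem_filter.1 hp).2)
    rw [← h4]
    exact hPMW.bar h3
  have hEvodd : ∀ p ∈ Ev, Odd (p ∩ Q).card := by
    intro p hp
    have hp' := Finset.mem_filter.1 hp
    have h3 := h'.bar.odd p hp'.1
    rw [← hsplit p hp'.1] at h3
    exact odd_split h3 (Nat.not_odd_iff_even.1 hp'.2)
  have c2 : Ev.card + 1 ≤ X.card := by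
    obtain ⟨h3, h4⟩ := h'.bar.inter (P := Ev) (S := Q) (B := X) (Finset.filter_subset _ _)
      Finset.inter_subset_right Finset.inter_subset_left (by
        intro y hy
        rw [Finset.mem_sdiff, hX, Finset.mem_inter] at hy
        exact Finset.mem_sdiff.2 ⟨hQK hy.1, fun h3 => hy.2 ⟨h3, hy.1⟩⟩) hEvodd
    rw [← h4]
    exact hQF.bar h3 ⟨x0, hxX⟩
  have c3 := h'.card
  have hEvcard : Ev.card + 1 = X.card := by omega
  have hOdcard : Od.card = U.card := by omega
  -- vertices of Z in even members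
  have c4 : ∀ p ∈ Ev, ∃ z ∈ p, z ∉ Q ∧ z ∈ Z := by
    intro p hp
    have hp' := Finset.mem_filter.1 hp
    by_contra hc
    push Not at hc
    have h3 := (h'.fc p hp'.1).conn (A := p ∩ Q) Finset.inter_subset_left
      (Finset.card_pos.1 (hEvodd p hp).pos) (by
        intro u hu v hv huv
        rw [Finset.mem_inter] at hu ⊢
        refine ⟨hv, ?_⟩
        by_contra hvQ
        exact hc v hv hvQ (hnbQ u hu.2 v (hOK p hp'.1 hv) hvQ huv))
    obtain ⟨w, hw, hwQ⟩ := hmeet p hp'.1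
    rw [← h3] at hw
    exact hwQ (Finset.mem_inter.1 hw).2
  have c5 : Ev.card ≤ 1 := by
    rw [Finset.card_le_one]
    intro p hp q hq
    by_contra hne
    have hp' := Finset.mem_filter.1 hp
    have hq' := Finset.mem_filter.1 hq
    obtain ⟨z1, hz1, hz1Q, hz1Z⟩ := c4 p hp
    obtain ⟨z2, hz2, hz2Q, hz2Z⟩ := c4 q hq
    have hpq := h'.bar.disj p hp'.1 q hq'.1 hne
    have hz12 : z1 ≠ z2 := fun e => Finset.disjoint_left.1 hpq hz1 (e ▸ hz2)
    have h3 := hPM2 z1 hz1Z z2 hz2Z hz12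
    set S := ((K \ Q).erase z1).erase z2 with hS
    have hinter : ∀ o : Finset V, o ∩ S = ((o ∩ (K \ Q)).erase z1).erase z2 := by
      intro o
      ext y
      simp only [hS, Finset.mem_inter, Finset.mem_erase]
      tauto
    have h4 : ∀ o ∈ Od ∪ {p, q}, Odd (o ∩ S).card := by
      intro o ho
      rw [hinter]
      have hdis : ∀ o ∈ O', ∀ y, o ≠ p → y ∈ p → y ∉ o := fun o ho y hop hyp hyo =>
        Finset.disjoint_left.1 (h'.bar.disj o ho p hp'.1 hop) hyo hyp
      have hdis2 : ∀ o ∈ O', ∀ y, o ≠ q → y ∈ q → y ∉ o := fun o ho y hop hyp hyo =>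
        Finset.disjoint_left.1 (h'.bar.disj o ho q hq'.1 hop) hyo hyp
      rcases Finset.mem_union.1 ho with ho | ho
      · have ho' := Finset.mem_filter.1 ho
        have hop : o ≠ p := fun e => hp'.2 (e ▸ ho'.2)
        have hoq : o ≠ q := fun e => hq'.2 (e ▸ ho'.2)
        rw [Finset.erase_eq_of_notMem (fun h5 => hdis2 o ho'.1 z2 hoq hz2
            (Finset.mem_inter.1 (Finset.mem_of_mem_erase h5)).1),
          Finset.erase_eq_of_notMem (fun h5 => hdis o ho'.1 z1 hop hz1 (Finset.mem_inter.1 h5).1)]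
        exact ho'.2
      · have hev : ∀ o ∈ Ev, ∀ z ∈ o, z ∉ Q → Odd ((o ∩ (K \ Q)).erase z).card := by
          intro o ho z hz hzQ
          have ho' := Finset.mem_filter.1 ho
          have hmem : z ∈ o ∩ (K \ Q) :=
            Finset.mem_inter.2 ⟨hz, Finset.mem_sdiff.2 ⟨hOK o ho'.1 hz, hzQ⟩⟩
          rw [Finset.card_erase_of_mem hmem]
          have h5 := Nat.not_odd_iff_even.1 ho'.2
          have h6 : 0 < (o ∩ (K \ Q)).card := Finset.card_pos.2 ⟨z, hmem⟩
          obtain ⟨r, hr⟩ := h5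
          exact ⟨r - 1, by omega⟩
        rw [Finset.mem_insert, Finset.mem_singleton] at ho
        rcases ho with rfl | rfl
        · rw [Finset.erase_eq_of_notMem (fun h5 => Finset.disjoint_left.1 hpq
            (Finset.mem_inter.1 (Finset.mem_of_mem_erase h5)).1 hz2)]
          exact hev o hp z1 hz1 hz1Q
        · rw [Finset.erase_right_comm, Finset.erase_eq_of_notMem (fun h5 =>
            Finset.disjoint_left.1 hpq hz1 (Finset.mem_inter.1 (Finset.mem_of_mem_erase h5)).1)]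
          exact hev o hq z2 hz2 hz2Q
    have hz1Z' := hOZ p hp'.1 z1 hz1
    have hz2Z' := hOZ q hq'.1 z2 hz2
    obtain ⟨h5, h6⟩ := h'.bar.inter (P := Od ∪ {p, q}) (S := S) (B := U) (by
        intro o ho
        rcases Finset.mem_union.1 ho with ho | ho
        · exact (Finset.mem_filter.1 ho).1
        · rw [Finset.mem_insert, Finset.mem_singleton] at ho
          rcases ho with rfl | rfl
          · exact hp'.1
          · exact hq'.1) (by
        intro y hy
        have hyZ : y ∈ Z' := (Finset.mem_sdiff.1 hy).1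
        rw [hS, Finset.mem_erase, Finset.mem_erase]
        exact ⟨fun e => hz2Z' (e ▸ hyZ), fun e => hz1Z' (e ▸ hyZ), hUW hy⟩)
      Finset.sdiff_subset (by
        intro y hy
        rw [Finset.mem_sdiff, hS, Finset.mem_erase, Finset.mem_erase] at hy
        exact hWU (Finset.mem_sdiff.2 ⟨hy.1.2.2, hy.2⟩)) h4
    have h7 := h3.bar h5
    rw [h6, Finset.card_union_of_disjoint, Finset.card_pair hne] at h7
    · omega
    · rw [Finset.disjoint_left]
      intro o ho ho'
      have ho2 := (Finset.mem_filter.1 ho).2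
      rw [Finset.mem_insert, Finset.mem_singleton] at ho'
      rcases ho' with rfl | rfl
      · exact hp'.2 ho2
      · exact hq'.2 ho2
  -- now X has at most two elements
  have hTQ : ∀ y ∈ T, y ∈ Q → y ∈ X := fun y hy hyQ => Finset.mem_inter.2 ⟨hTZ hy, hyQ⟩
  obtain ⟨u', hu', hu'x, hu'Q⟩ : ∃ u' ∈ T, u' ≠ x0 ∧ u' ∈ Q := by
    by_contra hc
    push Not at hc
    obtain ⟨y, hy⟩ : (T.erase x0).Nonempty := by
      rw [← Finset.card_pos, Finset.card_erase_of_mem hx, hTri.1]; norm_num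
    have hy' := Finset.mem_erase.1 hy
    exact hcase1 y hy'.2 hy'.1 fun z hz hzx => hc z hz hzx
  have hXe : X = {x0, u'} := by
    symm
    apply Finset.eq_of_subset_of_card_le
    · intro w hw
      rw [Finset.mem_insert, Finset.mem_singleton] at hw
      rcases hw with rfl | rfl
      · exact hxX
      · exact hTQ w hu' hu'Q
    · rw [Finset.card_pair hu'x.symm]; omega
  have hX2 : X.card = 2 := by rw [hXe, Finset.card_pair hu'x.symm]
  obtain ⟨g, hgE⟩ : ∃ g, Ev = {g} := Finset.card_eq_one.1 (by omega)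
  have hg : g ∈ Ev := by rw [hgE]; exact Finset.mem_singleton_self _
  have hg' := Finset.mem_filter.1 hg
  obtain ⟨zs, hzs, hzsQ, hzsZ⟩ := c4 g hg
  -- the third vertex of T
  obtain ⟨z1, hz1, hz1ne⟩ : ∃ z1 ∈ T.erase x0, z1 ≠ u' := by
    have hc : 1 < (T.erase x0).card := by
      rw [Finset.card_erase_of_mem hx, hTri.1]; norm_num
    exact Finset.exists_mem_ne hc u'
  have hz1' := Finset.mem_erase.1 hz1
  have hz1Q : z1 ∉ Q := by
    intro h3
    have := hTQ z1 hz1'.2 h3
    rw [hXe, Finset.mem_insert, Finset.mem_singleton] at this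
    rcases this with h4 | h4
    · exact hz1'.1 h4
    · exact hz1ne h4
  have hz1Z' : z1 ∈ Z' := hTZ hz1'.2
  have hz1Z : z1 ∈ Z := hnbQ x0 hxQ z1 (hZ'K hz1Z') hz1Q (hTri.2 x0 hx z1 hz1'.2 hz1'.1.symm)
  have hTe : T = {x0, u', z1} := by
    symm
    apply Finset.eq_of_subset_of_card_le
    · intro w hw
      simp only [Finset.mem_insert, Finset.mem_singleton] at hw
      rcases hw with rfl | rfl | rfl
      · exact hx
      · exact hu'
      · exact hz1'.2
    · rw [hTri.1, Finset.card_eq_three.2 ⟨x0, u', z1, hu'x.symm, hz1'.1.symm, hz1ne.symm, rfl⟩]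
  set R := g ∩ Q with hR
  set F := g ∩ (K \ Q) with hFd
  have hgRF : g = R ∪ F := by
    ext y
    simp only [hR, hFd, Finset.mem_union, Finset.mem_inter, Finset.mem_sdiff]
    constructor
    · intro hy
      by_cases hyQ : y ∈ Q
      · exact Or.inl ⟨hy, hyQ⟩
      · exact Or.inr ⟨hy, hOK g hg'.1 hy, hyQ⟩
    · rintro (h3 | h3)
      · exact h3.1
      · exact h3.1
  have hRFd : Disjoint R F := by
    rw [Finset.disjoint_left]
    intro y hy hy'
    exact (Finset.mem_sdiff.1 (Finset.mem_inter.1 hy').2).2 (Finset.mem_inter.1 hy).2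
  have hRX : ∀ y ∈ R, y ∉ X := fun y hy hyX =>
    hOZ g hg'.1 y (Finset.mem_inter.1 hy).1 (Finset.mem_inter.1 hyX).1
  -- R is closed in Q \ X
  have hRcl : ∀ u ∈ R, ∀ v ∈ Q, v ∉ X → G.Adj u v → v ∈ R := by
    intro u hu v hv hvX huv
    rw [hR, Finset.mem_inter] at hu ⊢
    refine ⟨h'.bar.cl g hg'.1 u hu.1 v (Finset.mem_sdiff.2 ⟨hQK hv, fun h3 => hvX ?_⟩) huv, hv⟩
    exact Finset.mem_inter.2 ⟨h3, hv⟩
  obtain ⟨y, hyR, z, hzF, hyz, hRy⟩ := cross (h'.fc g hg'.1) hgRF hRFd (hEvodd g hg)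
    (Finset.mem_inter.2 ⟨hzs, Finset.mem_sdiff.2 ⟨hOK g hg'.1 hzs, hzsQ⟩⟩) (by
      intro B P hP
      have hb : Bar G Q (B ∪ X) P := by
        refine ⟨?_, ?_, hP.odd, hP.disj, ?_⟩
        · apply Finset.union_subset
          · exact hP.sub.trans Finset.inter_subset_right
          · exact Finset.inter_subset_right
        · intro p hp w hw
          have h3 := Finset.mem_sdiff.1 (hP.oS p hp hw)
          rw [Finset.mem_sdiff, Finset.mem_union, not_or]
          exact ⟨(Finset.mem_inter.1 h3.1).2, h3.2, hRX w h3.1⟩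
        · intro p hp u hu v hv huv
          rw [Finset.mem_sdiff, Finset.mem_union, not_or] at hv
          have h3 := Finset.mem_sdiff.1 (hP.oS p hp hu)
          exact hP.cl p hp u hu v (Finset.mem_sdiff.2 ⟨hRcl u h3.1 v hv.1 hv.2.2 huv, hv.2.1⟩) huv
      have h3 := hQF.bar hb ⟨x0, Finset.mem_union_right _ hxX⟩
      have h4 := Finset.card_union_le B X
      omega)
  have hyQ : y ∈ Q := (Finset.mem_inter.1 hyR).2
  have hzK := Finset.mem_sdiff.1 (Finset.mem_inter.1 hzF).2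
  have hzZ : z ∈ Z := hnbQ y hyQ z hzK.1 hzK.2 hyz
  have hz1z : z1 ≠ z := fun e => hOZ g hg'.1 z (Finset.mem_inter.1 hzF).1 (e ▸ hz1Z')
  -- the remaining part of Q
  have hrest : PM G ((Q \ X) \ R) := by
    obtain ⟨v, hv, huv, hpm⟩ := (hQF.2 x0 hxQ).partner (v := u')
      (Finset.mem_erase.2 ⟨hu'x, hu'Q⟩)
    have hvR : v ∈ R := by
      by_contra hvR
      have h3 : PM G R := by
        apply hpm.sub
        · intro w hw
          rw [Finset.mem_erase, Finset.mem_erase, Finset.mem_erase]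
          refine ⟨fun e => hvR (e ▸ hw), fun e => ?_, fun e => ?_, (Finset.mem_inter.1 hw).2⟩
          · exact hRX w hw (by rw [e, hXe]; simp)
          · exact hRX w hw (by rw [e]; exact hxX)
        · intro a ha b hb hab
          rw [Finset.mem_erase, Finset.mem_erase, Finset.mem_erase] at hb
          refine hRcl a ha b hb.2.2.2 (fun h4 => ?_) hab
          rw [hXe, Finset.mem_insert, Finset.mem_singleton] at h4
          rcases h4 with h4 | h4
          · exact hb.2.2.1 h4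
          · exact hb.2.1 h4
      exact Nat.not_even_iff_odd.2 (hEvodd g hg) h3.even
    apply hpm.sub
    · intro w hw
      rw [Finset.mem_sdiff, Finset.mem_sdiff] at hw
      rw [Finset.mem_erase, Finset.mem_erase, Finset.mem_erase]
      refine ⟨fun e => hw.2 (e ▸ hvR), fun e => ?_, fun e => ?_, hw.1.1⟩
      · exact hw.1.2 (by rw [e, hXe]; simp)
      · exact hw.1.2 (by rw [e]; exact hxX)
    · intro a ha b hb hab
      rw [Finset.mem_sdiff, Finset.mem_sdiff] at ha ⊢
      rw [Finset.mem_erase, Finset.mem_erase, Finset.mem_erase] at hb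
      refine ⟨⟨hb.2.2.2, fun h4 => ?_⟩, fun h4 => ?_⟩
      · rw [hXe, Finset.mem_insert, Finset.mem_singleton] at h4
        rcases h4 with h4 | h4
        · exact hb.2.2.1 h4
        · exact hb.2.1 h4
      · exact ha.2 (hRcl b h4 a ha.1.1 ha.1.2 hab.symm)
  -- assemble
  apply hbad
  have hyX := hRX y hyR
  have e : K \ T = ((R.erase y ∪ ((Q \ X) \ R)) ∪ {y, z}) ∪ (((K \ Q).erase z1).erase z) := by
    ext w
    simp only [hTe, Finset.mem_sdiff, Finset.mem_insert, Finset.mem_singleton, not_or,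
      Finset.mem_union, Finset.mem_erase, hXe]
    constructor
    · rintro ⟨h3, h4, h5, h6⟩
      by_cases hwQ : w ∈ Q
      · by_cases hwy : w = y
        · exact Or.inl (Or.inr (Or.inl hwy))
        · by_cases hwR : w ∈ R
          · exact Or.inl (Or.inl (Or.inl ⟨hwy, hwR⟩))
          · exact Or.inl (Or.inl (Or.inr ⟨⟨hwQ, h4, h5⟩, hwR⟩))
      · by_cases hwz : w = z
        · exact Or.inl (Or.inr (Or.inr hwz))
        · exact Or.inr ⟨hwz, h6, h3, hwQ⟩
    · rintro (((⟨h3, h4⟩ | ⟨⟨h3, h4, h5⟩, h6⟩) | (h3 | h3)) | ⟨h3, h4, h5, h6⟩)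
      · have h5 := hRX w h4
        have h6 := (Finset.mem_inter.1 h4).2
        rw [hXe, Finset.mem_insert, Finset.mem_singleton, not_or] at h5
        exact ⟨hQK h6, h5.1, h5.2, fun e => hz1Q (e ▸ h6)⟩
      · exact ⟨hQK h3, h4, h5, fun e => hz1Q (e ▸ h3)⟩
      · have h5 := hyX
        rw [hXe, Finset.mem_insert, Finset.mem_singleton, not_or] at h5
        rw [h3]
        exact ⟨hQK hyQ, h5.1, h5.2, fun e => hz1Q (e ▸ hyQ)⟩
      · rw [h3]
        exact ⟨hzK.1, fun e => hzK.2 (e ▸ hxQ), fun e => hzK.2 (e ▸ hu'Q), hz1z.symm⟩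
      · exact ⟨h5, fun e => h6 (e ▸ hxQ), fun e => h6 (e ▸ hu'Q), h4⟩
  rw [e]
  apply PM.union _ (hPM2 z1 hz1Z z hzZ hz1z)
  · rw [Finset.disjoint_left]
    intro w hw hw'
    simp only [Finset.mem_erase, Finset.mem_sdiff, Finset.mem_union, Finset.mem_insert,
      Finset.mem_singleton] at hw hw'
    rcases hw with (hw | hw) | (hw | hw)
    · exact hw'.2.2.2 (Finset.mem_inter.1 hw.2).2
    · exact hw'.2.2.2 hw.1.1
    · exact hw'.2.2.2 (hw ▸ hyQ)
    · exact hw'.1 hw
  · apply PM.union _ (PM_pair hyz)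
    · rw [Finset.disjoint_left]
      intro w hw hw'
      simp only [Finset.mem_erase, Finset.mem_sdiff, Finset.mem_union, Finset.mem_insert,
        Finset.mem_singleton] at hw hw'
      rcases hw with hw | hw
      · rcases hw' with hw' | hw'
        · exact hw.1 hw'
        · exact hzK.2 (hw' ▸ (Finset.mem_inter.1 hw.2).2)
      · rcases hw' with hw' | hw'
        · exact hw.2 (hw' ▸ hyR)
        · exact hzK.2 (hw' ▸ hw.1.1)
    · apply hRy.union hrest
      rw [Finset.disjoint_left]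
      intro w hw hw'
      exact (Finset.mem_sdiff.1 hw').2 (Finset.mem_of_mem_erase hw)

end Pool.Agent.Helper74.TZ
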