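import Pool.Agent.Helper74.TZ.Hal

set_option linter.unusedSectionVars false

namespace Pool.Agent.Helper74.TZ

variable {V : Type} [DecidableEq V] {G : SimpleGraph V}

/-- every configuration is full -/
def NoCfg (G : SimpleGraph V) (K : Finset V) : Prop :=
  ∀ C O, Bar G K C O → O.card + 1 = C.card → 2 ≤ C.card → K ⊆ C ∪ un O

/-- configurations with factor-critical members -/
structure Cf (G : SimpleGraph V) (K Z : Finset V) (O : Finset (Finset V)) : Prop where
  bar : Bar G K Z O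
  card : O.card + 1 = Z.card
  fc : ∀ o ∈ O, FC G o

theorem Cf.extend {K : Finset V} (hF : FC G K) : ∀ (n : ℕ) (Z : Finset V) (O : Finset (Finset V)),
    K.card - Z.card = n → Bar G K Z O → O.card + 1 = Z.card →
    ∃ Z' O', Z ⊆ Z' ∧ Cf G K Z' O' := by
  intro n
  induction n using Nat.strong_induction_on with
  | _ n ih =>
    intro Z O hn hb hc
    by_cases hall : ∀ o ∈ O, FC G o
    · exact ⟨Z, O, Finset.Subset.refl _, hb, hc, hall⟩
    push Not at hall
    obtain ⟨o, ho, hno⟩ := hall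
    obtain ⟨v, A, P, hv, hP, hcP⟩ := hb.split_exists ho hno
    obtain ⟨h1, h2, h3, -⟩ := hb.split ho hv hP
    have h4 : 1 ≤ O.card := Finset.card_pos.2 ⟨o, ho⟩
    have h5 : (Z ∪ insert v A).Nonempty := ⟨v, by simp⟩
    have h6 := hF.bar h1 h5
    have h7 : (Z ∪ insert v A).card ≤ K.card := Finset.card_le_card h1.sub
    obtain ⟨Z', O', h8, h9⟩ := ih (K.card - (Z ∪ insert v A).card) (by omega) _ _ rfl h1 (by omega)
    exact ⟨Z', O', Finset.subset_union_left.trans h8, h9⟩

/-- bad triangles lie in configurations -/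
theorem Cf.exists_of_bad {K T : Finset V} (hF : FC G K) (hT : T ⊆ K) (h3 : T.card = 3)
    (hbad : ¬ PM G (K \ T)) : ∃ Z O, T ⊆ Z ∧ Cf G K Z O := by
  have he : Even (K \ T).card := by
    rw [Finset.card_sdiff_of_subset hT, h3]
    obtain ⟨r, hr⟩ := hF.odd
    have : 3 ≤ K.card := h3 ▸ Finset.card_le_card hT
    exact ⟨r - 1, by omega⟩
  obtain ⟨B, P, hP, hc⟩ := tutte_set he hbad
  have hTB : Disjoint T B := by
    rw [Finset.disjoint_left]
    exact fun x hx hx' => (Finset.mem_sdiff.1 (hP.sub hx')).2 hx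
  have hb : Bar G K (T ∪ B) P := by
    have e : K \ (T ∪ B) = (K \ T) \ B := by
      ext x
      simp only [Finset.mem_sdiff, Finset.mem_union, not_or, and_assoc]
    refine ⟨Finset.union_subset hT (hP.sub.trans Finset.sdiff_subset), ?_, hP.odd, hP.disj, ?_⟩
    · rw [e]; exact hP.oS
    · rw [e]; exact hP.cl
  have hcard : (T ∪ B).card = B.card + 3 := by
    rw [Finset.card_union_of_disjoint hTB, h3, Nat.add_comm]
  have hne : (T ∪ B).Nonempty := by
    rw [← Finset.card_pos]; omega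
  have h1 := hF.bar hb hne
  obtain ⟨Z, O, h2, h4⟩ := Cf.extend hF _ (T ∪ B) P rfl hb (by omega)
  exact ⟨Z, O, Finset.subset_union_left.trans h2, h4⟩

theorem Cf.strict {K Z : Finset V} {O S : Finset (Finset V)} (hF : FC G K) (hN : NoCfg G K)
    (h : Cf G K Z O) (hS : S ⊆ O) (hne : S.Nonempty) (hSO : S ≠ O) :
    S.card + 2 ≤ (nb G Z S).card := by
  have hZ : Z.Nonempty := by rw [← Finset.card_pos, ← h.card]; omega
  have h1 := hF.nb_card h.bar hZ hS hne
  have hS1 := Finset.card_pos.2 hne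
  by_contra hcon
  have h2 := hN _ _ (h.bar.nbr hS) (by omega) (by omega)
  obtain ⟨o, ho, hoS⟩ : ∃ o ∈ O, o ∉ S := by
    by_contra hc
    push Not at hc
    exact hSO (Finset.Subset.antisymm hS hc)
  obtain ⟨x, hx⟩ := (h.fc o ho).1
  have h3 := Finset.mem_sdiff.1 (h.bar.oS o ho hx)
  rcases Finset.mem_union.1 (h2 h3.1) with h4 | h4
  · exact h3.2 (nb_sub _ _ h4)
  · obtain ⟨o', ho', hx'⟩ := mem_un.1 h4
    have hne' : o ≠ o' := fun e => hoS (e ▸ ho')
    exact Finset.disjoint_left.1 (h.bar.disj o ho o' (hS ho') hne') hx hx'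

theorem Cf.un_eq {K Z : Finset V} {O : Finset (Finset V)} (hN : NoCfg G K)
    (h : Cf G K Z O) (h2 : 2 ≤ Z.card) : K = Z ∪ un O := by
  apply Finset.Subset.antisymm (hN _ _ h.bar h.card h2)
  apply Finset.union_subset h.bar.sub
  intro x hx
  obtain ⟨o, ho, hx⟩ := mem_un.1 hx
  exact (Finset.mem_sdiff.1 (h.bar.oS o ho hx)).1

/-- restriction of a barrier family to a smaller set -/
theorem Bar.inter {K C S B : Finset V} {O P : Finset (Finset V)} (hb : Bar G K C O) (hP : P ⊆ O)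
    (hBS : B ⊆ S) (hBC : B ⊆ C) (hSB : S \ B ⊆ K \ C) (hodd : ∀ p ∈ P, Odd (p ∩ S).card) :
    Bar G S B (P.image fun p => p ∩ S) ∧ (P.image fun p => p ∩ S).card = P.card := by
  refine ⟨⟨hBS, ?_, ?_, ?_, ?_⟩, ?_⟩
  · intro o ho x hx
    obtain ⟨p, hp, rfl⟩ := Finset.mem_image.1 ho
    rw [Finset.mem_inter] at hx
    exact Finset.mem_sdiff.2 ⟨hx.2, fun h1 => (Finset.mem_sdiff.1 (hb.oS p (hP hp) hx.1)).2 (hBC h1)⟩
  · intro o ho
    obtain ⟨p, hp, rfl⟩ := Finset.mem_image.1 ho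
    exact hodd p hp
  · intro o ho o' ho' hne
    obtain ⟨p, hp, rfl⟩ := Finset.mem_image.1 ho
    obtain ⟨p', hp', rfl⟩ := Finset.mem_image.1 ho'
    have h1 : p ≠ p' := fun e => hne (by rw [e])
    exact (hb.disj p (hP hp) p' (hP hp') h1).mono Finset.inter_subset_left Finset.inter_subset_left
  · intro o ho u hu v hv huv
    obtain ⟨p, hp, rfl⟩ := Finset.mem_image.1 ho
    rw [Finset.mem_inter] at hu ⊢
    exact ⟨hb.cl p (hP hp) u hu.1 v (hSB hv) huv, (Finset.mem_sdiff.1 hv).1⟩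
  · apply Finset.card_image_of_injOn
    intro p hp p' hp' e
    by_contra hne
    obtain ⟨x, hx⟩ := Finset.card_pos.1 (hodd p hp).pos
    have hx' : x ∈ p' ∩ S := by
      have : p ∩ S = p' ∩ S := e
      rw [← this]; exact hx
    exact Finset.disjoint_left.1 (hb.disj p (hP hp) p' (hP hp') hne) (Finset.mem_inter.1 hx).1
      (Finset.mem_inter.1 hx').1

/-- perfect matching of the complement of a member and two vertices of `Z` -/
theorem Cf.PM2 {K Z Q : Finset V} {O : Finset (Finset V)} (hF : FC G K) (hN : NoCfg G K)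
    (h : Cf G K Z O) (h2 : 2 ≤ Z.card) (hQ : Q ∈ O) {z z' : V} (hz : z ∈ Z) (hz' : z' ∈ Z)
    (hne : z ≠ z') : PM G (((K \ Q).erase z).erase z') := by
  have hK := h.un_eq hN h2
  have hzQ : ∀ x ∈ Z, ∀ o ∈ O, x ∉ o := fun x hx o ho hxo =>
    (Finset.mem_sdiff.1 (h.bar.oS o ho hxo)).2 hx
  have e : ((K \ Q).erase z).erase z' = ((Z.erase z).erase z') ∪ un (O.erase Q) := by
    ext x
    simp only [Finset.mem_erase, Finset.mem_sdiff, Finset.mem_union, mem_un]
    constructor
    · rintro ⟨h3, h4, h5, h6⟩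
      rw [hK, Finset.mem_union, mem_un] at h5
      rcases h5 with h5 | ⟨o, ho, hx⟩
      · exact Or.inl ⟨h3, h4, h5⟩
      · exact Or.inr ⟨o, ⟨fun e => h6 (e ▸ hx), ho⟩, hx⟩
    · rintro (⟨h3, h4, h5⟩ | ⟨o, ⟨h3, h4⟩, h5⟩)
      · exact ⟨h3, h4, h.bar.sub h5, hzQ x h5 Q hQ⟩
      · refine ⟨fun e => hzQ z' hz' o h4 (e ▸ h5), fun e => hzQ z hz o h4 (e ▸ h5), ?_, ?_⟩
        · exact (Finset.mem_sdiff.1 (h.bar.oS o h4 h5)).1
        · exact fun h6 => Finset.disjoint_left.1 (h.bar.disj o h4 Q hQ h3) h5 h6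
  rw [e]
  have hz2 : z' ∈ Z.erase z := Finset.mem_erase.2 ⟨hne.symm, hz'⟩
  apply hall_PM
  · exact fun o ho o' ho' => h.bar.disj o (Finset.mem_of_mem_erase ho) o' (Finset.mem_of_mem_erase ho')
  · intro o ho
    rw [Finset.disjoint_left]
    exact fun x hx => hzQ x (Finset.mem_of_mem_erase (Finset.mem_of_mem_erase hx)) o
      (Finset.mem_of_mem_erase ho)
  · exact fun o ho => h.fc o (Finset.mem_of_mem_erase ho)
  · rw [Finset.card_erase_of_mem hz2, Finset.card_erase_of_mem hz, Finset.card_erase_of_mem hQ]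
    have := h.card
    omega
  · intro S hS
    rcases S.eq_empty_or_nonempty with h0 | h0
    · subst h0; simp
    have hSO : S ⊆ O := hS.trans (Finset.erase_subset _ _)
    have h3 := h.strict hF hN hSO h0 (fun e => by
      rw [e] at hS
      exact (Finset.mem_erase.1 (hS hQ)).1 rfl)
    have h4 : ((nb G Z S).erase z).erase z' ⊆ nb G ((Z.erase z).erase z') S := by
      intro x hx
      rw [Finset.mem_erase, Finset.mem_erase, mem_nb] at hx
      rw [mem_nb, Finset.mem_erase, Finset.mem_erase]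
      exact ⟨⟨hx.1, hx.2.1, hx.2.2.1⟩, hx.2.2.2⟩
    have h5 := Finset.card_le_card h4
    have h6 := Finset.pred_card_le_card_erase (s := nb G Z S) (a := z)
    have h7 := Finset.pred_card_le_card_erase (s := (nb G Z S).erase z) (a := z')
    omega

end Pool.Agent.Helper74.TZ
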