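import Pool.Agent.Helper74.TZ.Leaf2

set_option linter.unusedSectionVars false

namespace Pool.Agent.Helper74.TZ

variable {V : Type} [DecidableEq V] {G : SimpleGraph V}

theorem Tri.edge {T : Finset V} (h : Tri G T) : ∃ a ∈ T, ∃ b ∈ T, G.Adj a b := by
  obtain ⟨a, ha, b, hb, hab⟩ := Finset.one_lt_card.1 (by rw [h.1]; norm_num : 1 < T.card)
  exact ⟨a, ha, b, hb, h.2 a ha b hb hab⟩

theorem min_leaf {K : Finset V} (hF : FC G K) (hN : NoCfg G K) : ∀ (n : ℕ) (Z Q : Finset V)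
    (O : Finset (Finset V)), Q.card = n → Cf G K Z O → 2 ≤ Z.card →
    (∃ a ∈ Z, ∃ b ∈ Z, G.Adj a b) → Q ∈ O → ∃ Q' ⊆ Q, Q'.Nonempty ∧ Odd Q'.card ∧
      ∀ T ⊆ K, Tri G T → ¬ PM G (K \ T) → Disjoint T Q' := by
  intro n
  induction n using Nat.strong_induction_on with
  | _ n ih =>
    intro Z Q O hn h h2 hed hQ
    by_cases hall : ∀ T ⊆ K, Tri G T → ¬ PM G (K \ T) → Disjoint T Q
    · exact ⟨Q, Finset.Subset.refl _, (h.fc Q hQ).1, h.bar.odd Q hQ, hall⟩
    push Not at hall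
    obtain ⟨T, hT, hTri, hbad, hd⟩ := hall
    rw [Finset.not_disjoint_iff] at hd
    obtain ⟨x, hx, hxQ⟩ := hd
    obtain ⟨Z', O', hTZ, h'⟩ := Cf.exists_of_bad hF hT hTri.1 hbad
    obtain ⟨Q', hQ', hlt⟩ := leaf_step hF hN h h2 hed hQ h' hTZ hTri hbad hx hxQ
    obtain ⟨a, ha, b, hb, hab⟩ := hTri.edge
    have h3 : 2 ≤ Z'.card := by
      have := Finset.card_le_card hTZ
      rw [hTri.1] at this
      omega
    obtain ⟨Q'', h4, h5⟩ := ih Q'.card (by rw [← hn]; exact Finset.card_lt_card hlt) Z' Q' O' rfl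
      h' h3 ⟨a, hTZ ha, b, hTZ hb, hab⟩ hQ'
    exact ⟨Q'', h4.trans hlt.1, h5⟩

theorem phi_neg_third : phi (-1 / 3) = -2 / 9 := by
  unfold phi
  rw [max_eq_right (by norm_num)]; norm_num

theorem phi_third : phi (1 / 3) = 1 / 3 := by
  unfold phi
  rw [max_eq_left (by norm_num)]

theorem phi_zero : phi 0 = 0 := by
  unfold phi
  norm_num

/-- value on a leaf -/
def lv (n : ℕ) : ℚ := if n = 1 then -1 / 3 else 0

theorem lv_bound (n : ℕ) (h : Odd n) : (n : ℚ) * phi (lv n) ≤ n / 3 - 5 / 9 ∧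
    (n : ℚ) * lv n ≤ n / 3 - 2 / 3 := by
  unfold lv
  split_ifs with h1
  · subst h1
    rw [phi_neg_third]
    norm_num
  · have h3 : 3 ≤ n := by
      obtain ⟨r, hr⟩ := h
      omega
    have h4 : (3 : ℚ) ≤ n := by exact_mod_cast h3
    rw [phi_zero]
    constructor <;> linarith

theorem lv_range (n : ℕ) : -1 / 3 ≤ lv n ∧ lv n ≤ 0 := by
  unfold lv
  split_ifs <;> norm_num

theorem prim {K : Finset V} (hF : FC G K) (hN : NoCfg G K) (hT : ∃ T ⊆ K, Tri G T ∧ ¬ PM G (K \ T)) :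
    ∃ p, Pot G K p ∧ (∀ v ∈ K, -1 / 3 ≤ p v) ∧ ∑ v ∈ K, p v ≤ K.card / 3 - 4 / 3 := by
  classical
  obtain ⟨T0, hT0, hTri0, hbad0⟩ := hT
  obtain ⟨Z, O, hTZ, h⟩ := Cf.exists_of_bad hF hT0 hTri0.1 hbad0
  obtain ⟨a, ha, b, hb, hab⟩ := hTri0.edge
  have h3 : 3 ≤ Z.card := by
    have := Finset.card_le_card hTZ
    rwa [hTri0.1] at this
  have hed : ∃ a ∈ Z, ∃ b ∈ Z, G.Adj a b := ⟨a, hTZ ha, b, hTZ hb, hab⟩
  have hO : 1 < O.card := by
    have := h.card
    omega
  obtain ⟨Q1, hQ1, Q2, hQ2, hne⟩ := Finset.one_lt_card.1 hO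
  obtain ⟨A, hA, hAne, hAodd, hAT⟩ := min_leaf hF hN _ Z Q1 O rfl h (by omega) hed hQ1
  obtain ⟨B, hB, hBne, hBodd, hBT⟩ := min_leaf hF hN _ Z Q2 O rfl h (by omega) hed hQ2
  have hdis : Disjoint A B := (h.bar.disj Q1 hQ1 Q2 hQ2 hne).mono hA hB
  have hAK : A ⊆ K := fun x hx => (Finset.mem_sdiff.1 (h.bar.oS Q1 hQ1 (hA hx))).1
  have hBK : B ⊆ K := fun x hx => (Finset.mem_sdiff.1 (h.bar.oS Q2 hQ2 (hB hx))).1
  have hAB : ∀ x ∈ A, ∀ y ∈ B, ¬ G.Adj x y := by
    intro x hx y hy hxy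
    have h4 := h.bar.cl Q1 hQ1 x (hA hx) y (h.bar.oS Q2 hQ2 (hB hy)) hxy
    exact Finset.disjoint_left.1 (h.bar.disj Q1 hQ1 Q2 hQ2 hne) h4 (hB hy)
  set p : V → ℚ := fun v => if v ∈ A then lv A.card else if v ∈ B then lv B.card else 1 / 3 with hp
  have pA : ∀ v ∈ A, p v = lv A.card := fun v hv => by simp only [hp, if_pos hv]
  have pB : ∀ v ∈ B, p v = lv B.card := fun v hv => by
    simp only [hp, if_neg (Finset.disjoint_right.1 hdis hv), if_pos hv]
  have pC : ∀ v, v ∉ A → v ∉ B → p v = 1 / 3 := fun v h4 h5 => by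
    simp only [hp, if_neg h4, if_neg h5]
  have hlo : ∀ v, -1 / 3 ≤ p v := by
    intro v
    by_cases h4 : v ∈ A
    · rw [pA v h4]; exact (lv_range _).1
    · by_cases h5 : v ∈ B
      · rw [pB v h5]; exact (lv_range _).1
      · rw [pC v h4 h5]; norm_num
  have hhi : ∀ v, p v ≤ 1 / 3 := by
    intro v
    by_cases h4 : v ∈ A
    · rw [pA v h4]; exact (lv_range _).2.trans (by norm_num)
    · by_cases h5 : v ∈ B
      · rw [pB v h5]; exact (lv_range _).2.trans (by norm_num)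
      · rw [pC v h4 h5]
  -- the sum formulas
  have hsum : ∀ f : ℚ → ℚ, ∑ v ∈ K, f (p v) = A.card * f (lv A.card) + B.card * f (lv B.card) +
      (K.card - A.card - B.card) * f (1 / 3) := by
    intro f
    have e1 : ∑ v ∈ K, f (p v) = ∑ v ∈ K \ (A ∪ B), f (p v) + ∑ v ∈ A ∪ B, f (p v) :=
      (Finset.sum_sdiff (Finset.union_subset hAK hBK)).symm
    have e2 : ∑ v ∈ A ∪ B, f (p v) = A.card * f (lv A.card) + B.card * f (lv B.card) := by
      rw [Finset.sum_union hdis, Finset.sum_congr rfl fun v hv => by rw [pA v hv],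
        Finset.sum_congr (rfl : B = B) fun v hv => by rw [pB v hv], Finset.sum_const,
        Finset.sum_const, nsmul_eq_mul, nsmul_eq_mul]
    have e3 : ∑ v ∈ K \ (A ∪ B), f (p v) = (K.card - A.card - B.card) * f (1 / 3) := by
      have e4 : ∑ v ∈ K \ (A ∪ B), f (p v) = ∑ v ∈ K \ (A ∪ B), f (1 / 3) := by
        refine Finset.sum_congr rfl fun v hv => ?_
        rw [Finset.mem_sdiff, Finset.mem_union, not_or] at hv
        rw [pC v hv.2.1 hv.2.2]
      rw [e4, Finset.sum_const, nsmul_eq_mul,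
        Finset.cast_card_sdiff (Finset.union_subset hAK hBK), Finset.card_union_of_disjoint hdis]
      push_cast
      ring
    rw [e1, e2, e3]
    ring
  have hbA := lv_bound _ hAodd
  have hbB := lv_bound _ hBodd
  refine ⟨p, ⟨fun v _ => (by norm_num : (-1 : ℚ) ≤ -1 / 3).trans (hlo v),
    fun v _ => (hhi v).trans (by norm_num), ?_, ?_, ?_⟩, fun v _ => hlo v, ?_⟩
  · -- edges
    have key : ∀ u v, G.Adj u v → p u < 0 → p v = 1 / 3 := by
      intro u v huv hu
      have hcase : (u ∈ A ∧ A.card = 1) ∨ (u ∈ B ∧ B.card = 1) := by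
        by_cases h4 : u ∈ A
        · rw [pA u h4, lv] at hu
          by_cases h5 : A.card = 1
          · exact Or.inl ⟨h4, h5⟩
          · rw [if_neg h5] at hu; exact absurd hu (lt_irrefl _)
        · by_cases h6 : u ∈ B
          · rw [pB u h6, lv] at hu
            by_cases h5 : B.card = 1
            · exact Or.inr ⟨h6, h5⟩
            · rw [if_neg h5] at hu; exact absurd hu (lt_irrefl _)
          · rw [pC u h4 h6] at hu; norm_num at hu
      rcases hcase with ⟨h4, h5⟩ | ⟨h4, h5⟩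
      · apply pC
        · intro h6
          have := Finset.card_le_one.1 h5.le u h4 v h6
          exact huv.ne this
        · exact fun h6 => hAB u h4 v h6 huv
      · apply pC
        · exact fun h6 => hAB v h6 u h4 huv.symm
        · intro h6
          have := Finset.card_le_one.1 h5.le u h4 v h6
          exact huv.ne this
    intro u _ v _ huv
    by_cases h4 : p u < 0
    · rw [key u v huv h4]; linarith [hlo u]
    · by_cases h5 : p v < 0
      · rw [key v u huv.symm h5]; linarith [hlo v]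
      · push Not at h4 h5
        linarith
  · -- triangles
    intro T hT hTri hbad
    have h4 := hAT T hT hTri hbad
    have h5 := hBT T hT hTri hbad
    rw [Finset.sum_congr rfl fun v hv => pC v (Finset.disjoint_left.1 h4 hv)
      (Finset.disjoint_left.1 h5 hv), Finset.sum_const, hTri.1]
    norm_num
  · rw [hsum phi, phi_third]
    linarith [hbA.1, hbB.1]
  · have := hsum id
    simp only [id] at this
    rw [this]
    linarith [hbA.2, hbB.2]

end Pool.Agent.Helper74.TZ
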