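import Pool.Agent.Helper74.TZ.Prm2

set_option linter.unusedSectionVars false

namespace Pool.Agent.Helper74.TZ

variable {V : Type} [DecidableEq V] {G : SimpleGraph V}

/-- a minimal configuration which is not full -/
structure Std (G : SimpleGraph V) (K C : Finset V) (O : Finset (Finset V)) (E : Finset V) : Prop where
  bar : Bar G K C O
  card : O.card + 1 = C.card
  two : 2 ≤ C.card
  hE : E = K \ (C ∪ un O)
  ne : E.Nonempty
  fc : ∀ o ∈ O, FC G o
  str : ∀ S ⊆ O, S.Nonempty → S ≠ O → S.card + 2 ≤ (nb G C S).card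

theorem std_exists {K : Finset V} (hF : FC G K) (hN : ¬ NoCfg G K) : ∃ C O E, Std G K C O E := by
  classical
  unfold NoCfg at hN
  push Not at hN
  obtain ⟨C0, O0, hb0, hc0, h20, hK0⟩ := hN
  let P : Set (Finset V × Finset (Finset V)) := {x | Bar G K x.1 x.2 ∧ x.2.card + 1 = x.1.card ∧
    2 ≤ x.1.card ∧ ¬ K ⊆ x.1 ∪ un x.2}
  let f : Finset V × Finset (Finset V) → ℕ := fun x =>
    (x.1 ∪ un x.2).card * (K.card + 1) + (K.card - x.1.card)
  obtain ⟨⟨C, O⟩, ⟨hb, hc, h2, hK⟩, hmin⟩ := (measure f).wf.has_min P ⟨(C0, O0), hb0, hc0, h20, hK0⟩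
  simp only at hb hc h2 hK
  have hCn : C.Nonempty := by rw [← Finset.card_pos]; omega
  have hCK : C.card ≤ K.card := Finset.card_le_card hb.sub
  refine ⟨C, O, K \ (C ∪ un O), hb, hc, h2, rfl, ?_, ?_, ?_⟩
  · rw [Finset.nonempty_iff_ne_empty, Ne, Finset.sdiff_eq_empty_iff_subset]
    exact hK
  · intro o ho
    by_contra hno
    obtain ⟨v, A, Q, hv, hQ, hcQ⟩ := hb.split_exists ho hno
    obtain ⟨h3, h4, h5, h6⟩ := hb.split ho hv hQ
    have h7 : 1 ≤ O.card := Finset.card_pos.2 ⟨o, ho⟩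
    have h8 : (C ∪ insert v A).Nonempty := ⟨v, by simp⟩
    have h9 := hF.bar h3 h8
    have h10 : (C ∪ insert v A).card ≤ K.card := Finset.card_le_card h3.sub
    refine hmin (C ∪ insert v A, O.erase o ∪ Q) ⟨h3, ?_, ?_, ?_⟩ ?_
    · show (O.erase o ∪ Q).card + 1 = (C ∪ insert v A).card
      omega
    · show 2 ≤ (C ∪ insert v A).card
      omega
    · exact fun h11 => hK (h11.trans h6)
    · show (C ∪ insert v A ∪ un (O.erase o ∪ Q)).card * (K.card + 1) +
        (K.card - (C ∪ insert v A).card) < (C ∪ un O).card * (K.card + 1) + (K.card - C.card)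
      have h11 := Nat.mul_le_mul_right (K.card + 1) (Finset.card_le_card h6)
      omega
  · intro S hS hSn hSO
    by_contra hcon
    have h3 := hF.nb_card hb hCn hS hSn
    have h4 := Finset.card_pos.2 hSn
    obtain ⟨o, ho, hoS⟩ : ∃ o ∈ O, o ∉ S := by
      by_contra hcc
      push Not at hcc
      exact hSO (Finset.Subset.antisymm hS hcc)
    obtain ⟨x, hx⟩ := Finset.card_pos.1 (hb.odd o ho).pos
    have hsub : nb G C S ∪ un S ⊆ C ∪ un O :=
      Finset.union_subset_union (nb_sub _ _) (un_mono hS)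
    have hx1 : x ∉ nb G C S ∪ un S := by
      rw [Finset.mem_union, mem_un]
      rintro (h5 | ⟨o', ho', hx'⟩)
      · exact (Finset.mem_sdiff.1 (hb.oS o ho hx)).2 (nb_sub _ _ h5)
      · have hne : o ≠ o' := fun e => hoS (e ▸ ho')
        exact Finset.disjoint_left.1 (hb.disj o ho o' (hS ho') hne) hx hx'
    have hlt : (nb G C S ∪ un S).card < (C ∪ un O).card := by
      apply Finset.card_lt_card
      refine ⟨hsub, fun h5 => hx1 (h5 ?_)⟩
      exact Finset.mem_union_right _ (mem_un.2 ⟨o, ho, hx⟩)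
    refine hmin (nb G C S, S) ⟨hb.nbr hS, ?_, ?_, ?_⟩ ?_
    · show S.card + 1 = (nb G C S).card
      omega
    · show 2 ≤ (nb G C S).card
      omega
    · exact fun h5 => hK (h5.trans hsub)
    · show (nb G C S ∪ un S).card * (K.card + 1) + (K.card - (nb G C S).card) <
        (C ∪ un O).card * (K.card + 1) + (K.card - C.card)
      have h5 := Nat.mul_le_mul_right (K.card + 1) hlt
      rw [Nat.succ_mul] at h5
      omega

namespace Std

variable {K C : Finset V} {O : Finset (Finset V)} {E : Finset V}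

theorem cne (h : Std G K C O E) : C.Nonempty := by
  have := h.two
  rw [← Finset.card_pos]; omega

theorem C_K (h : Std G K C O E) : C ⊆ K := h.bar.sub

theorem o_K (h : Std G K C O E) {o : Finset V} (ho : o ∈ O) : o ⊆ K := fun x hx =>
  (Finset.mem_sdiff.1 (h.bar.oS o ho hx)).1

theorem o_C (h : Std G K C O E) {o : Finset V} (ho : o ∈ O) {x : V} (hx : x ∈ o) : x ∉ C :=
  (Finset.mem_sdiff.1 (h.bar.oS o ho hx)).2

theorem E_K (h : Std G K C O E) : E ⊆ K := by rw [h.hE]; exact Finset.sdiff_subset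

theorem E_C (h : Std G K C O E) {x : V} (hx : x ∈ E) : x ∉ C := by
  rw [h.hE, Finset.mem_sdiff] at hx
  exact fun h1 => hx.2 (Finset.mem_union_left _ h1)

theorem E_un (h : Std G K C O E) {x : V} (hx : x ∈ E) : x ∉ un O := by
  rw [h.hE, Finset.mem_sdiff] at hx
  exact fun h1 => hx.2 (Finset.mem_union_right _ h1)

theorem E_o (h : Std G K C O E) {x : V} (hx : x ∈ E) {o : Finset V} (ho : o ∈ O) : x ∉ o :=
  fun h1 => h.E_un hx (mem_un.2 ⟨o, ho, h1⟩)

theorem K_eq (h : Std G K C O E) : K = (C ∪ un O) ∪ E := by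
  rw [h.hE, Finset.union_sdiff_of_subset]
  apply Finset.union_subset h.C_K
  intro x hx
  obtain ⟨o, ho, hx⟩ := mem_un.1 hx
  exact h.o_K ho hx

theorem no_edge (h : Std G K C O E) {x y : V} (hx : x ∈ E) (hy : y ∈ un O) : ¬ G.Adj x y := by
  intro hxy
  obtain ⟨o, ho, hy⟩ := mem_un.1 hy
  exact h.E_o hx ho (h.bar.cl o ho y hy x (Finset.mem_sdiff.2 ⟨h.E_K hx, h.E_C hx⟩) hxy.symm)

theorem oneg (h : Std G K C O E) : 1 ≤ O.card := by
  have := h.two
  have := h.card
  omega

/-- perfect matching with one vertex of `C` removed -/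
theorem s1 (hF : FC G K) (h : Std G K C O E) {z : V} (hz : z ∈ C) : PM G (C.erase z ∪ un O) := by
  apply hall_PM h.bar.disj
  · intro o ho
    rw [Finset.disjoint_left]
    exact fun x hx hx' => h.o_C ho hx' (Finset.mem_of_mem_erase hx)
  · exact h.fc
  · rw [Finset.card_erase_of_mem hz, ← h.card]; rfl
  · intro S hS
    rcases S.eq_empty_or_nonempty with h0 | h0
    · subst h0; simp
    have h1 := hF.nb_card h.bar h.cne hS h0
    have h2 : (nb G C S).erase z ⊆ nb G (C.erase z) S := by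
      intro x hx
      rw [Finset.mem_erase, mem_nb] at hx
      rw [mem_nb, Finset.mem_erase]
      exact ⟨⟨hx.1, hx.2.1⟩, hx.2.2⟩
    have h3 := Finset.card_le_card h2
    have h4 := Finset.pred_card_le_card_erase (s := nb G C S) (a := z)
    omega

/-- perfect matching with two vertices of `C` and one member of `O` removed -/
theorem s2 (h : Std G K C O E) {z z' : V} (hz : z ∈ C) (hz' : z' ∈ C) (hne : z ≠ z')
    {o : Finset V} (ho : o ∈ O) : PM G ((C.erase z).erase z' ∪ un (O.erase o)) := by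
  have hz2 : z' ∈ C.erase z := Finset.mem_erase.2 ⟨hne.symm, hz'⟩
  apply hall_PM
  · exact fun p hp p' hp' => h.bar.disj p (Finset.mem_of_mem_erase hp) p' (Finset.mem_of_mem_erase hp')
  · intro p hp
    rw [Finset.disjoint_left]
    exact fun x hx hx' => h.o_C (Finset.mem_of_mem_erase hp) hx'
      (Finset.mem_of_mem_erase (Finset.mem_of_mem_erase hx))
  · exact fun p hp => h.fc p (Finset.mem_of_mem_erase hp)
  · rw [Finset.card_erase_of_mem hz2, Finset.card_erase_of_mem hz, Finset.card_erase_of_mem ho]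
    have := h.card
    omega
  · intro S hS
    rcases S.eq_empty_or_nonempty with h0 | h0
    · subst h0; simp
    have hSO : S ⊆ O := hS.trans (Finset.erase_subset _ _)
    have h3 := h.str S hSO h0 (fun e => by
      rw [e] at hS
      exact (Finset.mem_erase.1 (hS ho)).1 rfl)
    have h4 : ((nb G C S).erase z).erase z' ⊆ nb G ((C.erase z).erase z') S := by
      intro x hx
      rw [Finset.mem_erase, Finset.mem_erase, mem_nb] at hx
      rw [mem_nb, Finset.mem_erase, Finset.mem_erase]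
      exact ⟨⟨hx.1, hx.2.1, hx.2.2.1⟩, hx.2.2.2⟩
    have h5 := Finset.card_le_card h4
    have h6 := Finset.pred_card_le_card_erase (s := nb G C S) (a := z)
    have h7 := Finset.pred_card_le_card_erase (s := (nb G C S).erase z) (a := z')
    omega

theorem disCE (h : Std G K C O E) : Disjoint (C ∪ un O) E := by
  rw [Finset.disjoint_right]
  intro x hx hx'
  rcases Finset.mem_union.1 hx' with h1 | h1
  · exact h.E_C hx h1
  · exact h.E_un hx h1

theorem E_even (hF : FC G K) (h : Std G K C O E) : Even E.card := by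
  obtain ⟨z, hz⟩ := h.cne
  have h1 := (h.s1 hF hz).even
  have h2 := (hF.2 z (h.C_K hz)).even
  have hd : Disjoint (C.erase z ∪ un O) E :=
    h.disCE.mono_left (Finset.union_subset_union_left (Finset.erase_subset _ _))
  have e : K.erase z = (C.erase z ∪ un O) ∪ E := by
    rw [h.K_eq, Finset.erase_union_distrib, Finset.erase_union_distrib]
    congr 1
    · congr 1
      apply Finset.erase_eq_of_notMem
      intro h3
      obtain ⟨o, ho, h4⟩ := mem_un.1 h3
      exact h.o_C ho h4 hz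
    · apply Finset.erase_eq_of_notMem
      exact fun h3 => h.E_C h3 hz
  rw [e, Finset.card_union_of_disjoint hd, Nat.even_add] at h2
  exact h2.1 h1

/-- extension of a barrier family of `E` -/
theorem ext (h : Std G K C O E) {B : Finset V} {P : Finset (Finset V)} (hB : B ⊆ E)
    (hsub : ∀ p ∈ P, p ⊆ E \ B) (hodd : ∀ p ∈ P, Odd p.card)
    (hdis : ∀ p ∈ P, ∀ p' ∈ P, p ≠ p' → Disjoint p p')
    (hcl : ∀ p ∈ P, ∀ u ∈ p, ∀ v ∈ E \ B, G.Adj u v → v ∈ p) :
    Bar G K (C ∪ B) (O ∪ P) ∧ (O ∪ P).card = O.card + P.card ∧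
      (C ∪ B).card = C.card + B.card := by
  have hPE : ∀ p ∈ P, p ⊆ E := fun p hp x hx => (Finset.mem_sdiff.1 (hsub p hp hx)).1
  refine ⟨⟨?_, ?_, ?_, ?_, ?_⟩, ?_, ?_⟩
  · exact Finset.union_subset h.C_K (hB.trans h.E_K)
  · intro p hp x hx
    rw [Finset.mem_sdiff, Finset.mem_union, not_or]
    rcases Finset.mem_union.1 hp with hp | hp
    · exact ⟨h.o_K hp hx, h.o_C hp hx, fun h1 => h.E_o (hB h1) hp hx⟩
    · have h1 := Finset.mem_sdiff.1 (hsub p hp hx)
      exact ⟨h.E_K h1.1, h.E_C h1.1, h1.2⟩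
  · intro p hp
    rcases Finset.mem_union.1 hp with hp | hp
    · exact h.bar.odd p hp
    · exact hodd p hp
  · intro p hp p' hp' hne
    rcases Finset.mem_union.1 hp with hp | hp <;> rcases Finset.mem_union.1 hp' with hp' | hp'
    · exact h.bar.disj p hp p' hp' hne
    · rw [Finset.disjoint_left]
      exact fun x hx hx' => h.E_o (hPE p' hp' hx') hp hx
    · rw [Finset.disjoint_left]
      exact fun x hx hx' => h.E_o (hPE p hp hx) hp' hx'
    · exact hdis p hp p' hp' hne
  · intro p hp x hx y hy hxy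
    rw [Finset.mem_sdiff, Finset.mem_union, not_or] at hy
    rcases Finset.mem_union.1 hp with hp | hp
    · exact h.bar.cl p hp x hx y (Finset.mem_sdiff.2 ⟨hy.1, hy.2.1⟩) hxy
    · refine hcl p hp x hx y (Finset.mem_sdiff.2 ⟨?_, hy.2.2⟩) hxy
      have hy' := hy.1
      rw [h.K_eq, Finset.mem_union, Finset.mem_union] at hy'
      rcases hy' with (h1 | h1) | h1
      · exact absurd h1 hy.2.1
      · exact absurd hxy (h.no_edge (hPE p hp hx) h1)
      · exact h1
  · apply Finset.card_union_of_disjoint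
    rw [Finset.disjoint_left]
    intro o ho ho'
    obtain ⟨x, hx⟩ := Finset.card_pos.1 (h.bar.odd o ho).pos
    exact h.E_o (hPE o ho' hx) ho hx
  · apply Finset.card_union_of_disjoint
    rw [Finset.disjoint_left]
    exact fun x hx hx' => h.E_C (hB hx') hx

/-- families of `E` without neighbours in `C` -/
theorem ext0 (h : Std G K C O E) {B : Finset V} {P : Finset (Finset V)} (hB : B ⊆ E)
    (hsub : ∀ p ∈ P, p ⊆ E \ B) (hodd : ∀ p ∈ P, Odd p.card)
    (hdis : ∀ p ∈ P, ∀ p' ∈ P, p ≠ p' → Disjoint p p')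
    (hcl : ∀ p ∈ P, ∀ u ∈ p, ∀ v ∈ E \ B, G.Adj u v → v ∈ p)
    (hC : ∀ p ∈ P, ∀ u ∈ p, ∀ z ∈ C, ¬ G.Adj u z) : Bar G K B P := by
  have hPE : ∀ p ∈ P, p ⊆ E := fun p hp x hx => (Finset.mem_sdiff.1 (hsub p hp hx)).1
  refine ⟨hB.trans h.E_K, ?_, hodd, hdis, ?_⟩
  · intro p hp x hx
    have h1 := Finset.mem_sdiff.1 (hsub p hp hx)
    exact Finset.mem_sdiff.2 ⟨h.E_K h1.1, h1.2⟩
  · intro p hp u hu v hv huv
    rw [Finset.mem_sdiff, h.K_eq, Finset.mem_union, Finset.mem_union] at hv
    rcases hv.1 with (h1 | h1) | h1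
    · exact absurd huv (hC p hp u hu v h1)
    · exact absurd huv (h.no_edge (hPE p hp hu) h1)
    · exact hcl p hp u hu v (Finset.mem_sdiff.2 ⟨h1, hv.2⟩) huv

theorem PM_E (hF : FC G K) (h : Std G K C O E) : PM G E := by
  by_contra hno
  obtain ⟨B, P, hP, hc⟩ := tutte_set (h.E_even hF) hno
  obtain ⟨h1, h2, h3⟩ := h.ext hP.sub hP.oS hP.odd hP.disj hP.cl
  have h4 := hF.bar h1 (h.cne.mono Finset.subset_union_left)
  have := h.card
  omega

end Std

end Pool.Agent.Helper74.TZ
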