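import Pool.Agent.Helper74.TZ.Std

set_option linter.unusedSectionVars false

namespace Pool.Agent.Helper74.TZ

variable {V : Type} [DecidableEq V] {G : SimpleGraph V}

/-- no cut vertex -/
def NoCut (G : SimpleGraph V) (K : Finset V) : Prop := ∀ z ∈ K, ∀ A ⊆ K.erase z, A.Nonempty →
  (∀ u ∈ A, ∀ v ∈ K.erase z, G.Adj u v → v ∈ A) → A = K.erase z

theorem filter_notMem_card {P : Finset (Finset V)}
    (hd : ∀ p ∈ P, ∀ p' ∈ P, p ≠ p' → Disjoint p p') (z : V) :
    P.card ≤ (P.filter fun p => z ∉ p).card + 1 := by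
  have h1 : (P.filter fun p => z ∈ p).card ≤ 1 := by
    rw [Finset.card_le_one]
    intro a ha b hb'
    by_contra hne
    have ha' := Finset.mem_filter.1 ha
    have hb'' := Finset.mem_filter.1 hb'
    exact Finset.disjoint_left.1 (hd a ha'.1 b hb''.1 hne) ha'.2 hb''.2
  have h2 := Finset.card_filter_add_card_filter_not (s := P) (fun p => z ∈ p)
  omega

namespace Std

variable {K C : Finset V} {O : Finset (Finset V)} {E : Finset V}

/-- the contracted graph is factor-critical -/
theorem FC_ctr (hF : FC G K) (h : Std G K C O E) {c : V} (hc : c ∈ C) :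
    FC (ctr G C c) (insert c E) := by
  have hcE : c ∉ E := fun h1 => h.E_C h1 hc
  have hadj : ∀ u ∈ E, ∀ v ∈ E, G.Adj u v → (ctr G C c).Adj u v := fun u hu v hv huv =>
    ⟨huv.ne, Or.inl ⟨fun e => hcE (e ▸ hu), fun e => hcE (e ▸ hv), huv⟩⟩
  refine ⟨⟨c, Finset.mem_insert_self _ _⟩, ?_⟩
  intro v hv
  by_cases hvc : v = c
  · subst hvc
    rw [Finset.erase_insert hcE]
    exact (h.PM_E hF).mono hadj
  have hvE : v ∈ E := Finset.mem_of_mem_insert_of_ne hv hvc
  by_contra hno
  have he : Even ((insert c E).erase v).card := by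
    rw [Finset.card_erase_of_mem hv, Finset.card_insert_of_notMem hcE]
    exact h.E_even hF
  obtain ⟨B, P, hP, hcP⟩ := tutte_set he hno
  have hS : ∀ x, x ∈ (insert c E).erase v ↔ x ≠ v ∧ (x = c ∨ x ∈ E) := by
    intro x; rw [Finset.mem_erase, Finset.mem_insert]
  have hcC := h.card
  by_cases hcB : c ∈ B
  · have hB' : insert v (B.erase c) ⊆ E := by
      intro x hx
      rcases Finset.mem_insert.1 hx with rfl | hx
      · exact hvE
      · have h1 := Finset.mem_erase.1 hx
        exact (((hS x).1 (hP.sub h1.2)).2).resolve_left h1.1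
    have hcard : (insert v (B.erase c)).card = B.card := by
      rw [Finset.card_insert_of_notMem, Finset.card_erase_of_mem hcB]
      · have : 0 < B.card := Finset.card_pos.2 ⟨c, hcB⟩
        omega
      · exact fun h1 => ((hS v).1 (hP.sub (Finset.mem_of_mem_erase h1))).1 rfl
    obtain ⟨h1, h2, h3⟩ := h.ext (P := P) hB' (by
        intro p hp x hx
        have h4 := Finset.mem_sdiff.1 (hP.oS p hp hx)
        have h5 := (hS x).1 h4.1
        have h6 : x ≠ c := fun e => h4.2 (e ▸ hcB)
        rw [Finset.mem_sdiff, Finset.mem_insert, not_or]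
        exact ⟨h5.2.resolve_left h6, h5.1, fun h7 => h4.2 (Finset.mem_of_mem_erase h7)⟩)
      hP.odd hP.disj (by
        intro p hp u hu w hw huw
        have h4 := Finset.mem_sdiff.1 (hP.oS p hp hu)
        have h6 : u ≠ c := fun e => h4.2 (e ▸ hcB)
        have h5 := ((hS u).1 h4.1).2.resolve_left h6
        rw [Finset.mem_sdiff, Finset.mem_insert, not_or] at hw
        refine hP.cl p hp u hu w (Finset.mem_sdiff.2 ⟨(hS w).2 ⟨hw.2.1, Or.inr hw.1⟩, ?_⟩)
          (hadj u h5 w hw.1 huw)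
        exact fun h7 => hw.2.2 (Finset.mem_erase.2 ⟨fun e => hcE (e ▸ hw.1), h7⟩))
    have h4 := hF.bar h1 (h.cne.mono Finset.subset_union_left)
    omega
  · have hBE : B ⊆ E := by
      intro x hx
      exact (((hS x).1 (hP.sub hx)).2).resolve_left fun e => hcB (e ▸ hx)
    have hvB : v ∉ B := fun h1 => ((hS v).1 (hP.sub h1)).1 rfl
    have hB' : insert v B ⊆ E := Finset.insert_subset hvE hBE
    have hpE : ∀ p ∈ P.filter (fun p => c ∉ p), ∀ x ∈ p, x ∈ E ∧ x ≠ v ∧ x ∉ B ∧ x ≠ c := by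
      intro p hp x hx
      have hp' := Finset.mem_filter.1 hp
      have h4 := Finset.mem_sdiff.1 (hP.oS p hp'.1 hx)
      have h5 := (hS x).1 h4.1
      have h6 : x ≠ c := fun e => hp'.2 (e ▸ hx)
      exact ⟨h5.2.resolve_left h6, h5.1, h4.2, h6⟩
    have h1 := h.ext0 (P := P.filter fun p => c ∉ p) hB' (by
        intro p hp x hx
        have h4 := hpE p hp x hx
        rw [Finset.mem_sdiff, Finset.mem_insert, not_or]
        exact ⟨h4.1, h4.2.1, h4.2.2.1⟩)
      (fun p hp => hP.odd p (Finset.mem_filter.1 hp).1)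
      (fun p hp p' hp' => hP.disj p (Finset.mem_filter.1 hp).1 p' (Finset.mem_filter.1 hp').1)
      (by
        intro p hp u hu w hw huw
        rw [Finset.mem_sdiff, Finset.mem_insert, not_or] at hw
        exact hP.cl p (Finset.mem_filter.1 hp).1 u hu w
          (Finset.mem_sdiff.2 ⟨(hS w).2 ⟨hw.2.1, Or.inr hw.1⟩, hw.2.2⟩)
          (hadj u (hpE p hp u hu).1 w hw.1 huw))
      (by
        intro p hp u hu z hz huz
        have h4 := hpE p hp u hu
        have hp' := Finset.mem_filter.1 hp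
        apply hp'.2
        refine hP.cl p hp'.1 u hu c (Finset.mem_sdiff.2 ⟨(hS c).2 ⟨Ne.symm hvc, Or.inl rfl⟩, hcB⟩) ?_
        exact ⟨h4.2.2.2, Or.inr (Or.inr ⟨rfl, z, hz, huz.symm⟩)⟩)
    have h2 := hF.bar h1 ⟨v, Finset.mem_insert_self _ _⟩
    rw [Finset.card_insert_of_notMem hvB] at h2
    have h3 := filter_notMem_card hP.disj c
    omega

/-- two vertices of `C` joined through `E` -/
theorem pair (hF : FC G K) (h : Std G K C O E) (hcut : NoCut G K) :
    ∃ z1 ∈ C, ∃ z ∈ C, z ≠ z1 ∧ PM G (insert z (insert z1 E)) := by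
  obtain ⟨z1, hz1, e1, he1, hze⟩ : ∃ z1 ∈ C, ∃ e1 ∈ E, G.Adj z1 e1 := by
    by_contra hc
    push Not at hc
    have h1 := hF.conn h.E_K h.ne (by
      intro u hu v hv huv
      rw [h.K_eq, Finset.mem_union, Finset.mem_union] at hv
      rcases hv with (h2 | h2) | h2
      · exact absurd huv.symm (hc v h2 u hu)
      · exact absurd huv (h.no_edge hu h2)
      · exact h2)
    obtain ⟨z, hz⟩ := h.cne
    exact h.E_C (by rw [h1]; exact h.C_K hz) hz
  obtain ⟨z2, hz2, hne⟩ : ∃ z2 ∈ C, z2 ≠ z1 := Finset.exists_mem_ne (by have := h.two; omega) z1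
  refine ⟨z1, hz1, ?_⟩
  have hz1E : z1 ∉ E := fun h1 => h.E_C h1 hz1
  have hz2E : z2 ∉ E := fun h1 => h.E_C h1 hz2
  have hadj : ∀ u, u ≠ z2 → ∀ v, v ≠ z2 → G.Adj u v → (ctr G (C.erase z1) z2).Adj u v :=
    fun u hu v hv huv => ⟨huv.ne, Or.inl ⟨hu, hv, huv⟩⟩
  have hadj' : ∀ u, u ≠ z2 → ∀ v, v ≠ z2 → (ctr G (C.erase z1) z2).Adj u v → G.Adj u v := by
    rintro u hu v hv ⟨_, h1 | h1 | h1⟩
    · exact h1.2.2
    · exact absurd h1.1 hu
    · exact absurd h1.1 hv
  have hS : ∀ x, x ∈ insert z1 (insert z2 E) ↔ x = z1 ∨ x = z2 ∨ x ∈ E := by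
    intro x; rw [Finset.mem_insert, Finset.mem_insert]
  by_cases hpm : PM (ctr G (C.erase z1) z2) (insert z1 (insert z2 E))
  · obtain ⟨v, hv, hzv, hrest⟩ := hpm.partner (v := z2) ((hS z2).2 (Or.inr (Or.inl rfl)))
    have hvz2 : v ≠ z2 := hzv.1.symm
    have h1 : ∃ z ∈ C.erase z1, G.Adj z v := by
      rcases hzv.2 with h2 | h2 | h2
      · exact absurd rfl h2.1
      · exact h2.2
      · exact absurd h2.1 hvz2
    obtain ⟨z, hz, hzv'⟩ := h1
    have hz' := Finset.mem_erase.1 hz
    refine ⟨z, hz'.2, hz'.1, ?_⟩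
    have e1 : (insert z1 (insert z2 E)).erase z2 = insert z1 E := by
      ext x
      rw [Finset.mem_erase, hS, Finset.mem_insert]
      constructor
      · rintro ⟨h3, h4 | h4 | h4⟩
        · exact Or.inl h4
        · exact absurd h4 h3
        · exact Or.inr h4
      · rintro (h3 | h3)
        · exact ⟨fun e => hne (by rw [← e, h3]), Or.inl h3⟩
        · exact ⟨fun e => hz2E (e ▸ h3), Or.inr (Or.inr h3)⟩
    rw [e1] at hrest
    have hvmem : v ∈ insert z1 E := by
      rw [← e1]; exact Finset.mem_erase.2 ⟨hvz2, hv⟩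
    have hz2n : z2 ∉ insert z1 E := by
      rw [← e1]; exact Finset.notMem_erase _ _
    have h5 : PM G ((insert z1 E).erase v) := hrest.mono fun a ha b hb =>
      hadj' a (fun e => hz2n (e ▸ Finset.mem_of_mem_erase ha)) b
        (fun e => hz2n (e ▸ Finset.mem_of_mem_erase hb))
    have hzn : z ∉ insert z1 E := by
      rw [Finset.mem_insert, not_or]
      exact ⟨hz'.1, fun h6 => h.E_C h6 hz'.2⟩
    have h6 := h5.add hzv' (fun h7 => hzn (Finset.mem_of_mem_erase h7)) (Finset.notMem_erase _ _)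
    rwa [Finset.insert_erase hvmem] at h6
  · exfalso
    have he : Even (insert z1 (insert z2 E)).card := by
      rw [Finset.card_insert_of_notMem, Finset.card_insert_of_notMem hz2E]
      · have := h.E_even hF
        obtain ⟨r, hr⟩ := this
        exact ⟨r + 1, by omega⟩
      · rw [Finset.mem_insert, not_or]
        exact ⟨hne.symm, hz1E⟩
    obtain ⟨B, P, hP, hcP⟩ := tutte_set he hpm
    have hcC := h.card
    have hpmem : ∀ p ∈ P, ∀ x ∈ p, (x = z1 ∨ x = z2 ∨ x ∈ E) ∧ x ∉ B := by
      intro p hp x hx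
      have h4 := Finset.mem_sdiff.1 (hP.oS p hp hx)
      exact ⟨(hS x).1 h4.1, h4.2⟩
    -- the general step
    have step : ∀ P' ⊆ P, B.card + 1 ≤ P'.card → (∀ p ∈ P', z1 ∉ p ∧ z2 ∉ p) →
        (z1 ∈ B ∨ z2 ∈ B) → False := by
      intro P' hP' hc' hn hB
      have hBE : B \ {z1, z2} ⊆ E := by
        intro x hx
        rw [Finset.mem_sdiff, Finset.mem_insert, Finset.mem_singleton, not_or] at hx
        exact (((hS x).1 (hP.sub hx.1)).resolve_left hx.2.1).resolve_left hx.2.2
      have hBc : (B \ {z1, z2}).card + 1 ≤ B.card := by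
        have : (B \ {z1, z2}).card < B.card := by
          apply Finset.card_lt_card
          refine ⟨Finset.sdiff_subset, fun h6 => ?_⟩
          rcases hB with h7 | h7
          · have := Finset.mem_sdiff.1 (h6 h7)
            exact this.2 (by simp)
          · have := Finset.mem_sdiff.1 (h6 h7)
            exact this.2 (by simp)
        omega
      obtain ⟨h1, h2, h3⟩ := h.ext (P := P') hBE (by
          intro p hp x hx
          have h4 := hpmem p (hP' hp) x hx
          have h5 := hn p hp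
          rw [Finset.mem_sdiff, Finset.mem_sdiff]
          exact ⟨(h4.1.resolve_left fun e => h5.1 (e ▸ hx)).resolve_left fun e => h5.2 (e ▸ hx),
            fun h6 => h4.2 h6.1⟩)
        (fun p hp => hP.odd p (hP' hp))
        (fun p hp p' hp' => hP.disj p (hP' hp) p' (hP' hp'))
        (by
          intro p hp u hu w hw huw
          have h5 := hn p hp
          rw [Finset.mem_sdiff, Finset.mem_sdiff, Finset.mem_insert, Finset.mem_singleton] at hw
          have hwz2 : w ≠ z2 := fun e => hz2E (e ▸ hw.1)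
          have hwz1 : w ≠ z1 := fun e => hz1E (e ▸ hw.1)
          refine hP.cl p (hP' hp) u hu w (Finset.mem_sdiff.2 ⟨(hS w).2 (Or.inr (Or.inr hw.1)), ?_⟩)
            (hadj u (fun e => h5.2 (e ▸ hu)) w hwz2 huw)
          exact fun h6 => hw.2 ⟨h6, fun h7 => h7.elim hwz1 hwz2⟩)
      have h4 := hF.bar h1 (h.cne.mono Finset.subset_union_left)
      omega
    by_cases hz2B : z2 ∈ B
    · refine step (P.filter fun p => z1 ∉ p) (Finset.filter_subset _ _) ?_ ?_ (Or.inr hz2B)
      · have := filter_notMem_card hP.disj z1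
        omega
      · intro p hp
        have hp' := Finset.mem_filter.1 hp
        exact ⟨hp'.2, fun h6 => (hpmem p hp'.1 z2 h6).2 hz2B⟩
    by_cases hz1B : z1 ∈ B
    · refine step (P.filter fun p => z2 ∉ p) (Finset.filter_subset _ _) ?_ ?_ (Or.inl hz1B)
      · have := filter_notMem_card hP.disj z2
        omega
      · intro p hp
        have hp' := Finset.mem_filter.1 hp
        exact ⟨fun h6 => (hpmem p hp'.1 z1 h6).2 hz1B, hp'.2⟩
    have hBE : B ⊆ E := by
      intro x hx
      exact (((hS x).1 (hP.sub hx)).resolve_left fun e => hz1B (e ▸ hx)).resolve_left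
        fun e => hz2B (e ▸ hx)
    set P' := (P.filter fun p => z1 ∉ p).filter fun p => z2 ∉ p with hP'
    have hP'c : P.card ≤ P'.card + 2 := by
      have h1 := filter_notMem_card hP.disj z1
      have h2 := filter_notMem_card (P := P.filter fun p => z1 ∉ p)
        (fun p hp p' hp' => hP.disj p (Finset.mem_filter.1 hp).1 p' (Finset.mem_filter.1 hp').1) z2
      rw [hP']
      omega
    have hP'm : ∀ p ∈ P', p ∈ P ∧ z1 ∉ p ∧ z2 ∉ p := by
      intro p hp
      rw [hP', Finset.mem_filter, Finset.mem_filter] at hp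
      exact ⟨hp.1.1, hp.1.2, hp.2⟩
    have hb : Bar G K B P' := by
      refine h.ext0 hBE ?_ (fun p hp => hP.odd p (hP'm p hp).1)
        (fun p hp p' hp' => hP.disj p (hP'm p hp).1 p' (hP'm p' hp').1) ?_ ?_
      · intro p hp x hx
        have h4 := hpmem p (hP'm p hp).1 x hx
        rw [Finset.mem_sdiff]
        exact ⟨(h4.1.resolve_left fun e => (hP'm p hp).2.1 (e ▸ hx)).resolve_left
          fun e => (hP'm p hp).2.2 (e ▸ hx), h4.2⟩
      · intro p hp u hu w hw huw
        rw [Finset.mem_sdiff] at hw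
        exact hP.cl p (hP'm p hp).1 u hu w
          (Finset.mem_sdiff.2 ⟨(hS w).2 (Or.inr (Or.inr hw.1)), hw.2⟩)
          (hadj u (fun e => (hP'm p hp).2.2 (e ▸ hu)) w (fun e => hz2E (e ▸ hw.1)) huw)
      · intro p hp u hu z hz huz
        have hu2 : u ≠ z2 := fun e => (hP'm p hp).2.2 (e ▸ hu)
        by_cases hzz : z = z1
        · subst hzz
          apply (hP'm p hp).2.1
          exact hP.cl p (hP'm p hp).1 u hu z
            (Finset.mem_sdiff.2 ⟨(hS z).2 (Or.inl rfl), hz1B⟩) (hadj u hu2 z hne.symm huz)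
        · apply (hP'm p hp).2.2
          exact hP.cl p (hP'm p hp).1 u hu z2
            (Finset.mem_sdiff.2 ⟨(hS z2).2 (Or.inr (Or.inl rfl)), hz2B⟩)
            ⟨hu2, Or.inr (Or.inr ⟨rfl, z, Finset.mem_erase.2 ⟨hzz, hz⟩, huz.symm⟩)⟩
    rcases B.eq_empty_or_nonempty with h0 | h0
    · have hPe : P' = ∅ := by
        by_contra hne'
        obtain ⟨p, hp⟩ := Finset.nonempty_iff_ne_empty.2 hne'
        have hpK : p ⊆ K := fun x hx => (Finset.mem_sdiff.1 (hb.oS p hp hx)).1
        have h2 := hF.conn hpK (Finset.card_pos.1 (hb.odd p hp).pos) (fun u hu v hv huv =>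
          hb.cl p hp u hu v (Finset.mem_sdiff.2 ⟨hv, by rw [h0]; simp⟩) huv)
        exact (hP'm p hp).2.1 (by rw [h2]; exact h.C_K hz1)
      have hor : ∀ p ∈ P, z1 ∈ p ∨ z2 ∈ p := by
        intro p hp
        by_contra hc
        rw [not_or] at hc
        have : p ∈ P' := by
          rw [hP', Finset.mem_filter, Finset.mem_filter]
          exact ⟨⟨hp, hc.1⟩, hc.2⟩
        rw [hPe] at this
        exact absurd this (Finset.notMem_empty _)
      have h1P : 1 < P.card := by omega
      obtain ⟨a, ha, b, hb', hab⟩ := Finset.one_lt_card.1 h1P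
      have hdab := hP.disj a ha b hb' hab
      obtain ⟨p, hp, hz1p, hz2p⟩ : ∃ p ∈ P, z1 ∈ p ∧ z2 ∉ p := by
        rcases hor a ha with h4 | h4 <;> rcases hor b hb' with h5 | h5
        · exact absurd h5 (Finset.disjoint_left.1 hdab h4)
        · exact ⟨a, ha, h4, fun h6 => Finset.disjoint_left.1 hdab h6 h5⟩
        · exact ⟨b, hb', h5, fun h6 => Finset.disjoint_left.1 hdab h4 h6⟩
        · exact absurd h5 (Finset.disjoint_left.1 hdab h4)
      have hA := hcut z1 (h.C_K hz1) (p.erase z1) (by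
          intro x hx
          have hx' := Finset.mem_erase.1 hx
          have h4 := hpmem p hp x hx'.2
          have h5 : x ≠ z2 := fun e => hz2p (e ▸ hx'.2)
          exact Finset.mem_erase.2 ⟨hx'.1, h.E_K ((h4.1.resolve_left hx'.1).resolve_left h5)⟩)
        (by
          refine ⟨e1, Finset.mem_erase.2 ⟨fun e => hz1E (e ▸ he1), ?_⟩⟩
          exact hP.cl p hp z1 hz1p e1 (Finset.mem_sdiff.2 ⟨(hS e1).2 (Or.inr (Or.inr he1)),
            by rw [h0]; simp⟩) (hadj z1 hne.symm e1 (fun e => hz2E (e ▸ he1)) hze))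
        (by
          intro u hu v hv huv
          have hu' := Finset.mem_erase.1 hu
          have hv' := Finset.mem_erase.1 hv
          have hu2 : u ≠ z2 := fun e => hz2p (e ▸ hu'.2)
          have huE := ((hpmem p hp u hu'.2).1.resolve_left hu'.1).resolve_left hu2
          refine Finset.mem_erase.2 ⟨hv'.1, ?_⟩
          have hvK := hv'.2
          rw [h.K_eq, Finset.mem_union, Finset.mem_union] at hvK
          rcases hvK with (h4 | h4) | h4
          · exfalso
            apply hz2p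
            exact hP.cl p hp u hu'.2 z2
              (Finset.mem_sdiff.2 ⟨(hS z2).2 (Or.inr (Or.inl rfl)), hz2B⟩)
              ⟨hu2, Or.inr (Or.inr ⟨rfl, v, Finset.mem_erase.2 ⟨hv'.1, h4⟩, huv.symm⟩)⟩
          · exact absurd huv (h.no_edge huE h4)
          · exact hP.cl p hp u hu'.2 v (Finset.mem_sdiff.2 ⟨(hS v).2 (Or.inr (Or.inr h4)),
              by rw [h0]; simp⟩) (hadj u hu2 v (fun e => hz2E (e ▸ h4)) huv))
      have h6 : z2 ∈ K.erase z1 := Finset.mem_erase.2 ⟨hne, h.C_K hz2⟩
      rw [← hA] at h6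
      exact hz2p (Finset.mem_of_mem_erase h6)
    · have h1 := hF.bar hb h0
      omega

/-- the complement of a member of `O` has a perfect matching -/
theorem PM_compl (hF : FC G K) (h : Std G K C O E) (hcut : NoCut G K) {o : Finset V} (ho : o ∈ O) :
    PM G (K \ o) := by
  obtain ⟨z1, hz1, z, hz, hne, hpm⟩ := h.pair hF hcut
  have h2 := h.s2 hz1 hz hne.symm ho
  have e : K \ o = insert z (insert z1 E) ∪ ((C.erase z1).erase z ∪ un (O.erase o)) := by
    ext x
    rw [h.K_eq]
    simp only [Finset.mem_sdiff, Finset.mem_union, Finset.mem_insert, Finset.mem_erase, mem_un]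
    constructor
    · rintro ⟨(h3 | ⟨p, hp, hx⟩) | h3, h4⟩
      · by_cases h5 : x = z
        · exact Or.inl (Or.inl h5)
        · by_cases h6 : x = z1
          · exact Or.inl (Or.inr (Or.inl h6))
          · exact Or.inr (Or.inl ⟨h5, h6, h3⟩)
      · exact Or.inr (Or.inr ⟨p, ⟨fun e => h4 (e ▸ hx), hp⟩, hx⟩)
      · exact Or.inl (Or.inr (Or.inr h3))
    · rintro ((h3 | h3 | h3) | (h3 | ⟨p, hp, hx⟩))
      · rw [h3]; exact ⟨Or.inl (Or.inl hz), fun h4 => h.o_C ho h4 hz⟩
      · rw [h3]; exact ⟨Or.inl (Or.inl hz1), fun h4 => h.o_C ho h4 hz1⟩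
      · exact ⟨Or.inr h3, fun h4 => h.E_o h3 ho h4⟩
      · exact ⟨Or.inl (Or.inl h3.2.2), fun h4 => h.o_C ho h4 h3.2.2⟩
      · exact ⟨Or.inl (Or.inr ⟨p, hp.2, hx⟩),
          fun h4 => Finset.disjoint_left.1 (h.bar.disj p hp.2 o ho hp.1) hx h4⟩
  rw [e]
  apply hpm.union h2
  rw [Finset.disjoint_left]
  intro x hx hx'
  simp only [Finset.mem_union, Finset.mem_insert, Finset.mem_erase] at hx hx'
  rcases hx' with hx' | hx'
  · rcases hx with hx | hx | hx
    · exact hx'.1 hx
    · exact hx'.2.1 hx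
    · exact h.E_C hx hx'.2.2
  · obtain ⟨p, hp, hxp⟩ := mem_un.1 hx'
    have hp' := (Finset.mem_erase.1 hp).2
    rcases hx with hx | hx | hx
    · exact h.o_C hp' hxp (hx ▸ hz)
    · exact h.o_C hp' hxp (hx ▸ hz1)
    · exact h.E_o hx hp' hxp

end Std

end Pool.Agent.Helper74.TZ
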