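import Pool.Agent.Helper74.TZ.Std2

set_option linter.unusedSectionVars false
set_option linter.unusedVariables false

namespace Pool.Agent.Helper74.TZ

variable {V : Type} [DecidableEq V] {G H : SimpleGraph V}

/-- refined counting -/
theorem MO.bar' {S B : Finset V} {O : Finset (Finset V)} {f : V → V} (hf : MO G S f)
    (hb : Bar G S B O) : O.card ≤ (B.filter fun y => f y ∈ un O).card := by
  classical
  have key : ∀ o ∈ O, ∃ v ∈ o, f v ∈ B := by
    intro o ho
    by_contra hcon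
    push Not at hcon
    have hoS : o ⊆ S := fun v hv => (Finset.mem_sdiff.1 (hb.oS o ho hv)).1
    have h1 : MO G o f := by
      apply hf.sub hoS
      intro u hu
      exact hb.cl o ho u hu _ (Finset.mem_sdiff.2 ⟨(hf u (hoS hu)).1, hcon u hu⟩)
        (hf u (hoS hu)).2.1
    have h2 := PM.even ⟨f, h1⟩
    exact (Nat.not_even_iff_odd.2 (hb.odd o ho)) h2
  rcases O.eq_empty_or_nonempty with h0 | ⟨o0, ho0⟩
  · subst h0; simp
  haveI : Nonempty V := by
    obtain ⟨v, _, _⟩ := key o0 ho0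
    exact ⟨v⟩
  choose! g hg1 hg2 using key
  have hgS : ∀ o ∈ O, g o ∈ S := fun o ho => (Finset.mem_sdiff.1 (hb.oS o ho (hg1 o ho))).1
  refine Finset.card_le_card_of_injOn (fun o => f (g o)) (fun o ho => ?_) ?_
  · show f (g o) ∈ (B.filter fun y => f y ∈ un O : Finset V)
    rw [Finset.mem_filter, (hf _ (hgS o ho)).2.2]
    exact ⟨hg2 o ho, mem_un.2 ⟨o, ho, hg1 o ho⟩⟩
  · intro o ho o' ho' e
    by_contra hne
    have h3 : g o = g o' := hf.inj (hgS o ho) (hgS o' ho') e
    exact Finset.disjoint_left.1 (hb.disj o ho o' ho' hne) (hg1 o ho) (h3 ▸ hg1 o' ho')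

theorem clq_of (C : Finset V) {u v : V} (h : G.Adj u v) : (clq G C).Adj u v := Or.inl h

theorem of_clq {C : Finset V} {u v : V} (h : (clq G C).Adj u v) (hu : u ∉ C ∨ v ∉ C) : G.Adj u v := by
  rcases h with h | ⟨_, h1, h2⟩
  · exact h
  · rcases hu with hu | hu
    · exact absurd h1 hu
    · exact absurd h2 hu

theorem Tri.mono' {T : Finset V} (h : Tri G T) (hGH : ∀ u ∈ T, ∀ v ∈ T, G.Adj u v → H.Adj u v) :
    Tri H T := ⟨h.1, fun u hu v hv hne => hGH u hu v hv (h.2 u hu v hv hne)⟩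

namespace Std

variable {K C : Finset V} {O : Finset (Finset V)} {E : Finset V}

theorem disC_un (h : Std G K C O E) : Disjoint C (un O) := by
  rw [Finset.disjoint_left]
  intro x hx hx'
  obtain ⟨o, ho, hxo⟩ := mem_un.1 hx'
  exact h.o_C ho hxo hx

/-- the inner graph is factor-critical -/
theorem FC_in (hF : FC G K) (h : Std G K C O E) : FC (clq G C) (C ∪ un O) := by
  refine ⟨h.cne.mono Finset.subset_union_left, ?_⟩
  intro v hv
  rcases Finset.mem_union.1 hv with hv | hv
  · have e : (C ∪ un O).erase v = C.erase v ∪ un O := by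
      rw [Finset.erase_union_distrib]
      congr 1
      apply Finset.erase_eq_of_notMem
      exact fun h1 => Finset.disjoint_left.1 h.disC_un hv h1
    rw [e]
    exact (h.s1 hF hv).mono fun a _ b _ => clq_of C
  · obtain ⟨o, ho, hvo⟩ := mem_un.1 hv
    obtain ⟨z, hz, z', hz', hne⟩ := Finset.one_lt_card.1 (by have := h.two; omega : 1 < C.card)
    have h1 : PM (clq G C) ((C.erase z).erase z' ∪ un (O.erase o)) :=
      (h.s2 hz hz' hne ho).mono fun a _ b _ => clq_of C
    have hadj : (clq G C).Adj z z' := Or.inr ⟨hne, hz, hz'⟩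
    have h2 : PM (clq G C) (o.erase v) := ((h.fc o ho).2 v hvo).mono fun a _ b _ => clq_of C
    have hnun : ∀ x ∈ C, x ∉ un (O.erase o) := fun x hx h3 =>
      Finset.disjoint_left.1 h.disC_un hx (un_mono (Finset.erase_subset _ _) h3)
    have h3 := h1.add hadj (by
        rw [Finset.mem_union, not_or]
        exact ⟨fun h4 => (Finset.mem_erase.1 (Finset.mem_of_mem_erase h4)).1 rfl, hnun z hz⟩)
      (by
        rw [Finset.mem_union, not_or]
        exact ⟨Finset.notMem_erase _ _, hnun z' hz'⟩)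
    have h4 := h3.union h2 (by
      rw [Finset.disjoint_right]
      intro x hx hx'
      have hxo := Finset.mem_of_mem_erase hx
      rw [Finset.mem_insert, Finset.mem_insert, Finset.mem_union] at hx'
      rcases hx' with h5 | h5 | h5 | h5
      · exact h.o_C ho hxo (h5 ▸ hz)
      · exact h.o_C ho hxo (h5 ▸ hz')
      · exact h.o_C ho hxo (Finset.mem_of_mem_erase (Finset.mem_of_mem_erase h5))
      · obtain ⟨p, hp, hxp⟩ := mem_un.1 h5
        have hp' := Finset.mem_erase.1 hp
        exact Finset.disjoint_left.1 (h.bar.disj p hp'.2 o ho hp'.1) hxp hxo)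
    have e : (C ∪ un O).erase v = insert z (insert z' ((C.erase z).erase z' ∪ un (O.erase o))) ∪
        o.erase v := by
      ext x
      simp only [Finset.mem_erase, Finset.mem_union, Finset.mem_insert, mem_un]
      constructor
      · rintro ⟨h5, h6 | ⟨p, hp, hx⟩⟩
        · by_cases h7 : x = z
          · exact Or.inl (Or.inl h7)
          · by_cases h8 : x = z'
            · exact Or.inl (Or.inr (Or.inl h8))
            · exact Or.inl (Or.inr (Or.inr (Or.inl ⟨h8, h7, h6⟩)))
        · by_cases h7 : p = o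
          · exact Or.inr ⟨h5, h7 ▸ hx⟩
          · exact Or.inl (Or.inr (Or.inr (Or.inr ⟨p, ⟨h7, hp⟩, hx⟩)))
      · have hvC : v ∉ C := h.o_C ho hvo
        rintro ((h5 | h5 | h5 | ⟨p, hp, hx⟩) | h5)
        · rw [h5]; exact ⟨fun e => hvC (e ▸ hz), Or.inl hz⟩
        · rw [h5]; exact ⟨fun e => hvC (e ▸ hz'), Or.inl hz'⟩
        · exact ⟨fun e => hvC (e ▸ h5.2.2), Or.inl h5.2.2⟩
        · exact ⟨fun e => Finset.disjoint_left.1 (h.bar.disj p hp.2 o ho hp.1) hx (e ▸ hvo),
            Or.inr ⟨p, hp.2, hx⟩⟩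
        · exact ⟨h5.1, Or.inr ⟨o, ho, h5.2⟩⟩
    rw [e]
    exact h4

theorem K_sdiff (h : Std G K C O E) {T : Finset V} (hT : T ⊆ C ∪ un O) :
    K \ T = ((C ∪ un O) \ T) ∪ E := by
  rw [h.K_eq, Finset.union_sdiff_distrib]
  congr 1
  rw [Finset.sdiff_eq_self_iff_disjoint]
  exact (h.disCE.mono_left hT).symm

/-- transfer of bad triangles to the inner graph -/
theorem bad_in (hF : FC G K) (h : Std G K C O E) (hcut : NoCut G K) {T : Finset V}
    (hT : T ⊆ C ∪ un O) (hTri : Tri G T) (hbad : ¬ PM G (K \ T)) :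
    ¬ PM (clq G C) ((C ∪ un O) \ T) := by
  rintro ⟨f, hf⟩
  -- a pair inside C
  obtain ⟨v, hvS, hvC, hfC⟩ : ∃ v ∈ (C ∪ un O) \ T, v ∈ C ∧ f v ∈ C := by
    by_contra hcon
    push Not at hcon
    apply hbad
    rw [h.K_sdiff hT]
    refine PM.union ⟨f, fun u hu => ⟨(hf u hu).1, ?_, (hf u hu).2.2⟩⟩ (h.PM_E hF)
      (h.disCE.mono_left Finset.sdiff_subset)
    refine of_clq (hf u hu).2.1 ?_
    by_cases h1 : u ∈ C
    · exact Or.inr (hcon u hu h1)
    · exact Or.inl h1
  set P := O.filter fun o => Disjoint o T with hP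
  have hPO : P ⊆ O := Finset.filter_subset _ _
  have hbar : Bar (clq G C) ((C ∪ un O) \ T) (C \ T) P := by
    refine ⟨Finset.sdiff_subset_sdiff Finset.subset_union_left (Finset.Subset.refl _), ?_,
      fun o ho => h.bar.odd o (hPO ho), fun o ho o' ho' => h.bar.disj o (hPO ho) o' (hPO ho'), ?_⟩
    · intro o ho x hx
      have h1 := Finset.mem_filter.1 ho
      rw [Finset.mem_sdiff, Finset.mem_sdiff, Finset.mem_sdiff, Finset.mem_union]
      exact ⟨⟨Or.inr (mem_un.2 ⟨o, h1.1, hx⟩), Finset.disjoint_left.1 h1.2 hx⟩,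
        fun h2 => h.o_C h1.1 hx h2.1⟩
    · intro o ho u hu w hw huw
      rw [Finset.mem_sdiff, Finset.mem_sdiff, Finset.mem_sdiff] at hw
      have hwC : w ∉ C := fun h1 => hw.2 ⟨h1, hw.1.2⟩
      refine h.bar.cl o (hPO ho) u hu w (Finset.mem_sdiff.2 ⟨?_, hwC⟩) (of_clq huw (Or.inr hwC))
      rw [h.K_eq]
      exact Finset.mem_union_left _ hw.1.1
  have hcnt := hf.bar' hbar
  have hnun : ∀ x ∈ C, x ∉ un P := fun x hx h3 =>
    Finset.disjoint_left.1 h.disC_un hx (un_mono hPO h3)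
  -- T meets at most one member
  have hone : ∀ o ∈ O, o ∉ P → ∀ o' ∈ O, o' ∉ P → o = o' := by
    intro o ho hoP o' ho' hoP'
    have h1 : ¬ Disjoint o T := fun h2 => hoP (Finset.mem_filter.2 ⟨ho, h2⟩)
    have h2 : ¬ Disjoint o' T := fun h2 => hoP' (Finset.mem_filter.2 ⟨ho', h2⟩)
    rw [Finset.not_disjoint_iff] at h1 h2
    obtain ⟨a, ha, haT⟩ := h1
    obtain ⟨b, hb, hbT⟩ := h2
    by_contra hne
    have hab : a ≠ b := fun e => Finset.disjoint_left.1 (h.bar.disj o ho o' ho' hne) ha (e ▸ hb)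
    have h3 := h.bar.cl o ho a ha b (h.bar.oS o' ho' hb) (hTri.2 a haT b hbT hab)
    exact Finset.disjoint_left.1 (h.bar.disj o ho o' ho' hne) h3 hb
  have hPc : O.card ≤ P.card + 1 := by
    have h1 : (O.filter fun o => ¬ Disjoint o T).card ≤ 1 := by
      rw [Finset.card_le_one]
      intro a ha b hb
      rw [Finset.mem_filter] at ha hb
      exact hone a ha.1 (fun h2 => ha.2 (Finset.mem_filter.1 h2).2) b hb.1
        (fun h2 => hb.2 (Finset.mem_filter.1 h2).2)
    have h2 := Finset.card_filter_add_card_filter_not (s := O) (fun o => Disjoint o T)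
    rw [← hP] at h2
    omega
  have hvT : v ∉ T := (Finset.mem_sdiff.1 hvS).2
  have hfS := (hf v hvS).1
  have hfT : f v ∉ T := (Finset.mem_sdiff.1 hfS).2
  have hfv : f v ≠ v := hf.ne hvS
  -- the set of elements of C matched to members
  set W := (C \ T).filter fun y => f y ∈ un P with hW
  have hWsub : W ⊆ ((C \ T).erase v).erase (f v) := by
    intro y hy
    rw [hW, Finset.mem_filter] at hy
    rw [Finset.mem_erase, Finset.mem_erase]
    refine ⟨?_, ?_, hy.1⟩
    · rintro rfl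
      rw [(hf v hvS).2.2] at hy
      exact hnun v hvC hy.2
    · rintro rfl
      exact hnun _ hfC hy.2
  have hc1 : ((C \ T).erase v).card + 1 = (C \ T).card :=
    Finset.card_erase_add_one (Finset.mem_sdiff.2 ⟨hvC, hvT⟩)
  have hc2 : (((C \ T).erase v).erase (f v)).card + 1 = ((C \ T).erase v).card :=
    Finset.card_erase_add_one (Finset.mem_erase.2 ⟨hfv, Finset.mem_sdiff.2 ⟨hfC, hfT⟩⟩)
  have hc3 := Finset.card_le_card hWsub
  have hc4 : (C \ T).card + (C ∩ T).card = C.card := Finset.card_sdiff_add_card_inter C T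
  have hcc := h.card
  have hCT : C ∩ T = ∅ := by
    rw [← Finset.card_eq_zero]
    omega
  have hTun : T ⊆ un O := by
    intro x hx
    refine (Finset.mem_union.1 (hT hx)).resolve_left fun h1 => ?_
    have : x ∈ C ∩ T := Finset.mem_inter.2 ⟨h1, hx⟩
    rw [hCT] at this
    exact Finset.notMem_empty _ this
  obtain ⟨t, ht⟩ : T.Nonempty := by rw [← Finset.card_pos, hTri.1]; norm_num
  obtain ⟨o, ho, hto⟩ := mem_un.1 (hTun ht)
  have hoP : ∀ o' ∈ O, o' ≠ o → o' ∈ P := by
    intro o' ho' hne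
    by_contra h1
    apply hne
    refine hone o' ho' h1 o ho fun h2 => ?_
    exact Finset.disjoint_left.1 (Finset.mem_filter.1 h2).2 hto ht
  have hTo : T ⊆ o := by
    intro x hx
    obtain ⟨o', ho', hxo⟩ := mem_un.1 (hTun hx)
    by_contra h1
    have h2 := hoP o' ho' (fun e => h1 (e ▸ hxo))
    exact Finset.disjoint_left.1 (Finset.mem_filter.1 h2).2 hxo hx
  -- f preserves o \ T
  have hpres : MO G (o \ T) f := by
    intro u hu
    have hu' := Finset.mem_sdiff.1 hu
    have huC := h.o_C ho hu'.1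
    have huS : u ∈ (C ∪ un O) \ T := Finset.mem_sdiff.2
      ⟨Finset.mem_union_right _ (mem_un.2 ⟨o, ho, hu'.1⟩), hu'.2⟩
    have hfu := hf u huS
    have hGu : G.Adj u (f u) := of_clq hfu.2.1 (Or.inl huC)
    refine ⟨?_, hGu, hfu.2.2⟩
    have hfuS := Finset.mem_sdiff.1 hfu.1
    refine Finset.mem_sdiff.2 ⟨?_, hfuS.2⟩
    by_cases hfuC : f u ∈ C
    · exfalso
      have hcl : ∀ y, y ∈ un P → y ∉ o := by
        intro y hy hyo
        obtain ⟨p, hp, hyp⟩ := mem_un.1 hy
        have hpo : p ≠ o := by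
          rintro rfl
          exact Finset.disjoint_left.1 (Finset.mem_filter.1 hp).2 hto ht
        exact Finset.disjoint_left.1 (h.bar.disj p (hPO hp) o ho hpo) hyp hyo
      have hW2 : W ⊆ (((C \ T).erase v).erase (f v)).erase (f u) := by
        intro y hy
        refine Finset.mem_erase.2 ⟨?_, hWsub hy⟩
        rintro rfl
        rw [hW, Finset.mem_filter, hfu.2.2] at hy
        exact hcl u hy.2 hu'.1
      have hfufv : f u ≠ f v := fun e => huC (by rw [hf.inj huS hvS e]; exact hvC)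
      have hfuv : f u ≠ v := fun e => huC (by
        have := hfu.2.2
        rw [e] at this
        rw [← this]; exact hfC)
      have hc5 : ((((C \ T).erase v).erase (f v)).erase (f u)).card + 1 =
          (((C \ T).erase v).erase (f v)).card :=
        Finset.card_erase_add_one (Finset.mem_erase.2 ⟨hfufv, Finset.mem_erase.2 ⟨hfuv,
          Finset.mem_sdiff.2 ⟨hfuC, hfuS.2⟩⟩⟩)
      have hc6 := Finset.card_le_card hW2
      omega
    · refine h.bar.cl o ho u hu'.1 (f u) (Finset.mem_sdiff.2 ⟨?_, hfuC⟩) hGu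
      rw [h.K_eq]
      exact Finset.mem_union_left _ hfuS.1
  apply hbad
  have e : K \ T = (K \ o) ∪ (o \ T) := by
    ext x
    simp only [Finset.mem_sdiff, Finset.mem_union]
    constructor
    · rintro ⟨h1, h2⟩
      by_cases h3 : x ∈ o
      · exact Or.inr ⟨h3, h2⟩
      · exact Or.inl ⟨h1, h3⟩
    · rintro (⟨h1, h2⟩ | ⟨h1, h2⟩)
      · exact ⟨h1, fun h3 => h2 (hTo h3)⟩
      · exact ⟨h.o_K ho h1, h2⟩
  rw [e]
  refine (h.PM_compl hF hcut ho).union ⟨f, hpres⟩ ?_
  rw [Finset.disjoint_left]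
  intro x hx hx'
  exact (Finset.mem_sdiff.1 hx).2 (Finset.mem_sdiff.1 hx').1

/-- transfer of bad triangles to a member -/
theorem bad_o (hF : FC G K) (h : Std G K C O E) (hcut : NoCut G K) {T o : Finset V} (ho : o ∈ O)
    (hT : T ⊆ o) (hbad : ¬ PM G (K \ T)) : ¬ PM G (o \ T) := by
  intro h1
  apply hbad
  have e : K \ T = (K \ o) ∪ (o \ T) := by
    ext x
    simp only [Finset.mem_sdiff, Finset.mem_union]
    constructor
    · rintro ⟨h1, h2⟩
      by_cases h3 : x ∈ o
      · exact Or.inr ⟨h3, h2⟩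
      · exact Or.inl ⟨h1, h3⟩
    · rintro (⟨h1, h2⟩ | ⟨h1, h2⟩)
      · exact ⟨h1, fun h3 => h2 (hT h3)⟩
      · exact ⟨h.o_K ho h1, h2⟩
  rw [e]
  refine (h.PM_compl hF hcut ho).union h1 ?_
  rw [Finset.disjoint_left]
  intro x hx hx'
  exact (Finset.mem_sdiff.1 hx).2 (Finset.mem_sdiff.1 hx').1

/-- a perfect matching of `E \ T` together with an element of `C` extends -/
theorem glue (hF : FC G K) (h : Std G K C O E) {A z : _} (hz : z ∈ C) {T : Finset V}
    (hA : PM G A) (e : K \ T = (C.erase z ∪ un O) ∪ A) (hd : Disjoint (C.erase z ∪ un O) A) :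
    PM G (K \ T) := by
  rw [e]
  exact (h.s1 hF hz).union hA hd

/-- transfer of bad triangles of `E` to the contracted graph -/
theorem bad_E (hF : FC G K) (h : Std G K C O E) {c : V} (hc : c ∈ C) {T : Finset V} (hT : T ⊆ E)
    (hbad : ¬ PM G (K \ T)) : ¬ PM (ctr G C c) (insert c E \ T) := by
  intro h1
  have hcE : c ∉ E := fun h1 => h.E_C h1 hc
  have hcT : c ∉ T := fun h2 => hcE (hT h2)
  obtain ⟨e, he, hce, h2⟩ := h1.partner (v := c)
    (Finset.mem_sdiff.2 ⟨Finset.mem_insert_self _ _, hcT⟩)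
  have hec : e ≠ c := hce.1.symm
  have he' := Finset.mem_sdiff.1 he
  have heE : e ∈ E := Finset.mem_of_mem_insert_of_ne he'.1 hec
  obtain ⟨z, hz, hze⟩ : ∃ z ∈ C, G.Adj z e := by
    rcases hce.2 with h3 | h3 | h3
    · exact absurd rfl h3.1
    · exact h3.2
    · exact absurd h3.1 hec
  have e1 : (insert c E \ T).erase c = E \ T := by
    ext x
    simp only [Finset.mem_erase, Finset.mem_sdiff, Finset.mem_insert]
    constructor
    · rintro ⟨h3, h4 | h4, h5⟩
      · exact absurd h4 h3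
      · exact ⟨h4, h5⟩
    · rintro ⟨h3, h4⟩
      exact ⟨fun e => hcE (e ▸ h3), Or.inr h3, h4⟩
  rw [e1] at h2
  have h3 : PM G ((E \ T).erase e) := h2.mono fun a ha b hb hab => by
    have haE : a ∈ E := (Finset.mem_sdiff.1 (Finset.mem_of_mem_erase ha)).1
    have hbE : b ∈ E := (Finset.mem_sdiff.1 (Finset.mem_of_mem_erase hb)).1
    rcases hab.2 with h3 | h3 | h3
    · exact h3.2.2
    · exact absurd (h3.1 ▸ haE) hcE
    · exact absurd (h3.1 ▸ hbE) hcE
  have hzE : z ∉ E := fun h4 => h.E_C h4 hz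
  have h4 := h3.add hze (fun h5 => hzE (Finset.mem_sdiff.1 (Finset.mem_of_mem_erase h5)).1)
    (Finset.notMem_erase _ _)
  rw [Finset.insert_erase (Finset.mem_sdiff.2 ⟨heE, he'.2⟩)] at h4
  apply hbad
  have e2 : K \ T = (C.erase z ∪ un O) ∪ insert z (E \ T) := by
    ext x
    rw [h.K_eq]
    simp only [Finset.mem_sdiff, Finset.mem_union, Finset.mem_insert, Finset.mem_erase]
    constructor
    · rintro ⟨(h5 | h5) | h5, h6⟩
      · by_cases h7 : x = z
        · exact Or.inr (Or.inl h7)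
        · exact Or.inl (Or.inl ⟨h7, h5⟩)
      · exact Or.inl (Or.inr h5)
      · exact Or.inr (Or.inr ⟨h5, h6⟩)
    · rintro ((h5 | h5) | (h5 | h5))
      · exact ⟨Or.inl (Or.inl h5.2), fun h6 => h.E_C (hT h6) h5.2⟩
      · exact ⟨Or.inl (Or.inr h5), fun h6 => h.E_un (hT h6) h5⟩
      · rw [h5]; exact ⟨Or.inl (Or.inl hz), fun h6 => hzE (hT h6)⟩
      · exact ⟨Or.inr h5.1, h5.2⟩
  refine h.glue hF hz h4 e2 ?_
  rw [Finset.disjoint_left]
  intro x hx hx'
  rw [Finset.mem_union, Finset.mem_erase] at hx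
  rw [Finset.mem_insert, Finset.mem_sdiff] at hx'
  rcases hx' with h5 | h5
  · rcases hx with h6 | h6
    · exact h6.1 h5
    · rw [h5] at h6
      exact Finset.disjoint_left.1 h.disC_un hz h6
  · rcases hx with h6 | h6
    · exact h.E_C h5.1 h6.2
    · exact h.E_un h5.1 h6

/-- transfer of bad triangles with one vertex in `C` -/
theorem bad_1 (hF : FC G K) (h : Std G K C O E) {c z a b : V} (hc : c ∈ C) (hz : z ∈ C)
    (ha : a ∈ E) (hb : b ∈ E) (hab : a ≠ b) (hTri : Tri G {z, a, b})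
    (hbad : ¬ PM G (K \ {z, a, b})) :
    Tri (ctr G C c) {c, a, b} ∧ ¬ PM (ctr G C c) (insert c E \ {c, a, b}) := by
  have hcE : c ∉ E := fun h1 => h.E_C h1 hc
  have hzE : z ∉ E := fun h1 => h.E_C h1 hz
  have hca : c ≠ a := fun e => hcE (e ▸ ha)
  have hcb : c ≠ b := fun e => hcE (e ▸ hb)
  have hza : z ≠ a := fun e => hzE (e ▸ ha)
  have hzb : z ≠ b := fun e => hzE (e ▸ hb)
  have g1 : G.Adj z a := hTri.2 z (by simp) a (by simp) hza
  have g2 : G.Adj z b := hTri.2 z (by simp) b (by simp) hzb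
  have g3 : G.Adj a b := hTri.2 a (by simp) b (by simp) hab
  constructor
  · refine ⟨Finset.card_eq_three.2 ⟨c, a, b, hca, hcb, hab, rfl⟩, ?_⟩
    have k1 : (ctr G C c).Adj c a := ⟨hca, Or.inr (Or.inl ⟨rfl, z, hz, g1⟩)⟩
    have k2 : (ctr G C c).Adj c b := ⟨hcb, Or.inr (Or.inl ⟨rfl, z, hz, g2⟩)⟩
    have k3 : (ctr G C c).Adj a b := ⟨hab, Or.inl ⟨hca.symm, hcb.symm, g3⟩⟩
    intro u hu v hv huv
    rw [Finset.mem_insert, Finset.mem_insert, Finset.mem_singleton] at hu hv
    rcases hu with rfl | rfl | rfl <;> rcases hv with rfl | rfl | rfl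
    · exact absurd rfl huv
    · exact k1
    · exact k2
    · exact k1.symm
    · exact absurd rfl huv
    · exact k3
    · exact k2.symm
    · exact k3.symm
    · exact absurd rfl huv
  · intro h1
    apply hbad
    have h2 : PM G (insert c E \ {c, a, b}) := h1.mono fun u hu v hv huv => by
      have key : ∀ x ∈ insert c E \ {c, a, b}, x ≠ c := by
        intro x hx e
        rw [Finset.mem_sdiff] at hx
        exact hx.2 (by rw [e]; simp)
      rcases huv.2 with h3 | h3 | h3
      · exact h3.2.2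
      · exact absurd h3.1 (key u hu)
      · exact absurd h3.1 (key v hv)
    have e2 : K \ {z, a, b} = (C.erase z ∪ un O) ∪ (insert c E \ {c, a, b}) := by
      ext x
      rw [h.K_eq]
      simp only [Finset.mem_sdiff, Finset.mem_union, Finset.mem_insert, Finset.mem_erase,
        Finset.mem_singleton, not_or]
      constructor
      · rintro ⟨(h5 | h5) | h5, h6⟩
        · exact Or.inl (Or.inl ⟨h6.1, h5⟩)
        · exact Or.inl (Or.inr h5)
        · exact Or.inr ⟨Or.inr h5, fun e => hcE (e ▸ h5), h6.2.1, h6.2.2⟩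
      · rintro ((h5 | h5) | ⟨h5 | h5, h6⟩)
        · exact ⟨Or.inl (Or.inl h5.2), h5.1, fun e => h.E_C ha (e ▸ h5.2), fun e => h.E_C hb (e ▸ h5.2)⟩
        · exact ⟨Or.inl (Or.inr h5), fun e => Finset.disjoint_left.1 h.disC_un hz (e ▸ h5),
            fun e => h.E_un ha (e ▸ h5), fun e => h.E_un hb (e ▸ h5)⟩
        · exact absurd h5 h6.1
        · exact ⟨Or.inr h5, fun e => hzE (e ▸ h5), h6.2.1, h6.2.2⟩
    refine h.glue hF hz h2 e2 ?_
    rw [Finset.disjoint_left]
    intro x hx hx'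
    rw [Finset.mem_union, Finset.mem_erase] at hx
    simp only [Finset.mem_insert, Finset.mem_sdiff, Finset.mem_singleton, not_or] at hx'
    have hxE := hx'.1.resolve_left hx'.2.1
    rcases hx with h6 | h6
    · exact h.E_C hxE h6.2
    · exact h.E_un hxE h6

end Std

end Pool.Agent.Helper74.TZ
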