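import Pool.Agent.Helper74.TZ.Comb

set_option linter.unusedSectionVars false
set_option linter.unusedVariables false

namespace Pool.Agent.Helper74.TZ

variable {V : Type} [DecidableEq V] {G H : SimpleGraph V}

theorem Pot.congr {K : Finset V} {p q : V → ℚ} (h : Pot G K p) (e : ∀ v ∈ K, q v = p v) :
    Pot G K q := by
  refine ⟨fun v hv => by rw [e v hv]; exact h.lo v hv, fun v hv => by rw [e v hv]; exact h.hi v hv,
    fun u hu v hv huv => by rw [e u hu, e v hv]; exact h.ed u hu v hv huv, ?_, ?_⟩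
  · intro T hT hTri hbad
    rw [Finset.sum_congr rfl fun v hv => e v (hT hv)]
    exact h.tr T hT hTri hbad
  · rw [Finset.sum_congr rfl fun v hv => by rw [e v hv]]
    exact h.co

theorem Pot.sum_le {K : Finset V} {p : V → ℚ} (h : Pot G K p) : ∑ v ∈ K, p v ≤ K.card / 3 - 1 :=
  (Finset.sum_le_sum fun v _ => phi_ge (p v)).trans h.co

theorem Pot_zero {K : Finset V} (h3 : 3 ≤ K.card)
    (hn : ∀ T ⊆ K, Tri G T → PM G (K \ T)) : Pot G K fun _ => 0 := by
  refine ⟨fun _ _ => by norm_num, fun _ _ => by norm_num, fun _ _ _ _ _ => by norm_num, ?_, ?_⟩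
  · intro T hT hTri hbad
    exact absurd (hn T hT hTri) hbad
  · have h4 : (3 : ℚ) ≤ K.card := by exact_mod_cast h3
    rw [Finset.sum_congr rfl fun v _ => phi_zero, Finset.sum_const_zero]
    linarith

theorem Pot_zero_three {K : Finset V} (h3 : K.card = 3) : Pot G K fun _ => 0 := by
  apply Pot_zero h3.ge
  intro T hT hTri
  have : T = K := Finset.eq_of_subset_of_card_le hT (by rw [h3, hTri.1])
  rw [this, Finset.sdiff_self]
  exact PM_empty

theorem Pot.raise {K : Finset V} {p : V → ℚ} (h : Pot G K p) {c : V} (hc : c ∈ K)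
    (hb : p c < -1 / 2 → ∑ v ∈ K, phi (p v) + 2 / 3 * (-1 / 2 - p c) ≤ K.card / 3 - 1) :
    ∃ q, Pot G K q ∧ -1 / 2 ≤ q c := by
  classical
  by_cases h1 : p c < -1 / 2
  · have hb := hb h1
    set q : V → ℚ := fun v => if v = c then -1 / 2 else p v with hq
    have hqc : q c = -1 / 2 := by simp [hq]
    have hqn : ∀ v, v ≠ c → q v = p v := fun v hv => by simp only [hq, if_neg hv]
    have hle : ∀ v, p v ≤ q v := by
      intro v
      by_cases hv : v = c
      · rw [hv, hqc]; exact h1.le
      · rw [hqn v hv]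
    refine ⟨q, ⟨fun v hv => (h.lo v hv).trans (hle v), ?_, ?_, ?_, ?_⟩, hqc.ge⟩
    · intro v hv
      by_cases hv' : v = c
      · rw [hv', hqc]; norm_num
      · rw [hqn v hv']; exact h.hi v hv
    · intro u hu v hv huv
      exact (h.ed u hu v hv huv).trans (add_le_add (hle u) (hle v))
    · intro T hT hTri hbad
      exact (h.tr T hT hTri hbad).trans (Finset.sum_le_sum fun v _ => hle v)
    · have e1 : ∑ v ∈ K, phi (q v) = ∑ v ∈ K.erase c, phi (p v) + phi (-1 / 2) := by
        rw [← Finset.sum_erase_add K _ hc, hqc]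
        congr 1
        exact Finset.sum_congr rfl fun v hv => by rw [hqn v (Finset.ne_of_mem_erase hv)]
      have e2 : ∑ v ∈ K, phi (p v) = ∑ v ∈ K.erase c, phi (p v) + phi (p c) :=
        (Finset.sum_erase_add K _ hc).symm
      have e3 : phi (-1 / 2) = 2 / 3 * (-1 / 2) := phi_nonpos (by norm_num)
      have e4 : phi (p c) = 2 / 3 * p c := phi_nonpos (by linarith)
      rw [e1]
      rw [e2, e4] at hb
      rw [e3]
      linarith
  · exact ⟨p, h, not_lt.1 h1⟩

/-- gluing potentials of disjoint sets -/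
theorem glue_pot {O : Finset (Finset V)} (hd : ∀ o ∈ O, ∀ o' ∈ O, o ≠ o' → Disjoint o o')
    (qs : Finset V → V → ℚ) (hq : ∀ o ∈ O, Pot G o (qs o)) :
    ∃ q : V → ℚ, (∀ o ∈ O, ∀ v ∈ o, q v = qs o v) ∧ ∀ o ∈ O, Pot G o q := by
  classical
  have key : ∀ v, ∃ y, ∀ o ∈ O, v ∈ o → y = qs o v := by
    intro v
    by_cases h : ∃ o ∈ O, v ∈ o
    · obtain ⟨o, ho, hv⟩ := h
      refine ⟨qs o v, fun o' ho' hv' => ?_⟩
      by_cases e : o = o'
      · rw [e]
      · exact absurd hv' (Finset.disjoint_left.1 (hd o ho o' ho' e) hv)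
    · exact ⟨0, fun o ho hv => absurd ⟨o, ho, hv⟩ h⟩
  choose q hq' using key
  exact ⟨q, fun o ho v hv => hq' v o ho hv, fun o ho => (hq o ho).congr fun v hv => hq' v o ho hv⟩

theorem comb_sum {K C : Finset V} {O : Finset (Finset V)} {E : Finset V}
    (h : Std G K C O E) {c0 : V} (hc0 : c0 ∈ C) {pin pE q p : V → ℚ} {a b : ℚ}
    (qE : ∀ v ∈ E, p v = pE v) (qC : ∀ v ∈ C, p v = a * pin v + b)
    (qO : ∀ v ∈ un O, p v = a * pin v + b * q v) :
    ∑ v ∈ K, p v = a * ∑ v ∈ C ∪ un O, pin v + b * (C.card + ∑ v ∈ un O, q v) +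
      ∑ v ∈ E, pE v := by
  have s1 : ∑ v ∈ K, p v = ∑ v ∈ C, p v + ∑ v ∈ un O, p v + ∑ v ∈ E, p v := by
    conv_lhs => rw [h.K_eq]
    rw [Finset.sum_union h.disCE, Finset.sum_union h.disC_un]
  rw [s1, Finset.sum_congr rfl qE, Finset.sum_congr rfl qC, Finset.sum_congr rfl qO,
    Finset.sum_union h.disC_un, Finset.sum_add_distrib, Finset.sum_add_distrib, ← Finset.mul_sum,
    ← Finset.mul_sum, ← Finset.mul_sum, Finset.sum_const, nsmul_eq_mul]
  ring

/-- the sum of the combined potential -/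
theorem comb_bound {K C : Finset V} {O : Finset (Finset V)} {E : Finset V} (hF : FC G K)
    (h : Std G K C O E) (hcut : NoCut G K) {c0 : V} (hc0 : c0 ∈ C) {pin pE q : V → ℚ}
    (hin : Pot (clq G C) (C ∪ un O) pin) (hE : Pot (ctr G C c0) (insert c0 E) pE)
    (hq : ∀ o ∈ O, Pot G o q) {s t : ℚ}
    (hs : ∑ v ∈ C ∪ un O, pin v ≤ ((C ∪ un O).card : ℚ) / 3 - 1 - s)
    (ht : ∑ v ∈ un O, q v ≤ ((un O).card : ℚ) / 3 - O.card - t) :
    ∃ p : V → ℚ, Pot G K p ∧ ∑ v ∈ K, p v ≤ K.card / 3 - 1 - ((1 + pE c0) * C.card / 6 - 1 / 3 +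
      phi (pE c0) - pE c0 + (1 - pE c0) / 2 * s + (1 + pE c0) / 2 * t) := by
  obtain ⟨p, hp, h1, h2, h3, -⟩ := comb hF h hcut hc0 hin hE hq
  refine ⟨p, hp, ?_⟩
  have hc0E : c0 ∉ E := fun h1 => h.E_C h1 hc0
  have hx1 : -1 ≤ pE c0 := hE.lo c0 (Finset.mem_insert_self _ _)
  have hx2 : pE c0 ≤ 1 := hE.hi c0 (Finset.mem_insert_self _ _)
  rw [comb_sum h hc0 h1 h2 h3]
  have e1 : ∑ v ∈ E, pE v ≤ ((E.card : ℚ) + 1) / 3 - 1 - phi (pE c0) := by
    have := hE.co
    rw [Finset.sum_insert hc0E, Finset.card_insert_of_notMem hc0E] at this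
    push_cast at this
    have h4 : ∑ v ∈ E, pE v ≤ ∑ v ∈ E, phi (pE v) := Finset.sum_le_sum fun v _ => phi_ge _
    linarith
  have e2 : (K.card : ℚ) = C.card + (un O).card + E.card := by
    have : K.card = C.card + (un O).card + E.card := by
      conv_lhs => rw [h.K_eq]
      rw [Finset.card_union_of_disjoint h.disCE, Finset.card_union_of_disjoint h.disC_un]
    exact_mod_cast this
  have e3 : (O.card : ℚ) = C.card - 1 := by
    have : (O.card : ℚ) + 1 = C.card := by exact_mod_cast h.card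
    linarith
  rw [Finset.card_union_of_disjoint h.disC_un] at hs
  push_cast at hs
  have e4 := mul_le_mul_of_nonneg_left hs (by linarith : 0 ≤ (1 - pE c0) / 2)
  have e5 := mul_le_mul_of_nonneg_left ht (by linarith : 0 ≤ (1 + pE c0) / 2)
  rw [e3] at e5
  rw [e2]
  linarith

/-- the step for non-full configurations -/
theorem std_concl {K C : Finset V} {O : Finset (Finset V)} {E : Finset V} (hF : FC G K)
    (h : Std G K C O E) (hcut : NoCut G K)
    (ih : ∀ (G' : SimpleGraph V) (K' : Finset V), K'.card < K.card → FC G' K' → Concl G' K') :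
    Concl G K := by
  classical
  obtain ⟨c0, hc0⟩ := h.cne
  have hc0E : c0 ∉ E := fun h1 => h.E_C h1 hc0
  have hCc := h.card
  have hC2 := h.two
  have hE2 : 2 ≤ E.card := by
    have h1 := h.E_even hF
    have h2 := Finset.card_pos.2 h.ne
    obtain ⟨r, hr⟩ := h1
    omega
  have hKc : K.card = C.card + (un O).card + E.card := by
    conv_lhs => rw [h.K_eq]
    rw [Finset.card_union_of_disjoint h.disCE, Finset.card_union_of_disjoint h.disC_un]
  have hKin : (C ∪ un O).card = C.card + (un O).card := Finset.card_union_of_disjoint h.disC_un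
  have hKc' : (insert c0 E).card = E.card + 1 := Finset.card_insert_of_notMem hc0E
  have hOpos : ∀ o ∈ O, 1 ≤ o.card := fun o ho => Finset.card_pos.2 (h.fc o ho).1
  have hunO : O.card ≤ (un O).card := by
    rw [un_card h.bar.disj]
    have := Finset.sum_le_sum (fun o ho => hOpos o ho)
    simpa using this
  have hole : ∀ o ∈ O, o.card ≤ (un O).card := fun o ho =>
    Finset.card_le_card fun v hv => mem_un.2 ⟨o, ho, hv⟩
  have iin := ih (clq G C) (C ∪ un O) (by omega) (h.FC_in hF)
  have iE := ih (ctr G C c0) (insert c0 E) (by omega) (h.FC_ctr hF hc0)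
  have io : ∀ o ∈ O, Concl G o := fun o ho => ih G o (by have := hole o ho; omega) (h.fc o ho)
  have hqall : ∃ q : V → ℚ, ∀ o ∈ O, Pot G o q := by
    have : ∀ o, ∃ q, o ∈ O → Pot G o q := by
      intro o
      by_cases ho : o ∈ O
      · obtain ⟨q, hq⟩ := (io o ho).c1
        exact ⟨q, fun _ => hq⟩
      · exact ⟨fun _ => 0, fun h => absurd h ho⟩
    choose qs hqs using this
    obtain ⟨q, -, hq⟩ := glue_pot h.bar.disj qs hqs
    exact ⟨q, hq⟩
  have hqsum : ∀ q : V → ℚ, (∀ o ∈ O, Pot G o q) →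
      ∑ v ∈ un O, q v ≤ ((un O).card : ℚ) / 3 - O.card := by
    intro q hq
    rw [sum_un h.bar.disj, un_card h.bar.disj]
    refine (Finset.sum_le_sum fun o ho => (hq o ho).sum_le).trans ?_
    rw [Finset.sum_sub_distrib, Finset.sum_const, nsmul_eq_mul, mul_one]
    push_cast
    rw [Finset.sum_div]
  -- singletons
  have hsing : ∀ q : V → ℚ, ∀ o ∈ O, o.card = 1 → Pot G o q → ∑ v ∈ o, q v ≤ -1 := by
    intro q o ho h1 hq
    have := hq.co
    rw [h1] at this
    have h2 : ∑ v ∈ o, 2 / 3 * q v ≤ ∑ v ∈ o, phi (q v) := Finset.sum_le_sum fun v _ => phi_ge' _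
    rw [← Finset.mul_sum] at h2
    push_cast at this
    linarith
  have hC2' : (2 : ℚ) ≤ C.card := by exact_mod_cast hC2
  refine ⟨?_, ?_, ?_, ?_⟩
  · obtain ⟨pin, hpin⟩ := iin.c1
    obtain ⟨pE, hpE⟩ := iE.c1
    obtain ⟨q, hq⟩ := hqall
    obtain ⟨p, hp, -⟩ := comb hF h hcut hc0 hpin hpE hq
    exact ⟨p, hp⟩
  · intro _ c hc
    have hc' := hc
    rw [h.K_eq, Finset.mem_union, Finset.mem_union] at hc'
    rcases hc' with (hcC | hcO) | hcE
    · obtain ⟨pin, hpin, hge⟩ := iin.c2 (by omega) c (Finset.mem_union_left _ hcC)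
      obtain ⟨pE, hpE⟩ := iE.c1
      obtain ⟨q, hq⟩ := hqall
      obtain ⟨p, hp, -, h1, -⟩ := comb hF h hcut hc0 hpin hpE hq
      refine ⟨p, hp, ?_⟩
      rw [h1 c hcC]
      have hx1 : -1 ≤ pE c0 := hpE.lo c0 (Finset.mem_insert_self _ _)
      have hx2 : pE c0 ≤ 1 := hpE.hi c0 (Finset.mem_insert_self _ _)
      have := mul_le_mul_of_nonneg_left hge (by linarith : 0 ≤ (1 - pE c0) / 2)
      linarith
    · obtain ⟨o, ho, hco⟩ := mem_un.1 hcO
      have hoodd := h.bar.odd o ho
      by_cases ho1 : o.card = 1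
      · -- singleton
        obtain ⟨pE, hpE⟩ := iE.c1
        obtain ⟨q, hq⟩ := hqall
        have hx1 : -1 ≤ pE c0 := hpE.lo c0 (Finset.mem_insert_self _ _)
        have hx2 : pE c0 ≤ 1 := hpE.hi c0 (Finset.mem_insert_self _ _)
        have hqc : -1 ≤ q c := (hq o ho).lo c hco
        have hqc' := mul_le_mul_of_nonneg_left hqc (by linarith : 0 ≤ (1 + pE c0) / 2)
        by_cases hC3 : 3 ≤ C.card
        · obtain ⟨pin, hpin, hge⟩ := iin.c2 (by omega) c (Finset.mem_union_right _ hcO)
          obtain ⟨p, hp, -, -, h1, h2⟩ := comb hF h hcut hc0 hpin hpE hq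
          apply hp.raise hc
          intro _
          rw [h1 c hcO]
          have h3 := mul_le_mul_of_nonneg_left hge (by linarith : 0 ≤ (1 - pE c0) / 2)
          have h4 : (3 : ℚ) ≤ C.card := by exact_mod_cast hC3
          have h5 := mul_le_mul_of_nonneg_left h4 (by linarith : 0 ≤ (1 + pE c0))
          have h6 := phi_ge' (pE c0)
          linarith
        · have hCe : C.card = 2 := by omega
          have hO1 : O.card = 1 := by omega
          have hun : un O = o := by
            obtain ⟨o', ho'⟩ := Finset.card_eq_one.1 hO1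
            rw [ho'] at ho ⊢
            rw [Finset.mem_singleton] at ho
            subst ho
            simp [un]
          have hpin : Pot (clq G C) (C ∪ un O) fun _ => 0 :=
            Pot_zero_three (by rw [hKin, hun]; omega)
          obtain ⟨p, hp, -, -, h1, h2⟩ := comb hF h hcut hc0 hpin hpE hq
          apply hp.raise hc
          rw [h1 c hcO]
          intro h3
          rw [hCe] at h2
          push_cast at h2
          rcases le_or_gt (pE c0) 0 with h4 | h4
          · linarith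
          · have h5 := phi_nonneg h4.le
            rw [h5] at h2
            linarith
      · have ho3 : 3 ≤ o.card := by
          obtain ⟨r, hr⟩ := hoodd
          omega
        obtain ⟨pin, hpin, hge⟩ := iin.c2 (by omega) c (Finset.mem_union_right _ hcO)
        obtain ⟨pE, hpE⟩ := iE.c1
        obtain ⟨qo, hqo, hgeo⟩ := (io o ho).c2 ho3 c hco
        obtain ⟨q0, hq0⟩ := hqall
        obtain ⟨q, hqv, hq⟩ := glue_pot h.bar.disj (fun o' => if o' = o then qo else q0) (by
          intro o' ho'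
          by_cases e : o' = o
          · rw [if_pos e, e]; exact hqo
          · rw [if_neg e]; exact hq0 o' ho')
        obtain ⟨p, hp, -, -, h1, -⟩ := comb hF h hcut hc0 hpin hpE hq
        refine ⟨p, hp, ?_⟩
        rw [h1 c hcO, hqv o ho c hco, if_pos rfl]
        have hx1 : -1 ≤ pE c0 := hpE.lo c0 (Finset.mem_insert_self _ _)
        have hx2 : pE c0 ≤ 1 := hpE.hi c0 (Finset.mem_insert_self _ _)
        have h3 := mul_le_mul_of_nonneg_left hge (by linarith : 0 ≤ (1 - pE c0) / 2)
        have h4 := mul_le_mul_of_nonneg_left hgeo (by linarith : 0 ≤ (1 + pE c0) / 2)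
        linarith
    · obtain ⟨pin, hpin⟩ := iin.c1
      obtain ⟨pE, hpE, hge⟩ := iE.c2 (by omega) c (Finset.mem_insert_of_mem hcE)
      obtain ⟨q, hq⟩ := hqall
      obtain ⟨p, hp, h1, -⟩ := comb hF h hcut hc0 hpin hpE hq
      exact ⟨p, hp, by rw [h1 c hcE]; exact hge⟩
  · intro _
    by_cases hC3 : 3 ≤ C.card
    · obtain ⟨pin, hpin, hs⟩ := iin.c3 (by omega)
      obtain ⟨pE, hpE⟩ := iE.c1
      obtain ⟨q, hq⟩ := hqall
      obtain ⟨p, hp, h1⟩ := comb_bound hF h hcut hc0 hpin hpE hq (s := 1 / 12) (t := 0)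
        (by linarith) (by have := hqsum q hq; linarith)
      refine ⟨p, hp, h1.trans ?_⟩
      have hx1 : -1 ≤ pE c0 := hpE.lo c0 (Finset.mem_insert_self _ _)
      have hx2 : pE c0 ≤ 1 := hpE.hi c0 (Finset.mem_insert_self _ _)
      have h4 : (3 : ℚ) ≤ C.card := by exact_mod_cast hC3
      have h5 := mul_le_mul_of_nonneg_left h4 (by linarith : 0 ≤ (1 + pE c0))
      have h6 := phi_ge' (pE c0)
      have h7 := phi_ge (pE c0)
      rcases le_or_gt (pE c0) 0 with h8 | h8 <;> linarith
    · have hCe : C.card = 2 := by omega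
      have hO1 : O.card = 1 := by omega
      obtain ⟨o, ho⟩ := Finset.card_eq_one.1 hO1
      have hoO : o ∈ O := by rw [ho]; simp
      have hun : un O = o := by rw [ho]; simp [un]
      have hoodd := h.bar.odd o hoO
      by_cases ho1 : o.card = 1
      · have hpin : Pot (clq G C) (C ∪ un O) fun _ => 0 :=
          Pot_zero_three (by rw [hKin, hun]; omega)
        obtain ⟨pE, hpE, hge⟩ := iE.c2 (by omega) c0 (Finset.mem_insert_self _ _)
        obtain ⟨q, hq⟩ := hqall
        have hq1 := hsing q o hoO ho1 (hq o hoO)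
        obtain ⟨p, hp, h1⟩ := comb_bound hF h hcut hc0 hpin hpE hq (s := 0) (t := 1 / 3)
          (by rw [hKin, hun, ho1, hCe]; norm_num)
          (by rw [hun, ho1, hO1]; push_cast; linarith)
        refine ⟨p, hp, h1.trans ?_⟩
        rw [hCe]
        push_cast
        have h6 := phi_ge' (pE c0)
        linarith
      · by_cases ho3 : o.card = 3
        · obtain ⟨pin, hpin, hs⟩ := iin.c4 (by rw [hKin, hun]; omega)
          obtain ⟨pE, hpE⟩ := iE.c1
          obtain ⟨q, hq⟩ := hqall
          obtain ⟨p, hp, h1⟩ := comb_bound hF h hcut hc0 hpin hpE hq (s := 1 / 6) (t := 0)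
            (by
              have hc5 : (C ∪ un O).card = 5 := by rw [hKin, hun]; omega
              rw [hc5]; push_cast; linarith)
            (by have := hqsum q hq; linarith)
          refine ⟨p, hp, h1.trans ?_⟩
          rw [hCe]
          push_cast
          have hx1 : -1 ≤ pE c0 := hpE.lo c0 (Finset.mem_insert_self _ _)
          have hx2 : pE c0 ≤ 1 := hpE.hi c0 (Finset.mem_insert_self _ _)
          have h6 := phi_ge' (pE c0)
          have h7 := phi_ge (pE c0)
          rcases le_or_gt (pE c0) 0 with h8 | h8 <;> linarith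
        · have ho5 : 5 ≤ o.card := by
            obtain ⟨r, hr⟩ := hoodd
            omega
          obtain ⟨pin, hpin, hs⟩ := iin.c3 (by rw [hKin, hun]; omega)
          obtain ⟨pE, hpE⟩ := iE.c1
          obtain ⟨q, hq, hqs⟩ := (io o hoO).c3 ho5
          obtain ⟨p, hp, h1⟩ := comb_bound hF h hcut hc0 hpin hpE
            (fun o' ho' => by
              rw [ho, Finset.mem_singleton] at ho'
              rw [ho']; exact hq) (s := 1 / 12) (t := 1 / 12)
            (by linarith)
            (by rw [hun, hO1]; push_cast; linarith)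
          refine ⟨p, hp, h1.trans ?_⟩
          rw [hCe]
          push_cast
          have hx1 : -1 ≤ pE c0 := hpE.lo c0 (Finset.mem_insert_self _ _)
          have hx2 : pE c0 ≤ 1 := hpE.hi c0 (Finset.mem_insert_self _ _)
          have h6 := phi_ge' (pE c0)
          linarith
  · intro h5
    have hCe : C.card = 2 := by omega
    have hO1 : O.card = 1 := by omega
    have hun1 : (un O).card = 1 := by omega
    have hEe : E.card = 2 := by omega
    obtain ⟨o, ho⟩ := Finset.card_eq_one.1 hO1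
    have hoO : o ∈ O := by rw [ho]; simp
    have hun : un O = o := by rw [ho]; simp [un]
    have ho1 : o.card = 1 := by rw [← hun]; exact hun1
    have hpin : Pot (clq G C) (C ∪ un O) fun _ => 0 :=
      Pot_zero_three (by rw [hKin]; omega)
    have hpE : Pot (ctr G C c0) (insert c0 E) fun _ => 0 :=
      Pot_zero_three (by rw [hKc']; omega)
    obtain ⟨q, hq⟩ := hqall
    have hq1 := hsing q o hoO ho1 (hq o hoO)
    obtain ⟨p, hp, h1⟩ := comb_bound hF h hcut hc0 hpin hpE hq (s := 0) (t := 1 / 3)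
      (by rw [hKin, hun1, hCe]; norm_num)
      (by rw [hun, ho1, hO1]; push_cast; linarith)
    refine ⟨p, hp, h1.trans ?_⟩
    rw [hCe, h5, phi_zero]
    norm_num

end Pool.Agent.Helper74.TZ
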