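import Pool.Agent.Helper74.TZ.Bas

set_option linter.unusedSectionVars false

namespace Pool.Agent.Helper74.TZ

variable {V : Type} [DecidableEq V] {G : SimpleGraph V}

/-- Tutte's theorem for subsets -/
theorem tutte_set {S : Finset V} (hS : Even S.card) (h : ¬ PM G S) :
    ∃ (B : Finset V) (O : Finset (Finset V)), Bar G S B O ∧ B.card + 2 ≤ O.card := by
  classical
  let W := {x // x ∈ S}
  let G' : SimpleGraph W := G.comap Subtype.val
  have hno : ¬ ∃ M : G'.Subgraph, M.IsPerfectMatching := by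
    rintro ⟨M, hM⟩
    apply h
    have h1 : ∀ v : W, ∃! w : W, M.Adj v w := SimpleGraph.Subgraph.isPerfectMatching_iff.1 hM
    choose g hg hg' using h1
    refine ⟨fun v => if hv : v ∈ S then (g ⟨v, hv⟩).1 else v, ?_⟩
    intro v hv
    have e1 : (if hv : v ∈ S then (g ⟨v, hv⟩).1 else v) = (g ⟨v, hv⟩).1 := dif_pos hv
    simp only [dif_pos hv]
    refine ⟨(g ⟨v, hv⟩).2, ?_, ?_⟩
    · exact (hg ⟨v, hv⟩).adj_sub
    · rw [dif_pos (g ⟨v, hv⟩).2]
      have h2 : M.Adj (g ⟨v, hv⟩) ⟨v, hv⟩ := (hg ⟨v, hv⟩).symm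
      have h3 := hg' (g ⟨v, hv⟩) ⟨v, hv⟩ h2
      exact congrArg Subtype.val h3.symm
  rw [SimpleGraph.tutte] at hno
  push Not at hno
  obtain ⟨u, hu⟩ := hno
  rw [SimpleGraph.IsTutteViolator] at hu
  set D := (⊤ : G'.Subgraph).deleteVerts u with hD
  have hverts : ∀ w : W, w ∈ D.verts ↔ w ∉ u := by
    intro w
    rw [hD, SimpleGraph.Subgraph.deleteVerts_verts]
    simp
  have hadj0 : ∀ v w : W, v ∉ u → w ∉ u → (D.Adj v w ↔ G.Adj v.1 w.1) := by
    intro v w h1 h2
    rw [hD, SimpleGraph.Subgraph.deleteVerts_adj]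
    simp [h1, h2, G']
  have hadj : ∀ v w : D.verts, D.coe.Adj v w ↔ G.Adj v.1.1 w.1.1 := by
    intro v w
    rw [SimpleGraph.Subgraph.coe_adj]
    exact hadj0 v.1 w.1 ((hverts v.1).1 v.2) ((hverts w.1).1 w.2)
  let τ : D.coe.ConnectedComponent → Finset V := fun c =>
    (Set.toFinite c.supp).toFinset.image fun w => w.1.1
  have hτmem : ∀ c v, v ∈ τ c ↔ ∃ w : D.verts, w ∈ c.supp ∧ w.1.1 = v := by
    intro c v
    simp only [τ, Finset.mem_image, Set.Finite.mem_toFinset]
  have hτcard : ∀ c, (τ c).card = c.supp.ncard := by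
    intro c
    rw [Set.ncard_eq_toFinset_card _ (Set.toFinite c.supp)]
    apply Finset.card_image_of_injective
    intro a b hab
    exact Subtype.ext (Subtype.ext hab)
  have hτinj : ∀ c c', (∃ v, v ∈ τ c ∧ v ∈ τ c') → c = c' := by
    rintro c c' ⟨v, h1, h2⟩
    obtain ⟨w, hw, rfl⟩ := (hτmem _ _).1 h1
    obtain ⟨w', hw', e⟩ := (hτmem _ _).1 h2
    have : w' = w := Subtype.ext (Subtype.ext e)
    subst this
    rw [SimpleGraph.ConnectedComponent.mem_supp_iff] at hw hw'
    rw [← hw, hw']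
  let Ω := (Set.toFinite D.coe.oddComponents).toFinset
  have hΩ : ∀ c, c ∈ Ω ↔ Odd c.supp.ncard := by
    intro c
    simp only [Ω, Set.Finite.mem_toFinset]
    rfl
  let B : Finset V := (Set.toFinite u).toFinset.image fun w => w.1
  have hBmem : ∀ v (hv : v ∈ S), v ∈ B ↔ (⟨v, hv⟩ : W) ∈ u := by
    intro v hv
    simp only [B, Finset.mem_image, Set.Finite.mem_toFinset]
    constructor
    · rintro ⟨w, hw, e⟩
      have : w = ⟨v, hv⟩ := Subtype.ext e
      rwa [← this]
    · intro hw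
      exact ⟨_, hw, rfl⟩
  have hBcard : B.card = u.ncard := by
    rw [Set.ncard_eq_toFinset_card _ (Set.toFinite u)]
    exact Finset.card_image_of_injective _ Subtype.val_injective
  have hne : ∀ c ∈ Ω, (τ c).Nonempty := by
    intro c hc
    rw [← Finset.card_pos, hτcard]
    exact ((hΩ c).1 hc).pos
  have hOcard : (Ω.image τ).card = D.coe.oddComponents.ncard := by
    rw [Finset.card_image_of_injOn]
    · rw [Set.ncard_eq_toFinset_card _ (Set.toFinite D.coe.oddComponents)]
    · intro c hc c' hc' e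
      obtain ⟨v, hv⟩ := hne c hc
      exact hτinj c c' ⟨v, hv, by rw [← show τ c = τ c' from e]; exact hv⟩
  refine ⟨B, Ω.image τ, ⟨?_, ?_, ?_, ?_, ?_⟩, ?_⟩
  · intro v hv
    simp only [B, Finset.mem_image, Set.Finite.mem_toFinset] at hv
    obtain ⟨w, -, rfl⟩ := hv
    exact w.2
  · intro o ho v hv
    obtain ⟨c, hc, rfl⟩ := Finset.mem_image.1 ho
    obtain ⟨w, hw, rfl⟩ := (hτmem _ _).1 hv
    rw [Finset.mem_sdiff]
    exact ⟨w.1.2, fun h1 => (hverts w.1).1 w.2 ((hBmem _ w.1.2).1 h1)⟩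
  · intro o ho
    obtain ⟨c, hc, rfl⟩ := Finset.mem_image.1 ho
    rw [hτcard]
    exact (hΩ c).1 hc
  · intro o ho o' ho' hne'
    obtain ⟨c, hc, rfl⟩ := Finset.mem_image.1 ho
    obtain ⟨c', hc', rfl⟩ := Finset.mem_image.1 ho'
    rw [Finset.disjoint_left]
    intro v hv hv'
    exact hne' (by rw [hτinj c c' ⟨v, hv, hv'⟩])
  · intro o ho v hv v' hv' hvv
    obtain ⟨c, hc, rfl⟩ := Finset.mem_image.1 ho
    obtain ⟨w, hw, rfl⟩ := (hτmem _ _).1 hv
    rw [Finset.mem_sdiff] at hv'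
    have h1 : (⟨v', hv'.1⟩ : W) ∈ D.verts := (hverts _).2 fun h2 => hv'.2 ((hBmem _ hv'.1).2 h2)
    rw [hτmem]
    refine ⟨⟨⟨v', hv'.1⟩, h1⟩, ?_, rfl⟩
    rw [SimpleGraph.ConnectedComponent.mem_supp_iff] at hw ⊢
    rw [← hw]
    apply SimpleGraph.ConnectedComponent.sound
    apply SimpleGraph.Adj.reachable
    exact ((hadj _ _).2 hvv).symm
  · have hpar : Odd (Ω.image τ).card ↔ Odd (Nat.card D.verts) := by
      rw [hOcard]
      exact SimpleGraph.odd_ncard_oddComponents _
    have hc1 : Nat.card D.verts + B.card = S.card := by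
      have h1 : Nat.card D.verts = D.verts.ncard := rfl
      rw [h1, hBcard, hD, SimpleGraph.Subgraph.deleteVerts_verts]
      have h2 : ((⊤ : G'.Subgraph).verts \ u).ncard = uᶜ.ncard := by
        congr 1
        ext w; simp
      rw [h2, Set.ncard_compl]
      have h3 : Nat.card W = S.card := by simp [W]
      have h4 : u.ncard ≤ Nat.card W := Set.ncard_le_card u
      omega
    have h1 : B.card < (Ω.image τ).card := by rw [hBcard, hOcard]; exact hu
    rcases Nat.lt_or_ge (B.card + 1) (Ω.image τ).card with h2 | h2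
    · exact h2
    · exfalso
      have h3 : (Ω.image τ).card = B.card + 1 := by omega
      rw [h3] at hpar
      have e1 := hS
      rw [← hc1] at e1
      rcases Nat.even_or_odd B.card with hb | hb
      · have h4 := hpar.1 hb.add_one
        exact (Nat.not_even_iff_odd.2 (h4.add_even hb)) e1
      · have h4 : ¬ Odd (Nat.card D.verts) := fun h5 => by
          have := hpar.2 h5
          exact (Nat.not_odd_iff_even.2 hb.add_one) this
        rw [Nat.not_odd_iff_even] at h4
        exact (Nat.not_even_iff_odd.2 (h4.add_odd hb)) e1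

end Pool.Agent.Helper74.TZ
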